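import Pool.Agent.H70.NG.Basic

/-!
# NG-ALEX: Alexander duality and Euler characteristic on four vertices

Finite statement about the 168 down-closed families `D` of subsets of `Fin 4`.
With `D^v = {I : Iᶜ ∉ D}` (again down-closed) and `gb` = (number of components) - 1
(truncated) one has

  gb D - gb D^v - [D = {∅}] + [D^v = {∅}] = ∑_{I ∈ D} (-1)^(|I|+1).
-/

open Finset

namespace H70NG

namespace AlexAux

/-- adjacency from the six booleans -/
def adj (p q r s t u : Bool) (a b : Fin 4) : Bool :=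
  match a.val, b.val with
  | 0, 1 => p
  | 1, 0 => p
  | 0, 2 => q
  | 2, 0 => q
  | 0, 3 => r
  | 3, 0 => r
  | 1, 2 => s
  | 2, 1 => s
  | 1, 3 => t
  | 3, 1 => t
  | 2, 3 => u
  | 3, 2 => u
  | _, _ => false

def conn (p q r s t u : Bool) (a b : Fin 4) : Bool :=
  a == b || adj p q r s t u a b ||
  (List.finRange 4).any (fun c => adj p q r s t u a c && (adj p q r s t u c b ||
    (List.finRange 4).any (fun d => adj p q r s t u c d && adj p q r s t u d b)))

theorem conn_step : ∀ p q r s t u : Bool, ∀ a b c : Fin 4,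
    conn p q r s t u a b = true → adj p q r s t u b c = true → conn p q r s t u a c = true := by
  decide

/-- vertex function -/
def vx (v0 v1 v2 v3 : Bool) (a : Fin 4) : Bool :=
  match a.val with
  | 0 => v0
  | 1 => v1
  | 2 => v2
  | _ => v3

def nc (v0 v1 v2 v3 p q r s t u : Bool) : ℕ :=
  ((univ.filter (fun a => vx v0 v1 v2 v3 a = true)).image
    (fun a => univ.filter (fun b => conn p q r s t u a b = true))).card

def bi (b : Bool) : ℤ := if b then 1 else 0

def ident (x v0 v1 v2 v3 p q r s t u w0 w1 w2 w3 y : Bool) : Bool :=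
    decide (((nc v0 v1 v2 v3 p q r s t u - 1 : ℕ) : ℤ) - ((nc (!w0) (!w1) (!w2) (!w3) (!u) (!t) (!s) (!r) (!q) (!p) - 1 : ℕ) : ℤ)
      - bi (x && !v0 && !v1 && !v2 && !v3) + bi (!y && w0 && w1 && w2 && w3)
      = - bi x + bi v0 + bi v1 + bi v2 + bi v3 - bi p - bi q - bi r - bi s - bi t - bi u
        + bi w0 + bi w1 + bi w2 + bi w3 - bi y)

def im (a : Bool) (f : Bool → Bool) : Bool := (if a then f true else true) && f false

/-- Nested check: each new boolean is only allowed to be true if the condition holds. -/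
def check : Bool :=
  im true fun x => im x fun v0 => im x fun v1 => im x fun v2 => im x fun v3 =>
  im (v0 && v1) fun p => im (v0 && v2) fun q => im (v0 && v3) fun r => im (v1 && v2) fun s =>
  im (v1 && v3) fun t => im (v2 && v3) fun u => im (s && t && u) fun w0 =>
  im (q && r && u) fun w1 => im (p && r && t) fun w2 => im (p && q && s) fun w3 =>
  im (w0 && w1 && w2 && w3) fun y => ident x v0 v1 v2 v3 p q r s t u w0 w1 w2 w3 y

theorem check_true : check = true := by decide

theorem im_true {a : Bool} {f : Bool → Bool} (h : im a f = true) (b : Bool)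
    (hb : b = true → a = true) : f b = true := by
  cases b
  · simp [im] at h; exact h.2
  · simp [im, hb rfl] at h; exact h.1

theorem ident_true {x v0 v1 v2 v3 p q r s t u w0 w1 w2 w3 y : Bool}
    (h0 : v0 → x) (h1 : v1 → x) (h2 : v2 → x) (h3 : v3 → x)
    (hp : p → v0 ∧ v1) (hq : q → v0 ∧ v2) (hr : r → v0 ∧ v3)
    (hs : s → v1 ∧ v2) (ht : t → v1 ∧ v3) (hu : u → v2 ∧ v3)
    (hw0 : w0 → s ∧ t ∧ u) (hw1 : w1 → q ∧ r ∧ u)
    (hw2 : w2 → p ∧ r ∧ t) (hw3 : w3 → p ∧ q ∧ s)
    (hy : y → w0 ∧ w1 ∧ w2 ∧ w3) :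
    ident x v0 v1 v2 v3 p q r s t u w0 w1 w2 w3 y = true := by
  have h := im_true check_true x (fun _ => rfl)
  have h := im_true h v0 h0
  have h := im_true h v1 h1
  have h := im_true h v2 h2
  have h := im_true h v3 h3
  have h := im_true h p (by simpa using hp)
  have h := im_true h q (by simpa using hq)
  have h := im_true h r (by simpa using hr)
  have h := im_true h s (by simpa using hs)
  have h := im_true h t (by simpa using ht)
  have h := im_true h u (by simpa using hu)
  have h := im_true h w0 (by simpa [and_assoc] using hw0)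
  have h := im_true h w1 (by simpa [and_assoc] using hw1)
  have h := im_true h w2 (by simpa [and_assoc] using hw2)
  have h := im_true h w3 (by simpa [and_assoc] using hw3)
  exact im_true h y (by simpa [and_assoc] using hy)


theorem adj_iff (D : Finset (Fin 4) → Prop) {p q r s t u : Bool}
    (hp : p = true ↔ D {0, 1}) (hq : q = true ↔ D {0, 2}) (hr : r = true ↔ D {0, 3})
    (hs : s = true ↔ D {1, 2}) (ht : t = true ↔ D {1, 3}) (hu : u = true ↔ D {2, 3})
    (a b : Fin 4) : adj p q r s t u a b = true ↔ GAdj D a b := by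
  have e10 : ({1, 0} : Finset (Fin 4)) = {0, 1} := by decide
  have e20 : ({2, 0} : Finset (Fin 4)) = {0, 2} := by decide
  have e30 : ({3, 0} : Finset (Fin 4)) = {0, 3} := by decide
  have e21 : ({2, 1} : Finset (Fin 4)) = {1, 2} := by decide
  have e31 : ({3, 1} : Finset (Fin 4)) = {1, 3} := by decide
  have e32 : ({3, 2} : Finset (Fin 4)) = {2, 3} := by decide
  fin_cases a <;> fin_cases b <;>
    simp [adj, GAdj, hp, hq, hr, hs, ht, hu, e10, e20, e30, e21, e31, e32]

theorem conn_iff (D : Finset (Fin 4) → Prop) {p q r s t u : Bool}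
    (hp : p = true ↔ D {0, 1}) (hq : q = true ↔ D {0, 2}) (hr : r = true ↔ D {0, 3})
    (hs : s = true ↔ D {1, 2}) (ht : t = true ↔ D {1, 3}) (hu : u = true ↔ D {2, 3})
    (a b : Fin 4) : conn p q r s t u a b = true ↔ GConn D a b := by
  have hadj := adj_iff D hp hq hr hs ht hu
  constructor
  · intro h
    simp only [conn, Bool.or_eq_true, beq_iff_eq, List.any_eq_true, Bool.and_eq_true] at h
    rcases h with (h | h) | ⟨c, -, h1, h2⟩
    · subst h; exact Relation.ReflTransGen.refl
    · exact Relation.ReflTransGen.single ((hadj a b).1 h)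
    · have g1 : GConn D a c := Relation.ReflTransGen.single ((hadj a c).1 h1)
      rcases h2 with h2 | ⟨d, -, h2, h3⟩
      · exact g1.tail ((hadj c b).1 h2)
      · exact (g1.tail ((hadj c d).1 h2)).tail ((hadj d b).1 h3)
  · intro h
    unfold GConn at h
    induction h with
    | refl => simp [conn]
    | tail _ hbc ih => exact conn_step p q r s t u _ _ _ ih ((hadj _ _).2 hbc)

theorem gb_eq (D : Finset (Fin 4) → Prop) {v0 v1 v2 v3 p q r s t u : Bool}
    (h0 : v0 = true ↔ D {0}) (h1 : v1 = true ↔ D {1}) (h2 : v2 = true ↔ D {2})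
    (h3 : v3 = true ↔ D {3})
    (hp : p = true ↔ D {0, 1}) (hq : q = true ↔ D {0, 2}) (hr : r = true ↔ D {0, 3})
    (hs : s = true ↔ D {1, 2}) (ht : t = true ↔ D {1, 3}) (hu : u = true ↔ D {2, 3}) :
    gb D = nc v0 v1 v2 v3 p q r s t u - 1 := by
  classical
  have hc := conn_iff D hp hq hr hs ht hu
  have hv : ∀ a, vx v0 v1 v2 v3 a = true ↔ D {a} := by
    intro a; fin_cases a <;> simp [vx, h0, h1, h2, h3]
  unfold gb gcomps nc
  congr 2
  have e1 : (univ.filter (fun a => D {a}) : Finset (Fin 4))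
      = univ.filter (fun a => vx v0 v1 v2 v3 a = true) := by
    ext a; simp [hv]
  have e2 : gcomp D = fun a => univ.filter (fun b => conn p q r s t u a b = true) := by
    funext a; ext b; simp [gcomp, hc]
  rw [e2]
  convert rfl using 2
  ext a; simp [hv]

end AlexAux

open Classical in
theorem alex (D : Finset (Fin 4) → Prop) (hD : ∀ I J, I ⊆ J → D J → D I) :
    (gb D : ℤ) - (gb (fun I => ¬ D Iᶜ) : ℤ)
      - (if D ∅ ∧ ∀ a, ¬ D {a} then 1 else 0)
      + (if ¬ D univ ∧ ∀ a, D {a}ᶜ then 1 else 0)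
      = ∑ I : Finset (Fin 4), if D I then (-1 : ℤ) ^ (I.card + 1) else 0 := by
  have hb : ∀ I : Finset (Fin 4), decide (D I) = true ↔ D I := fun I => decide_eq_true_iff
  have hnb : ∀ I : Finset (Fin 4), (!decide (D I)) = true ↔ ¬ D I := fun I => by simp
  have key := AlexAux.ident_true (x := decide (D ∅)) (v0 := decide (D {0})) (v1 := decide (D {1}))
    (v2 := decide (D {2})) (v3 := decide (D {3})) (p := decide (D {0, 1}))
    (q := decide (D {0, 2})) (r := decide (D {0, 3})) (s := decide (D {1, 2}))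
    (t := decide (D {1, 3})) (u := decide (D {2, 3})) (w0 := decide (D {1, 2, 3}))
    (w1 := decide (D {0, 2, 3})) (w2 := decide (D {0, 1, 3})) (w3 := decide (D {0, 1, 2}))
    (y := decide (D univ))
    (by simpa only [hb] using hD _ _ (by decide)) (by simpa only [hb] using hD _ _ (by decide))
    (by simpa only [hb] using hD _ _ (by decide)) (by simpa only [hb] using hD _ _ (by decide))
    (by simp only [hb]; exact fun h => ⟨hD _ _ (by decide) h, hD _ _ (by decide) h⟩)
    (by simp only [hb]; exact fun h => ⟨hD _ _ (by decide) h, hD _ _ (by decide) h⟩)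
    (by simp only [hb]; exact fun h => ⟨hD _ _ (by decide) h, hD _ _ (by decide) h⟩)
    (by simp only [hb]; exact fun h => ⟨hD _ _ (by decide) h, hD _ _ (by decide) h⟩)
    (by simp only [hb]; exact fun h => ⟨hD _ _ (by decide) h, hD _ _ (by decide) h⟩)
    (by simp only [hb]; exact fun h => ⟨hD _ _ (by decide) h, hD _ _ (by decide) h⟩)
    (by simp only [hb]; exact fun h => ⟨hD _ _ (by decide) h, hD _ _ (by decide) h, hD _ _ (by decide) h⟩)
    (by simp only [hb]; exact fun h => ⟨hD _ _ (by decide) h, hD _ _ (by decide) h, hD _ _ (by decide) h⟩)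
    (by simp only [hb]; exact fun h => ⟨hD _ _ (by decide) h, hD _ _ (by decide) h, hD _ _ (by decide) h⟩)
    (by simp only [hb]; exact fun h => ⟨hD _ _ (by decide) h, hD _ _ (by decide) h, hD _ _ (by decide) h⟩)
    (by simp only [hb]; exact fun h => ⟨hD _ _ (by decide) h, hD _ _ (by decide) h,
      hD _ _ (by decide) h, hD _ _ (by decide) h⟩)
  have c0 : ({0} : Finset (Fin 4))ᶜ = {1, 2, 3} := by decide
  have c1 : ({1} : Finset (Fin 4))ᶜ = {0, 2, 3} := by decide
  have c2 : ({2} : Finset (Fin 4))ᶜ = {0, 1, 3} := by decide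
  have c3 : ({3} : Finset (Fin 4))ᶜ = {0, 1, 2} := by decide
  have c01 : ({0, 1} : Finset (Fin 4))ᶜ = {2, 3} := by decide
  have c02 : ({0, 2} : Finset (Fin 4))ᶜ = {1, 3} := by decide
  have c03 : ({0, 3} : Finset (Fin 4))ᶜ = {1, 2} := by decide
  have c12 : ({1, 2} : Finset (Fin 4))ᶜ = {0, 3} := by decide
  have c13 : ({1, 3} : Finset (Fin 4))ᶜ = {0, 2} := by decide
  have c23 : ({2, 3} : Finset (Fin 4))ᶜ = {0, 1} := by decide
  have g1 := AlexAux.gb_eq D (hb {0}) (hb {1}) (hb {2}) (hb {3}) (hb {0, 1}) (hb {0, 2})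
    (hb {0, 3}) (hb {1, 2}) (hb {1, 3}) (hb {2, 3})
  have g2 := AlexAux.gb_eq (fun I => ¬ D Iᶜ) (v0 := !decide (D {1, 2, 3}))
    (v1 := !decide (D {0, 2, 3})) (v2 := !decide (D {0, 1, 3})) (v3 := !decide (D {0, 1, 2}))
    (p := !decide (D {2, 3})) (q := !decide (D {1, 3})) (r := !decide (D {1, 2}))
    (s := !decide (D {0, 3})) (t := !decide (D {0, 2})) (u := !decide (D {0, 1}))
    (by rw [c0]; exact hnb _) (by rw [c1]; exact hnb _) (by rw [c2]; exact hnb _)
    (by rw [c3]; exact hnb _) (by rw [c01]; exact hnb _) (by rw [c02]; exact hnb _)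
    (by rw [c03]; exact hnb _) (by rw [c12]; exact hnb _) (by rw [c13]; exact hnb _)
    (by rw [c23]; exact hnb _)
  unfold AlexAux.ident at key
  rw [decide_eq_true_iff] at key
  rw [g1, g2]
  have hu : (univ : Finset (Finset (Fin 4))) = {∅, {0}, {1}, {2}, {3}, {0, 1}, {0, 2}, {0, 3},
    {1, 2}, {1, 3}, {2, 3}, {1, 2, 3}, {0, 2, 3}, {0, 1, 3}, {0, 1, 2}, univ} := by decide
  rw [hu]
  repeat rw [Finset.sum_insert (by decide)]
  rw [Finset.sum_singleton]
  have n0 : (∅ : Finset (Fin 4)).card = 0 := rfl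
  have n1 : ∀ a : Fin 4, ({a} : Finset (Fin 4)).card = 1 := fun a => rfl
  have n01 : ({0, 1} : Finset (Fin 4)).card = 2 := rfl
  have n02 : ({0, 2} : Finset (Fin 4)).card = 2 := rfl
  have n03 : ({0, 3} : Finset (Fin 4)).card = 2 := rfl
  have n12 : ({1, 2} : Finset (Fin 4)).card = 2 := rfl
  have n13 : ({1, 3} : Finset (Fin 4)).card = 2 := rfl
  have n23 : ({2, 3} : Finset (Fin 4)).card = 2 := rfl
  have n123 : ({1, 2, 3} : Finset (Fin 4)).card = 3 := rfl
  have n023 : ({0, 2, 3} : Finset (Fin 4)).card = 3 := rfl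
  have n013 : ({0, 1, 3} : Finset (Fin 4)).card = 3 := rfl
  have n012 : ({0, 1, 2} : Finset (Fin 4)).card = 3 := rfl
  have nu : (univ : Finset (Fin 4)).card = 4 := rfl
  rw [n0, n1, n1, n1, n1, n01, n02, n03, n12, n13, n23, n123, n023, n013, n012, nu]
  have hx : ∀ (P : Prop), (if P then (-1 : ℤ) ^ (0 + 1) else 0) = - AlexAux.bi (decide P) := by
    intro P; by_cases hP : P <;> simp [AlexAux.bi, hP]
  have hx1 : ∀ (P : Prop), (if P then (-1 : ℤ) ^ (1 + 1) else 0) = AlexAux.bi (decide P) := by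
    intro P; by_cases hP : P <;> simp [AlexAux.bi, hP]
  have hx2 : ∀ (P : Prop), (if P then (-1 : ℤ) ^ (2 + 1) else 0) = - AlexAux.bi (decide P) := by
    intro P; by_cases hP : P <;> simp [AlexAux.bi, hP]
  have hx3 : ∀ (P : Prop), (if P then (-1 : ℤ) ^ (3 + 1) else 0) = AlexAux.bi (decide P) := by
    intro P; by_cases hP : P <;> simp [AlexAux.bi, hP]
  have hx4 : ∀ (P : Prop), (if P then (-1 : ℤ) ^ (4 + 1) else 0) = - AlexAux.bi (decide P) := by
    intro P; by_cases hP : P <;> simp [AlexAux.bi, hP]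
  simp only [hx, hx1, hx2, hx3, hx4]
  have k1 : (if D ∅ ∧ ∀ a, ¬ D {a} then (1 : ℤ) else 0)
      = AlexAux.bi (decide (D ∅) && !decide (D {0}) && !decide (D {1}) && !decide (D {2})
        && !decide (D {3})) := by
    unfold AlexAux.bi
    congr 1
    simp [Fin.forall_fin_succ, and_assoc]
  have k2 : (if ¬ D univ ∧ ∀ a, D {a}ᶜ then (1 : ℤ) else 0)
      = AlexAux.bi (!decide (D univ) && decide (D {1, 2, 3}) && decide (D {0, 2, 3})
        && decide (D {0, 1, 3}) && decide (D {0, 1, 2})) := by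
    unfold AlexAux.bi
    congr 1
    have : (∀ a, D {a}ᶜ) ↔ D {1, 2, 3} ∧ D {0, 2, 3} ∧ D {0, 1, 3} ∧ D {0, 1, 2} := by
      rw [← c0, ← c1, ← c2, ← c3]
      constructor
      · intro h; exact ⟨h 0, h 1, h 2, h 3⟩
      · rintro ⟨h0, h1, h2, h3⟩ a
        fin_cases a
        · exact h0
        · exact h1
        · exact h2
        · exact h3
    simp [this, and_assoc]
  rw [k1, k2]
  linarith [key]

end H70NG
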