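import Pool.Agent.H70.NG.Defs

/-! Basic facts on the semigroup, its pseudo-Frobenius numbers and its canonical ideal. -/

open Finset

namespace H70NG

variable {n : Fin 4 → ℤ} {S : Set ℤ} {F : ℤ}

theorem Sg.sub_notMem (h : Sg n S F) {a b : Fin 4} (hab : a ≠ b) : n a - n b ∉ S := by
  intro hs
  rcases h.irr a (n b) (h.gen b) (n a - n b) hs (by ring) with h1 | h1
  · have := h.pos b; omega
  · exact hab (h.inj (by omega))

theorem Sg.neg_notMem (h : Sg n S F) {x : ℤ} (hx : x < 0) : x ∉ S :=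
  fun hs => by have := h.nonneg x hs; omega

theorem Sg.add_gen (h : Sg n S F) {x : ℤ} (hx : x ∈ S) (a : Fin 4) : x + n a ∈ S :=
  h.add x hx _ (h.gen a)

theorem Sg.F_pos (h : Sg n S F) : -1 ≤ F := by
  by_contra hc
  push Not at hc
  exact h.neg_notMem (x := -1) (by norm_num) (h.Fbig _ hc)

theorem Sg.F_ne_zero (h : Sg n S F) : F ≠ 0 := fun h0 => h.Fnot (h0 ▸ h.zero)

/-! ### pseudo-Frobenius numbers -/

theorem Sg.pf_add (h : Sg n S F) {f : ℤ} (hf : f ∈ PF n S) {s : ℤ} (hs : s ∈ S) (h0 : s ≠ 0) :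
    f + s ∈ S := by
  obtain ⟨a, ha⟩ := h.dec s hs h0
  have := h.add _ (hf.2 a) _ ha
  have e : f + n a + (s - n a) = f + s := by ring
  rwa [e] at this

theorem Sg.pf_sub (h : Sg n S F) {f g : ℤ} (hf : f ∈ PF n S) (hg : g ∈ PF n S) (hfg : f ≠ g) :
    g - f ∉ S := by
  intro hs
  have := h.pf_add hf hs (by omega)
  have e : f + (g - f) = g := by ring
  rw [e] at this
  exact hg.1 this

theorem Sg.F_mem_PF (h : Sg n S F) : F ∈ PF n S :=
  ⟨h.Fnot, fun a => h.Fbig _ (by have := h.pos a; omega)⟩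

theorem Sg.pf_le (h : Sg n S F) {f : ℤ} (hf : f ∈ PF n S) : f ≤ F := by
  by_contra hc
  exact hf.1 (h.Fbig _ (by omega))

theorem Sg.pf_ge (h : Sg n S F) {f : ℤ} (hf : f ∈ PF n S) (a : Fin 4) : -n a ≤ f := by
  have := h.nonneg _ (hf.2 a); omega

theorem Sg.pf_finite (h : Sg n S F) : (PF n S).Finite :=
  (Set.finite_Icc (-n 0) F).subset (fun _ hf => ⟨h.pf_ge hf 0, h.pf_le hf⟩)

/-- Above every gap there is a pseudo-Frobenius number. -/
theorem Sg.exists_pf (h : Sg n S F) {x : ℤ} (hx : x ∉ S) : ∃ f ∈ PF n S, f - x ∈ S := by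
  -- strong induction on F - x
  have key : ∀ k : ℕ, ∀ x : ℤ, x ∉ S → (F - x).toNat ≤ k → ∃ f ∈ PF n S, f - x ∈ S := by
    intro k
    induction k with
    | zero =>
      intro x hx hk
      have hle : x ≤ F := by by_contra hc; exact hx (h.Fbig _ (by omega))
      have : x = F := by omega
      subst this
      exact ⟨x, h.F_mem_PF, by simpa using h.zero⟩
    | succ k ih =>
      intro x hx hk
      by_cases hall : ∀ a, x + n a ∈ S
      · exact ⟨x, ⟨hx, hall⟩, by simpa using h.zero⟩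
      · push Not at hall
        obtain ⟨a, ha⟩ := hall
        have hle : x + n a ≤ F := by by_contra hc; exact ha (h.Fbig _ (by omega))
        have hp := h.pos a
        obtain ⟨f, hf, hfx⟩ := ih (x + n a) ha (by omega)
        refine ⟨f, hf, ?_⟩
        have := h.add_gen hfx a
        have e : f - (x + n a) + n a = f - x := by ring
        rwa [e] at this
  exact key _ x hx le_rfl

/-! ### the canonical ideal -/

theorem mem_KK {x : ℤ} : x ∈ KK S F ↔ F - x ∉ S := Iff.rfl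

theorem Sg.KK_add (h : Sg n S F) {x : ℤ} (hx : x ∈ KK S F) {s : ℤ} (hs : s ∈ S) :
    x + s ∈ KK S F := by
  intro hc
  apply hx
  have := h.add _ hc _ hs
  have e : F - (x + s) + s = F - x := by ring
  rwa [e] at this

theorem Sg.KK_add_gen (h : Sg n S F) {x : ℤ} (hx : x ∈ KK S F) (a : Fin 4) :
    x + n a ∈ KK S F := h.KK_add hx (h.gen a)

theorem Sg.KK_nonneg (h : Sg n S F) {x : ℤ} (hx : x ∈ KK S F) : 0 ≤ x := by
  by_contra hc
  exact hx (h.Fbig _ (by omega))

theorem Sg.KK_big (h : Sg n S F) {x : ℤ} (hx : F < x) : x ∈ KK S F :=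
  h.neg_notMem (by omega)

theorem Sg.KK_gen (h : Sg n S F) {x : ℤ} (hx : x ∈ KK S F) :
    ∃ g ∈ PF n S, x - (F - g) ∈ S := by
  obtain ⟨g, hg, hgx⟩ := h.exists_pf hx
  exact ⟨g, hg, by have e : x - (F - g) = g - (F - x) := by ring
                   rwa [e]⟩

theorem Sg.dg_mem_KK (_ : Sg n S F) {g : ℤ} (hg : g ∈ PF n S) : F - g ∈ KK S F := by
  intro hc
  apply hg.1
  have e : F - (F - g) = g := by ring
  rwa [e] at hc

theorem Sg.dg_sub_notMem (_ : Sg n S F) {g : ℤ} (hg : g ∈ PF n S) (a : Fin 4) :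
    F - g - n a ∉ KK S F := by
  intro hc
  apply hc
  have := hg.2 a
  have e : F - (F - g - n a) = g + n a := by ring
  rwa [e]

/-- An element of `K` without predecessor in `K` is some `F - g`. -/
theorem Sg.KK_min (h : Sg n S F) {x : ℤ} (hx : x ∈ KK S F) (hmin : ∀ a, x - n a ∉ KK S F) :
    F - x ∈ PF n S := by
  refine ⟨hx, fun a => ?_⟩
  have := hmin a
  rw [mem_KK, not_not] at this
  have e : F - (x - n a) = F - x + n a := by ring
  rwa [e] at this

/-! ### the set `C_f` -/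

/-- `C_f = K \ (d_f + S)`. -/
def CC (S : Set ℤ) (F f : ℤ) : Set ℤ := {x | x ∈ KK S F ∧ x - (F - f) ∉ S}

theorem CC_symm {f x : ℤ} : x ∈ CC S F f ↔ F + (F - f) - x ∈ CC S F f := by
  have e1 : F - (F + (F - f) - x) = x - (F - f) := by ring
  have e2 : F + (F - f) - x - (F - f) = F - x := by ring
  constructor
  · rintro ⟨h1, h2⟩
    exact ⟨by rw [mem_KK, e1]; exact h2, by rw [e2]; exact h1⟩
  · rintro ⟨h1, h2⟩
    rw [mem_KK, e1] at h1
    rw [e2] at h2
    exact ⟨h2, h1⟩

theorem Sg.CC_finite (h : Sg n S F) (f : ℤ) : (CC S F f).Finite := by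
  apply (Set.finite_Icc 0 (F + (F - f))).subset
  rintro x ⟨h1, h2⟩
  refine ⟨h.KK_nonneg h1, ?_⟩
  by_contra hc
  exact h2 (h.Fbig _ (by omega))

/-- Elements of `A_f` kill `C_f`. -/
theorem Sg.CC_kill (h : Sg n S F) {f : ℤ} {i : Fin 4} (hi : AA n S f i) {x : ℤ}
    (hx : x ∈ CC S F f) : x + n i - (F - f) ∈ S := by
  obtain ⟨g, hg, hgx⟩ := h.KK_gen hx.1
  have := h.add _ (hi g hg) _ hgx
  have e : n i + f - g + (x - (F - g)) = x + n i - (F - f) := by ring
  rwa [e] at this

theorem CC_sub {f x s : ℤ} (hS : ∀ x ∈ S, ∀ y ∈ S, x + y ∈ S) (hs : s ∈ S)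
    (hx : x ∈ CC S F f) (hxs : x - s ∈ KK S F) : x - s ∈ CC S F f := by
  refine ⟨hxs, fun hc => hx.2 ?_⟩
  have := hS _ hc _ hs
  have e : x - s - (F - f) + s = x - (F - f) := by ring
  rwa [e] at this

/-! ### graphs -/

theorem cx_empty {X : Set ℤ} {z : ℤ} : cx n X z ∅ ↔ z ∈ X := by simp [cx]

theorem cx_single {X : Set ℤ} {z : ℤ} {a : Fin 4} : cx n X z {a} ↔ z - n a ∈ X := by simp [cx]

theorem cx_pair {X : Set ℤ} {z : ℤ} {a b : Fin 4} (hab : a ≠ b) :
    cx n X z {a, b} ↔ z - n a - n b ∈ X := by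
  unfold cx
  rw [Finset.sum_pair hab, ← sub_sub]

theorem cx_down {X : Set ℤ} (hX : ∀ x ∈ X, ∀ a, x + n a ∈ X) {z : ℤ} {I J : Finset (Fin 4)}
    (hIJ : I ⊆ J) (hJ : cx n X z J) : cx n X z I := by
  classical
  unfold cx at *
  have key : ∀ T : Finset (Fin 4), ∀ x ∈ X, x + ∑ a ∈ T, n a ∈ X := by
    intro T
    induction T using Finset.induction_on with
    | empty => intro x hx; simpa using hx
    | insert a T ha ih =>
      intro x hx
      rw [Finset.sum_insert ha]
      have := ih (x + n a) (hX x hx a)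
      rwa [add_assoc] at this
  have := key (J \ I) _ hJ
  have e : ∑ a ∈ J, n a = ∑ a ∈ J \ I, n a + ∑ a ∈ I, n a := (Finset.sum_sdiff hIJ).symm
  rw [e] at this
  have e2 : z - (∑ a ∈ J \ I, n a + ∑ a ∈ I, n a) + ∑ a ∈ J \ I, n a = z - ∑ a ∈ I, n a := by
    ring
  rwa [e2] at this

theorem GConn.symm' {D : Finset (Fin 4) → Prop} {a b : Fin 4} (h : GConn D a b) :
    GConn D b a := by
  unfold GConn at *
  induction h with
  | refl => exact Relation.ReflTransGen.refl
  | tail _ hbc ih =>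
    refine Relation.ReflTransGen.head ⟨hbc.1.symm, ?_⟩ ih
    rw [Finset.pair_comm]; exact hbc.2

theorem GConn.trans' {D : Finset (Fin 4) → Prop} {a b c : Fin 4} (h : GConn D a b)
    (h' : GConn D b c) : GConn D a c := Relation.ReflTransGen.trans h h'

theorem mem_gcomp {D : Finset (Fin 4) → Prop} {a b : Fin 4} : b ∈ gcomp D a ↔ GConn D a b := by
  classical
  simp [gcomp]

theorem self_mem_gcomp {D : Finset (Fin 4) → Prop} (a : Fin 4) : a ∈ gcomp D a :=
  mem_gcomp.2 Relation.ReflTransGen.refl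

theorem gcomp_eq_iff {D : Finset (Fin 4) → Prop} {a b : Fin 4} :
    gcomp D a = gcomp D b ↔ GConn D a b := by
  constructor
  · intro h
    rw [← mem_gcomp, h]; exact self_mem_gcomp b
  · intro h
    ext c
    rw [mem_gcomp, mem_gcomp]
    exact ⟨fun hc => (h.symm').trans' hc, fun hc => h.trans' hc⟩

theorem mem_gcomps {D : Finset (Fin 4) → Prop} {c : Finset (Fin 4)} :
    c ∈ gcomps D ↔ ∃ a, D {a} ∧ gcomp D a = c := by
  classical
  simp [gcomps]

/-- In a family closed under subsets the component of a vertex consists of vertices. -/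
theorem GConn.vertex {D : Finset (Fin 4) → Prop} (hD : ∀ I J, I ⊆ J → D J → D I)
    {a b : Fin 4} (h : GConn D a b) (ha : D {a}) : D {b} := by
  unfold GConn at h
  induction h with
  | refl => exact ha
  | tail _ hbc _ =>
    refine hD _ _ ?_ hbc.2
    intro x hx
    simp only [Finset.mem_singleton] at hx
    simp [hx]

end H70NG
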