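import Pool.Agent.H70.NG.TwoVar

/-!
# NG-CTOTAL: the total of `e2` for `C_f = K \ (d_f + S)`

`f ∈ PF`, `i ≠ j` in `A_f`, `{k, l}` the other two indices, `C = CC S F f`, `d_f = F - f`.
(a) `x ∈ C → x + n i, x + n j ∈ d_f + S` (`Sg.CC_kill`).
`twoVar` for `C` (finite: `Sg.CC_finite`): `{x ∈ C : x - n k, x - n l ∉ C} =
{F - g : g ∈ PF, g ≠ f}`: if `x ∈ C` is not of this form, `x = F - g + s`, `g ≠ f`, `s ∈ S`
(`Sg.KK_gen`; `g ≠ f` because `x ∉ d_f + S`), `s ≠ 0`, `s - n b ∈ S`, `x - n b ∈ C` (`CC_sub`),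
and `b` is not `i, j` by (a).  Conversely `F - g ∈ C` for `g ≠ f` (`Sg.dg_mem_KK`, `Sg.pf_sub`)
and `F - g - n b ∉ K` (`Sg.dg_sub_notMem`).  The second set has the same cardinality through
`x ↦ F + (F - f) - x` (`CC_symm`).  So `∑ e2 = 2 (t - 1)`.
-/

open Finset

namespace H70NG

variable {n : Fin 4 → ℤ} {S : Set ℤ} {F : ℤ}

theorem fin4_cases_ct : ∀ i j k l b : Fin 4, i ≠ j → i ≠ k → i ≠ l → j ≠ k → j ≠ l → k ≠ l →
    b = i ∨ b = j ∨ b = k ∨ b = l := by decide

/-- the minimal elements of `C_f` -/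
theorem CC_min_eq (h : Sg n S F) {f : ℤ} (hf : f ∈ PF n S) {i j k l : Fin 4} (hij : i ≠ j)
    (hik : i ≠ k) (hil : i ≠ l) (hjk : j ≠ k) (hjl : j ≠ l) (hkl : k ≠ l)
    (hi : AA n S f i) (hj : AA n S f j) :
    {x | x ∈ CC S F f ∧ x - n k ∉ CC S F f ∧ x - n l ∉ CC S F f}
      = (fun g => F - g) '' (PF n S \ {f}) := by
  ext x
  constructor
  · rintro ⟨hx, hxk, hxl⟩
    obtain ⟨g, hg, hgx⟩ := h.KK_gen hx.1
    have hgf : g ≠ f := by
      rintro rfl
      exact hx.2 hgx
    by_cases hs : x - (F - g) = 0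
    · exact ⟨g, ⟨hg, hgf⟩, by change F - g = x; omega⟩
    · exfalso
      obtain ⟨b, hb⟩ := h.dec _ hgx hs
      have h1 : x - n b ∈ KK S F := by
        have h2 := h.KK_add (h.dg_mem_KK hg) hb
        have e : F - g + (x - (F - g) - n b) = x - n b := by ring
        rwa [e] at h2
      have h2 : x - n b ∈ CC S F f := CC_sub h.add (h.gen b) hx h1
      have h3 : ∀ c, AA n S f c → b ≠ c := by
        rintro c hc rfl
        have h4 := h.CC_kill hc h2
        apply hx.2
        have e : x - n b + n b - (F - f) = x - (F - f) := by ring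
        rwa [e] at h4
      rcases fin4_cases_ct i j k l b hij hik hil hjk hjl hkl with h4 | h4 | h4 | h4
      · exact h3 i hi h4
      · exact h3 j hj h4
      · exact hxk (h4 ▸ h2)
      · exact hxl (h4 ▸ h2)
  · rintro ⟨g, ⟨hg, hgf⟩, rfl⟩
    have hgf' : g ≠ f := hgf
    refine ⟨⟨h.dg_mem_KK hg, ?_⟩, fun hc => h.dg_sub_notMem hg k hc.1,
      fun hc => h.dg_sub_notMem hg l hc.1⟩
    have e : F - g - (F - f) = f - g := by ring
    change F - g - (F - f) ∉ S
    rw [e]
    exact h.pf_sub hg hf hgf'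

/-- The total of `e2` for `C_f`. -/
theorem e2C_total (h : Sg n S F) {f : ℤ} (hf : f ∈ PF n S) {i j k l : Fin 4} (hij : i ≠ j)
    (hik : i ≠ k) (hil : i ≠ l) (hjk : j ≠ k) (hjl : j ≠ l) (hkl : k ≠ l)
    (hi : AA n S f i) (hj : AA n S f j) :
    ∑ᶠ z, e2 (CC S F f) (n k) (n l) z + 2 = 2 * ((PF n S).ncard : ℤ) := by
  have hA := CC_min_eq h hf hij hik hil hjk hjl hkl hi hj
  have hB : {x | x ∈ CC S F f ∧ x + n k ∉ CC S F f ∧ x + n l ∉ CC S F f}
      = (fun x => F + (F - f) - x) '' {x | x ∈ CC S F f ∧ x - n k ∉ CC S F f ∧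
          x - n l ∉ CC S F f} := by
    have key : ∀ x c : ℤ, x + c ∈ CC S F f ↔ F + (F - f) - x - c ∈ CC S F f := by
      intro x c
      rw [CC_symm]
      have e : F + (F - f) - (x + c) = F + (F - f) - x - c := by ring
      rw [e]
    ext x
    constructor
    · rintro ⟨h1, h2, h3⟩
      refine ⟨F + (F - f) - x, ⟨CC_symm.1 h1, ?_, ?_⟩, ?_⟩
      · rw [← key]
        exact h2
      · rw [← key]
        exact h3
      · change F + (F - f) - (F + (F - f) - x) = x
        ring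
    · rintro ⟨y, ⟨h1, h2, h3⟩, rfl⟩
      have e : F + (F - f) - (F + (F - f) - y) = y := by ring
      refine ⟨CC_symm.1 h1, ?_, ?_⟩
      · rw [key, e]
        exact h2
      · rw [key, e]
        exact h3
  have hinj1 : Function.Injective (fun g : ℤ => F - g) := fun a b hab => by
    have : F - a = F - b := hab
    omega
  have hinj2 : Function.Injective (fun x : ℤ => F + (F - f) - x) := fun a b hab => by
    have : F + (F - f) - a = F + (F - f) - b := hab
    omega
  rw [twoVar (h.CC_finite f) (n k) (n l), hB, Set.ncard_image_of_injective _ hinj2, hA,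
    Set.ncard_image_of_injective _ hinj1, Set.ncard_sdiff_singleton_of_mem hf]
  have hpos : 0 < (PF n S).ncard := (Set.ncard_pos h.pf_finite).2 ⟨f, hf⟩
  omega

end H70NG
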