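import Pool.Agent.H70.NG.Basic

/-!
# NG-STEP3

`S` nearly Gorenstein (`hNG`), `i₁ ≠ i₂` in `A_f`, some index not in `A_f`.  Then there are
`g ≠ f` in `PF`, `i ∈ A_g`, `i ∉ A_f`, `m ≠ i` with `n i + g = n m + f`.

Proof.  Take `i ∉ A_f`, `i ∈ A_g`, `u = n i + g - f ∈ S`, `u ≠ 0` (else `f = g + n i ∈ S`).
If `u = n m + u'` with `m ∈ A_f`, `u' ∈ S`, then `n i = u' + (n m + f - g)` with
`n m + f - g ∈ S \ {0}`, so `u' = 0` by `irr`: done.  `u - n i = g - f ∉ S`.  So otherwise every
index `a` with `u - n a ∈ S` is not in `A_f ∪ {i}`; hence (as `A_f` has two elements and `i` is a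
third index) it is the fourth index `i'`, `i' ∉ A_f`, and `u = ρ n i'` with `ρ ≥ 1`.  If `ρ = 1`:
done.  Let `ρ ≥ 2`.  `i' ∈ A_h`, `h ≠ f`.
If `h ≠ g`: `w = n i' + h - g ∈ S`, `n i + h = f + (ρ-1) n i' + w`.  `w - n i ∈ S` gives
`h = f + (ρ-1) n i' + (w - n i) ∈ S`, no.  `w - n i' = h - g ∉ S`.  `w ≠ 0`.  So
`w = n j + w'`, `j ∈ A_f`, `y = n j + f - h ∈ S \ {0}`, and
`n i = ((ρ-1) n i' + w') + y` contradicts `irr`.
So `h = g`: `i' ∈ A_g`, `u' = n i' + g - f`; by the same argument applied to `i'` either we are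
done or `u' = ρ' n i` with `ρ' ≥ 2` (`ρ' = 1` is also done).  Let `D = g - f`:
`n i + D = ρ n i'`, `n i' + D = ρ' n i`, `D > 0`.  For `j ∈ A_f`: `v = n j - D = n j + f - g ∈ S`,
`v ≠ 0`; `v - n i ∈ S` gives `n j = (n i' ) + ((ρ-1) n i' + (v - n i))`, against `irr`; same for
`i'`; `v - n j = -D ∉ S`.  So with `A_f = {j, k}`: `v - n k ∈ S` and `n j > n k`; by symmetry
`n k > n j`.  Contradiction.
-/

open Finset

namespace H70NG

variable {n : Fin 4 → ℤ} {S : Set ℤ} {F : ℤ}

namespace S3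

theorem four {a b c d : Fin 4} (hab : a ≠ b) (hac : a ≠ c) (had : a ≠ d) (hbc : b ≠ c)
    (hbd : b ≠ d) (hcd : c ≠ d) (x : Fin 4) : x = a ∨ x = b ∨ x = c ∨ x = d := by
  have ha := a.isLt
  have hb := b.isLt
  have hc := c.isLt
  have hd := d.isLt
  have hx := x.isLt
  simp only [Fin.ext_iff, ne_eq] at *
  omega

theorem mul_mem (h : Sg n S F) (r : ℕ) (a : Fin 4) : (r : ℤ) * n a ∈ S := by
  induction r with
  | zero => simpa using h.zero
  | succ r ih =>
    have := h.add_gen ih a
    have e : ((r + 1 : ℕ) : ℤ) * n a = (r : ℤ) * n a + n a := by push_cast; ring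
    rwa [e]

theorem mul_nn (h : Sg n S F) (r : ℕ) (a : Fin 4) : 0 ≤ (r : ℤ) * n a := h.nonneg _ (mul_mem h r a)

/-- if `c` is the only index that can be subtracted from `u` then `u` is a multiple -/
theorem multiple (h : Sg n S F) {u : ℤ} {c : Fin 4} (hu : u ∈ S)
    (hc : ∀ a, u - n a ∈ S → a = c) : ∃ r : ℕ, u = r * n c := by
  have key : ∀ k : ℕ, ∀ v : ℤ, v ∈ S → u - v ∈ S → v.toNat ≤ k → ∃ r : ℕ, v = r * n c := by
    intro k
    induction k with
    | zero =>
      intro v hv _ hk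
      have := h.nonneg v hv
      exact ⟨0, by push_cast; omega⟩
    | succ k ih =>
      intro v hv huv hk
      by_cases h0 : v = 0
      · exact ⟨0, by rw [h0]; simp⟩
      · obtain ⟨b, hb⟩ := h.dec v hv h0
        have hb' : b = c := by
          refine hc b ?_
          have := h.add _ huv _ hb
          have e : u - v + (v - n b) = u - n b := by ring
          rwa [e] at this
        subst hb'
        have hp := h.pos b
        have hv0 := h.nonneg v hv
        obtain ⟨r, hr⟩ := ih (v - n b) hb (by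
          have := h.add_gen huv b
          have e : u - v + n b = u - (v - n b) := by ring
          rwa [e] at this) (by omega)
        refine ⟨r + 1, ?_⟩
        push_cast
        linarith
  exact key _ u hu (by rw [sub_self]; exact h.zero) le_rfl

theorem L1 (h : Sg n S F) {f g : ℤ} (hf : f ∈ PF n S) (hg : g ∈ PF n S) {i₁ i₂ i : Fin 4}
    (h12 : i₁ ≠ i₂) (h1 : AA n S f i₁) (h2 : AA n S f i₂) (hi : ¬ AA n S f i)
    (hgi : AA n S g i) :
    (∃ m, i ≠ m ∧ n i + g = n m + f) ∨
      (∃ i' : Fin 4, i' ≠ i ∧ i' ≠ i₁ ∧ i' ≠ i₂ ∧ ¬ AA n S f i' ∧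
        ∃ r : ℕ, n i + g - f = ((r + 2 : ℕ) : ℤ) * n i') := by
  by_cases hdone : ∃ m, i ≠ m ∧ n i + g = n m + f
  · exact Or.inl hdone
  · right
    have hfg : f ≠ g := by
      rintro rfl
      exact hi hgi
    have hi1 : i ≠ i₁ := by
      rintro rfl
      exact hi h1
    have hi2 : i ≠ i₂ := by
      rintro rfl
      exact hi h2
    have hu : n i + g - f ∈ S := hgi f hf
    have hu0 : n i + g - f ≠ 0 := by
      intro h0
      have : f = g + n i := by omega
      exact hf.1 (this ▸ hg.2 i)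
    have hnoti : ∀ a, n i + g - f - n a ∈ S → a ≠ i := by
      rintro a ha rfl
      have e : n a + g - f - n a = g - f := by ring
      rw [e] at ha
      exact h.pf_sub hf hg hfg ha
    have hnotA : ∀ a, n i + g - f - n a ∈ S → ¬ AA n S f a := by
      intro a ha hA
      have hy := hA g hg
      have hy0 : n a + f - g ≠ 0 := by
        intro h0
        have : g = f + n a := by omega
        exact hg.1 (this ▸ hf.2 a)
      rcases h.irr i _ ha _ hy (by ring) with h0 | h0
      · exact hdone ⟨a, (hnoti a ha).symm, by omega⟩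
      · exact hy0 h0
    obtain ⟨i', hi'⟩ := h.dec _ hu hu0
    have hi'i := hnoti i' hi'
    have hi'A := hnotA i' hi'
    have hi'1 : i' ≠ i₁ := by
      rintro rfl
      exact hi'A h1
    have hi'2 : i' ≠ i₂ := by
      rintro rfl
      exact hi'A h2
    refine ⟨i', hi'i, hi'1, hi'2, hi'A, ?_⟩
    obtain ⟨r, hr⟩ := multiple h hu (c := i') (fun a ha => by
      have ha1 := hnoti a ha
      have ha2 := hnotA a ha
      rcases four h12 hi1.symm hi'1.symm hi2.symm hi'2.symm hi'i.symm a with h3 | h3 | h3 | h3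
      · exact absurd h1 (h3 ▸ ha2)
      · exact absurd h2 (h3 ▸ ha2)
      · exact absurd h3 ha1
      · exact h3)
    have hr0 : r ≠ 0 := by
      rintro rfl
      apply hu0
      rw [hr]
      simp
    have hr1 : r ≠ 1 := by
      rintro rfl
      refine hdone ⟨i', hi'i.symm, ?_⟩
      push_cast at hr
      linarith
    obtain ⟨r', rfl⟩ : ∃ r', r = r' + 2 := ⟨r - 2, by omega⟩
    exact ⟨r', hr⟩

/-- the last step: two indices of `A_f` cannot both be larger than the other -/
theorem L2 (h : Sg n S F) {f g : ℤ} (hf : f ∈ PF n S) (hg : g ∈ PF n S) {i i' j k : Fin 4}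
    (hii' : i ≠ i') (hij : i ≠ j) (hik : i ≠ k) (hi'j : i' ≠ j) (hi'k : i' ≠ k) (hjk : j ≠ k)
    (hj : AA n S f j) {r r' : ℕ} (hr : n i + g - f = ((r + 2 : ℕ) : ℤ) * n i')
    (hr' : n i' + g - f = ((r' + 2 : ℕ) : ℤ) * n i) (hD : 0 < g - f) : n k < n j := by
  have hv : n j + f - g ∈ S := hj g hg
  have hv0 : n j + f - g ≠ 0 := by
    intro h0
    have : g = f + n j := by omega
    exact hg.1 (this ▸ hf.2 j)
  obtain ⟨b, hb⟩ := h.dec _ hv hv0
  rcases four hii' hij hik hi'j hi'k hjk b with rfl | rfl | rfl | rfl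
  · exfalso
    have h1 := h.add _ (mul_mem h (r + 1) i') _ hb
    have hp := h.pos i'
    have h3 := mul_nn h r i'
    have h4 := h.nonneg _ hb
    rcases h.irr j (n i') (h.gen i') _ h1 (by push_cast at hr ⊢; linarith) with h0 | h0
    · omega
    · push_cast at h0
      nlinarith
  · exfalso
    have h1 := h.add _ (mul_mem h (r' + 1) i) _ hb
    have hp := h.pos i
    have h3 := mul_nn h r' i
    have h4 := h.nonneg _ hb
    rcases h.irr j (n i) (h.gen i) _ h1 (by push_cast at hr' ⊢; linarith) with h0 | h0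
    · omega
    · push_cast at h0
      nlinarith
  · exfalso
    have h4 := h.nonneg _ hb
    omega
  · have h4 := h.nonneg _ hb
    omega

end S3

open S3

theorem step3 (h : Sg n S F) (hNG : ∀ a, ∃ f ∈ PF n S, AA n S f a) {f : ℤ} (hf : f ∈ PF n S)
    {i₁ i₂ : Fin 4} (h12 : i₁ ≠ i₂) (h1 : AA n S f i₁) (h2 : AA n S f i₂)
    (hns : ∃ a, ¬ AA n S f a) :
    ∃ g ∈ PF n S, g ≠ f ∧ ∃ i m : Fin 4, i ≠ m ∧ AA n S g i ∧ ¬ AA n S f i ∧
      n i + g = n m + f := by
  obtain ⟨i, hi⟩ := hns
  obtain ⟨g, hg, hgi⟩ := hNG i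
  have hgf : g ≠ f := by
    rintro rfl
    exact hi hgi
  have hi1 : i ≠ i₁ := by
    rintro rfl
    exact hi h1
  have hi2 : i ≠ i₂ := by
    rintro rfl
    exact hi h2
  rcases L1 h hf hg h12 h1 h2 hi hgi with ⟨m, him, hm⟩ | ⟨i', hi'i, hi'1, hi'2, hi'A, r, hr⟩
  · exact ⟨g, hg, hgf, i, m, him, hgi, hi, hm⟩
  obtain ⟨g', hg', hgi'⟩ := hNG i'
  have hgf' : g' ≠ f := by
    rintro rfl
    exact hi'A hgi'
  have hp' := h.pos i'
  by_cases hgg : g' = g
  · subst hgg
    rcases L1 h hf hg h12 h1 h2 hi'A hgi' with ⟨m, him, hm⟩ | ⟨i'', h3, h4, h5, -, r', hr'⟩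
    · exact ⟨g', hg, hgf, i', m, him, hgi', hi'A, hm⟩
    · exfalso
      have hi'' : i'' = i := by
        rcases four h12 hi1.symm hi'1.symm hi2.symm hi'2.symm hi'i.symm i'' with h6 | h6 | h6 | h6
        · exact absurd h6 h4
        · exact absurd h6 h5
        · exact h6
        · exact absurd h6 h3
      subst hi''
      have hp := h.pos i''
      have h6 := mul_nn h r i'
      have h7 := mul_nn h r' i''
      have hD : 0 < g' - f := by
        push_cast at hr hr'
        nlinarith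
      have h8 := L2 h hf hg h3 h4 h5 hi'1 hi'2 h12 h1 hr hr' hD
      have h9 := L2 h hf hg h3 h5 h4 hi'2 hi'1 h12.symm h2 hr hr' hD
      omega
  · exfalso
    have hw : n i' + g' - g ∈ S := hgi' g hg
    have hw0 : n i' + g' - g ≠ 0 := by
      intro h0
      have : g = g' + n i' := by omega
      exact hg.1 (this ▸ hg'.2 i')
    obtain ⟨j, hj⟩ := h.dec _ hw hw0
    have hji' : j ≠ i' := by
      rintro rfl
      have e : n j + g' - g - n j = g' - g := by ring
      rw [e] at hj
      exact h.pf_sub hg hg' (fun h' => hgg h'.symm) hj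
    have hji : j ≠ i := by
      rintro rfl
      have h3 := h.add _ (h.add _ (hf.2 i') _ (mul_mem h r i')) _ hj
      have e : f + n i' + (r : ℤ) * n i' + (n i' + g' - g - n j) = g' := by
        push_cast at hr
        linarith
      rw [e] at h3
      exact hg'.1 h3
    have hjA : AA n S f j := by
      rcases four h12 hi1.symm hi'1.symm hi2.symm hi'2.symm hi'i.symm j with h6 | h6 | h6 | h6
      · exact h6 ▸ h1
      · exact h6 ▸ h2
      · exact absurd h6 hji
      · exact absurd h6 hji'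
    have hy := hjA g' hg'
    have hy0 : n j + f - g' ≠ 0 := by
      intro h0
      have : g' = f + n j := by omega
      exact hg'.1 (this ▸ hf.2 j)
    have h3 := h.add _ (mul_mem h (r + 1) i') _ hj
    have h4 := mul_nn h r i'
    have h5 := h.nonneg _ hj
    rcases h.irr i _ h3 _ hy (by push_cast at hr ⊢; linarith) with h0 | h0
    · push_cast at h0
      nlinarith
    · exact hy0 h0

end H70NG
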