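import Pool.Agent.H70.NG.Step5

/-!
# NG-STEP6: three pseudo-Frobenius numbers: `rho_f = 0`

Setting of Steps 4, 5 and a third `h' ∈ PF`, `i ∈ A_g`.  `v = σ - h' = n i + g - h' ∈ S`.
* `v ≠ 0` (else `h' = σ = g + n i ∈ S`), `v ∉ E` (`σ - v = h' ∉ S`).
* if `v - n a ∈ S` then `v - n a ∈ E` (`σ - v + n a = h' + n a ∈ S`); then `a ∈ {p, q}`:
  `v ≠ n i, n m` (`h' ≠ g, f`), so `v - n a ≠ 0` for `a ∈ {i, m}`, so it has a divisor `n b`,
  `b ∈ {p, q}` (`Sg.EE_pred`), `v - n b ∈ S`, so `v - n b ∈ E` and `n a` divides it, against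
  `Sg.EE_notdiv`.
* so `e2 v ≥ 1` and `e2 v = 2` iff `v - n p, v - n q ∈ S` and `v - n p - n q ∉ S`.
Let `ι x = σ + n p + n q - x`; `e2 (ι x) = e2 x` (`e2_symm`, `EE_symm`), `e2 ≥ 0`, `∑ e2 = 2`.
Suppose `rho(z) ≥ 1`, `s = z - (F - f)`; `e2 s ≥ 1` by Step 5.
Claim `s = ι v = h' + n p + n q`: if `v ≠ ι v` the total gives `e2 v = e2 (ι v) = 1` and
`s ∈ {v, ι v}`; if `s = v`: two components of the `K`-graph contain elements `a` with
`s - n a = v - n a ∈ S`, these are `p` and `q`, in different components, so
`s - n p - n q ∉ S` (it would give an edge) and `e2 v = 2`, contradiction.  If `v = ι v` and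
`s ≠ v` then `ι s ≠ v`, so (total 2, `e2 s = e2 (ι s)`) `ι s = s`, `s = v` after all.
Now `s - n p = h' + n q`, `s - n q = h' + n p` are in `S` and
`F - (z - n p - n q) = n p + n q + f - s = f - h' ∉ S`, so `p q` is an edge of the `K`-graph.
Two components `P ≠ Q` meet `L`.  By (*) and (**) of Step 5 the one(s) not containing `m` meet `L`
only in `{p, q}`; since `p, q` are in one component there is exactly one such, it contains `p, q`,
and the component of `m` meets `L`, in `i` or `m`.  `m` is a vertex:
`F - (z - n m) = n m + f - s = v - n p - n q ∉ S`, and not adjacent to `p`, `q`: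
`v - n q = F - (z - n m - n p) ∈ S`, `v - n p ∈ S`.  So `e2 v = 2`, hence (total 2) `s = v`; but
then `v - n a ∈ S` for an `a ∈ {i, m}`: contradiction.
-/

open Finset

namespace H70NG

variable {n : Fin 4 → ℤ} {S : Set ℤ} {F : ℤ}

theorem Sg.sum_e2_le (h : Sg n S F) {f g σ : ℤ} (hf : f ∈ PF n S) (hg : g ∈ PF n S)
    {i m p q : Fin 4} (him : i ≠ m) (hip : i ≠ p) (hiq : i ≠ q) (hmp : m ≠ p) (hmq : m ≠ q)
    (hpq : p ≠ q) (hi : n i + g = σ) (hm : n m + f = σ) (T : Finset ℤ) :
    ∑ z ∈ T, e2 (EE S σ) (n p) (n q) z ≤ 2 := by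
  classical
  have htot := h.e2E_total hf hg him hip hiq hmp hmq hpq hi hm
  have hsupp := e2_supp (h.EE_finite σ) (n p) (n q)
  rw [← htot, finsum_eq_sum_of_support_subset (s := T ∪ hsupp.toFinset) _ (by
    intro x hx
    rw [Finset.coe_union, Set.Finite.coe_toFinset]
    exact Or.inr hx)]
  exact Finset.sum_le_sum_of_subset_of_nonneg Finset.subset_union_left
    (fun x _ _ => h.e2E_nonneg σ p q x)

theorem step6 (h : Sg n S F) {f g h' σ : ℤ} (hf : f ∈ PF n S) (hg : g ∈ PF n S)
    (hh : h' ∈ PF n S) (hfg : f ≠ g) (hfh : f ≠ h') (hgh : g ≠ h')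
    {i m p q : Fin 4} (him : i ≠ m) (hip : i ≠ p) (hiq : i ≠ q) (hmp : m ≠ p) (hmq : m ≠ q)
    (hpq : p ≠ q) (hi : n i + g = σ) (hm : n m + f = σ) (hig : AA n S g i) (z : ℤ) :
    rho n S F f z = 0 := by
  classical
  by_contra hr
  have hv := hig h' hh
  obtain ⟨v, hvdef⟩ : ∃ v, v = σ - h' := ⟨_, rfl⟩
  have hvS : v ∈ S := by
    have e : v = n i + g - h' := by omega
    rwa [e]
  have hv0 : v ≠ 0 := by
    intro h0
    apply hh.1
    have := hg.2 i
    have e : h' = g + n i := by omega
    rwa [e]
  have hvE : v ∉ EE S σ := by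
    rintro ⟨_, h2⟩
    apply hh.1
    have e : σ - v = h' := by omega
    rwa [e] at h2
  have hvaE : ∀ a, v - n a ∈ S → v - n a ∈ EE S σ := fun a ha => ⟨ha, by
    have := hh.2 a
    have e : σ - (v - n a) = h' + n a := by omega
    rwa [e]⟩
  have hvim : ∀ a, (a = i ∨ a = m) → v - n a ∉ S := by
    intro a ha hs
    have h0 : v - n a ≠ 0 := by
      intro h0
      rcases ha with rfl | rfl
      · exact hgh (by omega)
      · exact hfh (by omega)
    have key : ∀ b, v - n a - n b ∈ EE S σ → False := by
      intro b hb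
      have h1 : v - n b ∈ S := by
        have := h.add_gen hb.1 a
        have e : v - n a - n b + n a = v - n b := by ring
        rwa [e] at this
      have h2 := hvaE b h1
      have e : v - n b - n a = v - n a - n b := by ring
      rcases ha with rfl | rfl
      · exact h.EE_notdiv (g := f) hg hi h2 (by rw [e]; exact hb.1)
      · exact h.EE_notdiv (g := g) hf hm h2 (by rw [e]; exact hb.1)
    rcases h.EE_pred hf hg him hip hiq hmp hmq hpq hi hm (hvaE a hs) h0 with h1 | h1
    · exact key _ h1
    · exact key _ h1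
  have hvpq : v - n p ∈ S ∨ v - n q ∈ S := by
    obtain ⟨a, ha⟩ := h.dec v hvS hv0
    rcases fin4_cases him hip hiq hmp hmq hpq a with hb | hb | hb | hb
    · exact (hvim a (Or.inl hb) ha).elim
    · exact (hvim a (Or.inr hb) ha).elim
    · subst hb; exact Or.inl ha
    · subst hb; exact Or.inr ha
  have hvp' : v - n p - n q ∈ S → v - n p ∈ S := by
    intro hc
    have := h.add_gen hc q
    have e : v - n p - n q + n q = v - n p := by ring
    rwa [e] at this
  have hvq' : v - n p - n q ∈ S → v - n q ∈ S := by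
    intro hc
    have := h.add_gen hc p
    have e : v - n p - n q + n p = v - n q := by ring
    rwa [e] at this
  have hev1 : (1 : ℤ) ≤ e2 (EE S σ) (n p) (n q) v := by
    unfold e2
    rw [if_neg (c := v ∈ EE S σ ∧ _) (fun hc => hvE hc.1)]
    by_cases hp : v - n p ∈ EE S σ
    · by_cases hq : v - n q ∈ EE S σ
      · rw [if_pos hp, if_pos hq]
        split_ifs <;> norm_num
      · rw [if_pos hp, if_neg hq, if_neg (c := v - n p - n q ∈ EE S σ ∧ _)
          (fun hc => hq (hvaE _ (hvq' hc.1.1)))]
        norm_num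
    · by_cases hq : v - n q ∈ EE S σ
      · rw [if_neg hp, if_pos hq, if_neg (c := v - n p - n q ∈ EE S σ ∧ _)
          (fun hc => hp (hvaE _ (hvp' hc.1.1)))]
        norm_num
      · rcases hvpq with h1 | h1
        · exact (hp (hvaE _ h1)).elim
        · exact (hq (hvaE _ h1)).elim
  have hev2 : v - n p ∈ S → v - n q ∈ S → v - n p - n q ∉ S →
      e2 (EE S σ) (n p) (n q) v = 2 := by
    intro h1 h2 h3
    unfold e2
    rw [if_neg (c := v ∈ EE S σ ∧ _) (fun hc => hvE hc.1), if_pos (hvaE _ h1),
      if_pos (hvaE _ h2), if_neg (c := v - n p - n q ∈ EE S σ ∧ _) (fun hc => h3 hc.1.1)]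
    norm_num
  have hsum := h.sum_e2_le hf hg him hip hiq hmp hmq hpq hi hm
  have hsymm := fun x => e2_symm (C := EE S σ) (τ := σ) (fun x => EE_symm) (n p) (n q) x
  obtain ⟨s, hsdef⟩ : ∃ s, s = z - (F - f) := ⟨_, rfl⟩
  have hes : (1 : ℤ) ≤ e2 (EE S σ) (n p) (n q) s := by
    have := rho_le_e2 h hf hg him hip hiq hmp hmq hpq hi hm z
    rw [← hsdef] at this
    omega
  have sum2 : ∀ x y, x ≠ y → e2 (EE S σ) (n p) (n q) x + e2 (EE S σ) (n p) (n q) y ≤ 2 := by
    intro x y hxy
    have := hsum {x, y}
    rwa [Finset.sum_pair hxy] at this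
  have sum3 : ∀ x y w, x ≠ y → x ≠ w → y ≠ w →
      e2 (EE S σ) (n p) (n q) x + e2 (EE S σ) (n p) (n q) y
        + e2 (EE S σ) (n p) (n q) w ≤ 2 := by
    intro x y w hxy hxw hyw
    have := hsum {x, y, w}
    rw [Finset.sum_insert (by simp [hxy, hxw]), Finset.sum_pair hyw] at this
    omega
  -- the claim
  have hs : s = σ + n p + n q - v := by
    by_contra hsw
    have hw := hsymm v
    by_cases hvw : v = σ + n p + n q - v
    · have ht := hsymm s
      have := sum3 v s (σ + n p + n q - s) (by omega) (by omega) (by omega)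
      omega
    · by_cases hsv : s = v
      · have h2 := sum2 _ _ hvw
        have : e2 (EE S σ) (n p) (n q) v = 2 := by
          obtain ⟨a, b, ha, hb, hab⟩ := exists_of_ghit hr
          simp only [← hsdef, hsv] at ha hb
          have hne : a ≠ b := by rintro rfl; exact hab Relation.ReflTransGen.refl
          have haa : a = p ∨ a = q := by
            rcases fin4_cases him hip hiq hmp hmq hpq a with hc | hc | hc | hc
            · exact (hvim a (Or.inl hc) ha).elim
            · exact (hvim a (Or.inr hc) ha).elim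
            · exact Or.inl hc
            · exact Or.inr hc
          have hbb : b = p ∨ b = q := by
            rcases fin4_cases him hip hiq hmp hmq hpq b with hc | hc | hc | hc
            · exact (hvim b (Or.inl hc) hb).elim
            · exact (hvim b (Or.inr hc) hb).elim
            · exact Or.inl hc
            · exact Or.inr hc
          have hnoedge : v - n p - n q ∉ S := by
            intro hc
            rw [← hsv, hsdef] at hc
            have hcon := h.L_edge hf hpq hc
            rcases haa with rfl | rfl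
            · rcases hbb with rfl | rfl
              · exact hne rfl
              · exact hab hcon
            · rcases hbb with rfl | rfl
              · exact hab hcon.symm'
              · exact hne rfl
          rcases haa with rfl | rfl
          · rcases hbb with rfl | rfl
            · exact (hne rfl).elim
            · exact hev2 ha hb hnoedge
          · rcases hbb with rfl | rfl
            · exact hev2 hb ha hnoedge
            · exact (hne rfl).elim
        omega
      · have := sum3 s v _ hsv hsw hvw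
        omega
  -- `p q` is an edge
  have hpqc : GConn (cx n (KK S F) z) p q := by
    refine Relation.ReflTransGen.single ⟨hpq, ?_⟩
    rw [cx_pair hpq, mem_KK]
    have e : F - (z - n p - n q) = f - h' := by omega
    rw [e]
    exact h.pf_sub hh hf (Ne.symm hfh)
  obtain ⟨b, hLb, hpb⟩ := exists_not_conn hr p
  have hb : b = i ∨ b = m := by
    rcases fin4_cases him hip hiq hmp hmq hpq b with hc | hc | hc | hc
    · exact Or.inl hc
    · exact Or.inr hc
    · subst hc; exact (hpb Relation.ReflTransGen.refl).elim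
    · subst hc; exact (hpb hpqc).elim
  have hbm : GConn (cx n (KK S F) z) b m := by
    obtain ⟨c, hLc, hbc⟩ := exists_not_conn hr b
    exact h.L_im hf hg him hip hiq hmp hmq hpq hi hm hb hLb hLc hbc
  have hpm : ¬ GConn (cx n (KK S F) z) p m := fun hc => hpb (hc.trans' hbm.symm')
  have hqm : ¬ GConn (cx n (KK S F) z) q m := fun hc => hpm (hpqc.trans' hc)
  have hKdown : ∀ I J, I ⊆ J → cx n (KK S F) z J → cx n (KK S F) z I :=
    fun I J hIJ hJ => cx_down (fun x hx a => h.KK_add_gen hx a) hIJ hJ
  have hbv : cx n (KK S F) z {b} := by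
    rw [cx_single]
    have := h.KK_add (h.dg_mem_KK hf) hLb
    have e : F - f + (z - (F - f) - n b) = z - n b := by ring
    rwa [e] at this
  have hmv := hbm.vertex hKdown hbv
  rw [cx_single, mem_KK] at hmv
  have h3 : v - n p - n q ∉ S := by
    have e : F - (z - n m) = v - n p - n q := by omega
    rwa [e] at hmv
  have h1 : v - n p ∈ S := by
    by_contra hc
    apply hqm
    refine Relation.ReflTransGen.single ⟨hmq.symm, ?_⟩
    rw [cx_pair hmq.symm, mem_KK]
    have e : F - (z - n q - n m) = v - n p := by omega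
    rwa [e]
  have h2 : v - n q ∈ S := by
    by_contra hc
    apply hpm
    refine Relation.ReflTransGen.single ⟨hmp.symm, ?_⟩
    rw [cx_pair hmp.symm, mem_KK]
    have e : F - (z - n p - n m) = v - n q := by omega
    rwa [e]
  have hev := hev2 h1 h2 h3
  have hsv : s = v := by
    by_contra hne
    have := sum2 _ _ hne
    omega
  rw [← hsdef, hsv] at hLb
  exact hvim b hb hLb

end H70NG
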