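import Pool.Agent.H70.NG.Fin

/-!
# NG-STEP7A: at least four generators, first case

`n i + g = n m + f`, `{p, q}` the other two indices, `n p + f - g ∈ S`, `n q + f - g ∈ S`.
Everything in the graphs of `S`.

* `s₁ = n i + n p`: vertices `i`, `p`; `i p` is an edge; `i` and `p` have no other neighbours
  (`n p - n b ∉ S`, `n i - n b ∉ S`).  `m` is a vertex: `n i + n p - n m = n p + f - g ∈ S`.
  So `b(s₁) ≥ 1`.  Same for `s₂ = n i + n q`.
* for `a : Fin 4` let `c_a` be the least `c ≥ 1` such that some `b ≠ a` is a vertex in degree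
  `c * n a` (exists: large numbers are in `S`); `a` is an isolated vertex there (an edge `a b`
  would make `b` a vertex in degree `(c - 1) * n a`; for `c = 1`, `-n b ∉ S`), so
  `b(c_a n_a) ≥ 1`.
* `s₃ = c_i n_i ≠ s₁, s₂` because there `i` is not isolated; `s₁ ≠ s₂`.
* If the total were `≤ 3` then `b = 1` at `s₁, s₂, s₃` and `b = 0` elsewhere.  `c_p n_p` is not
  `s₁`; at `s₂` the component `{i, q}`, the isolated `p` and the component of `m` are three
  different components, `b ≥ 2`; so `c_p n_p = s₃`.  Same: `c_q n_q = s₃`.  But then `i, p, q` are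
  isolated vertices in degree `s₃` and `b(s₃) ≥ 2`.
-/

open Finset

namespace H70NG

variable {n : Fin 4 → ℤ} {S : Set ℤ} {F : ℤ}

namespace S7

theorem sum_le_finsum {f : ℤ → ℕ} (hf : (Function.support f).Finite) (T : Finset ℤ) :
    ∑ z ∈ T, f z ≤ ∑ᶠ z, f z := by
  classical
  have h : Function.support f ⊆ ((T ∪ hf.toFinset : Finset ℤ) : Set ℤ) := by
    intro z hz
    rw [Finset.mem_coe, Finset.mem_union]
    exact Or.inr (hf.mem_toFinset.2 hz)
  rw [finsum_eq_sum_of_support_subset f h]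
  exact Finset.sum_le_sum_of_subset Finset.subset_union_left

theorem one_le_gb {D : Finset (Fin 4) → Prop} {a b : Fin 4} (ha : D {a}) (hb : D {b})
    (hab : ¬ GConn D a b) : 1 ≤ gb D := by
  classical
  have hsub : ({gcomp D a, gcomp D b} : Finset (Finset (Fin 4))) ⊆ gcomps D := by
    intro c hc
    simp only [Finset.mem_insert, Finset.mem_singleton] at hc
    rcases hc with rfl | rfl
    · exact mem_gcomps.2 ⟨a, ha, rfl⟩
    · exact mem_gcomps.2 ⟨b, hb, rfl⟩
  have hcard := Finset.card_le_card hsub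
  rw [Finset.card_pair (fun h => hab (gcomp_eq_iff.1 h))] at hcard
  unfold gb
  omega

theorem two_le_gb {D : Finset (Fin 4) → Prop} {a b c : Fin 4} (ha : D {a}) (hb : D {b})
    (hc : D {c}) (hab : ¬ GConn D a b) (hac : ¬ GConn D a c) (hbc : ¬ GConn D b c) :
    2 ≤ gb D := by
  classical
  have hsub : ({gcomp D a, gcomp D b, gcomp D c} : Finset (Finset (Fin 4))) ⊆ gcomps D := by
    intro x hx
    simp only [Finset.mem_insert, Finset.mem_singleton] at hx
    rcases hx with rfl | rfl | rfl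
    · exact mem_gcomps.2 ⟨a, ha, rfl⟩
    · exact mem_gcomps.2 ⟨b, hb, rfl⟩
    · exact mem_gcomps.2 ⟨c, hc, rfl⟩
  have hcard := Finset.card_le_card hsub
  have h3 : ({gcomp D a, gcomp D b, gcomp D c} : Finset (Finset (Fin 4))).card = 3 := by
    rw [Finset.card_eq_three]
    exact ⟨_, _, _, fun h => hab (gcomp_eq_iff.1 h), fun h => hac (gcomp_eq_iff.1 h),
      fun h => hbc (gcomp_eq_iff.1 h), rfl⟩
  rw [h3] at hcard
  unfold gb
  omega

/-- a closed set of vertices contains the component -/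
theorem conn_closed {D : Finset (Fin 4) → Prop} {C : Fin 4 → Prop}
    (hC : ∀ a b, C a → GAdj D a b → C b) {a b : Fin 4} (ha : C a) (h : GConn D a b) : C b := by
  unfold GConn at h
  induction h with
  | refl => exact ha
  | tail _ hbc ih => exact hC _ _ ih hbc

/-- `a` is isolated -/
def Iso (D : Finset (Fin 4) → Prop) (a : Fin 4) : Prop := ∀ b, ¬ GAdj D a b

theorem Iso.conn {D : Finset (Fin 4) → Prop} {a b : Fin 4} (h : Iso D a) (hab : GConn D a b) :
    b = a :=
  conn_closed (C := fun x => x = a) (fun x y hx hxy => by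
    subst hx
    exact absurd hxy (h y)) rfl hab

theorem adj_iff {X : Set ℤ} {z : ℤ} {a b : Fin 4} :
    GAdj (cx n X z) a b ↔ a ≠ b ∧ z - n a - n b ∈ X := by
  unfold GAdj
  constructor
  · rintro ⟨h1, h2⟩
    exact ⟨h1, (cx_pair h1).1 h2⟩
  · rintro ⟨h1, h2⟩
    exact ⟨h1, (cx_pair h1).2 h2⟩

theorem mul_mem (h : Sg n S F) (r : ℕ) (a : Fin 4) : (r : ℤ) * n a ∈ S := by
  induction r with
  | zero => simpa using h.zero
  | succ r ih =>
    have := h.add_gen ih a
    have e : ((r + 1 : ℕ) : ℤ) * n a = (r : ℤ) * n a + n a := by push_cast; ring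
    rwa [e]

/-- the first multiple of `n a` in which another generator occurs -/
theorem exists_mult (h : Sg n S F) (a : Fin 4) :
    ∃ t : ℤ, (cx n S t {a}) ∧ Iso (cx n S t) a ∧ ∃ b, b ≠ a ∧ cx n S t {b} := by
  classical
  have hex : ∃ c : ℕ, 1 ≤ c ∧ ∃ b, b ≠ a ∧ (c : ℤ) * n a - n b ∈ S := by
    obtain ⟨b, hb⟩ : ∃ b : Fin 4, b ≠ a := exists_ne a
    have hpa := h.pos a
    have hpb := h.pos b
    refine ⟨(F + n b).toNat + 1, by omega, b, hb, h.Fbig _ ?_⟩
    have h1 : F + n b ≤ ((F + n b).toNat : ℤ) := Int.self_le_toNat _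
    push_cast
    nlinarith
  let c := Nat.find hex
  have hc : 1 ≤ c ∧ ∃ b, b ≠ a ∧ (c : ℤ) * n a - n b ∈ S := Nat.find_spec hex
  have hmin : ∀ c' : ℕ, c' < c → ¬ (1 ≤ c' ∧ ∃ b, b ≠ a ∧ (c' : ℤ) * n a - n b ∈ S) :=
    fun c' hc' => Nat.find_min hex hc'
  obtain ⟨c', hc'⟩ : ∃ c', c = c' + 1 := ⟨c - 1, by omega⟩
  rw [hc'] at hc hmin
  refine ⟨((c' + 1 : ℕ) : ℤ) * n a, ?_, ?_, ?_⟩
  · rw [cx_single]
    have := mul_mem h c' a
    have e : ((c' + 1 : ℕ) : ℤ) * n a - n a = (c' : ℤ) * n a := by push_cast; ring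
    rwa [e]
  · intro b hb
    rw [adj_iff] at hb
    obtain ⟨hab, hb⟩ := hb
    have e : ((c' + 1 : ℕ) : ℤ) * n a - n a - n b = (c' : ℤ) * n a - n b := by push_cast; ring
    rw [e] at hb
    rcases Nat.eq_zero_or_pos c' with h0 | h0
    · subst h0
      have hpb := h.pos b
      refine h.neg_notMem (x := ((0 : ℕ) : ℤ) * n a - n b) ?_ hb
      push_cast
      omega
    · exact hmin c' (by omega) ⟨h0, b, hab.symm, hb⟩
  · obtain ⟨b, hb, hbS⟩ := hc.2
    exact ⟨b, hb, cx_single.2 hbS⟩

/-- the degree `n i + n p` -/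
theorem comp_pair (h : Sg n S F) {i p x : Fin 4} (hip : i ≠ p)
    (hx : GConn (cx n S (n i + n p)) i x) : x = i ∨ x = p := by
  refine conn_closed (C := fun x => x = i ∨ x = p) ?_ (Or.inl rfl) hx
  rintro a b (rfl | rfl) hab
  · rw [adj_iff] at hab
    right
    by_contra hbp
    refine h.sub_notMem (a := p) (b := b) (fun h' => hbp h'.symm) ?_
    have e : n a + n p - n a - n b = n p - n b := by ring
    rw [e] at hab
    exact hab.2
  · rw [adj_iff] at hab
    left
    by_contra hbi
    refine h.sub_notMem (a := i) (b := b) (fun h' => hbi h'.symm) ?_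
    have e : n i + n a - n a - n b = n i - n b := by ring
    rw [e] at hab
    exact hab.2

theorem adj_pair (h : Sg n S F) {i p : Fin 4} (hip : i ≠ p) :
    GAdj (cx n S (n i + n p)) i p := by
  rw [adj_iff]
  refine ⟨hip, ?_⟩
  have e : n i + n p - n i - n p = 0 := by ring
  rw [e]
  exact h.zero

theorem adj_pair' (h : Sg n S F) {i p : Fin 4} (hip : i ≠ p) :
    GAdj (cx n S (n i + n p)) p i := by
  rw [adj_iff]
  refine ⟨hip.symm, ?_⟩
  have e : n i + n p - n p - n i = 0 := by ring
  rw [e]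
  exact h.zero

end S7

open S7

theorem step7a (h : Sg n S F) {f g : ℤ} {i m p q : Fin 4} (him : i ≠ m) (hip : i ≠ p)
    (hiq : i ≠ q) (hmp : m ≠ p) (hmq : m ≠ q) (hpq : p ≠ q) (hfg : n i + g = n m + f)
    (hp : n p + f - g ∈ S) (hq : n q + f - g ∈ S) :
    4 ≤ ∑ᶠ z, bX n S z := by
  have hfin := h.supp_bS
  -- the two degrees `n i + n p`, `n i + n q`
  have hv1i : cx n S (n i + n p) {i} := by
    rw [cx_single]
    have e : n i + n p - n i = n p := by ring
    rw [e]
    exact h.gen p
  have hv1m : cx n S (n i + n p) {m} := by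
    rw [cx_single]
    have e : n i + n p - n m = n p + f - g := by linarith
    rwa [e]
  have hv2i : cx n S (n i + n q) {i} := by
    rw [cx_single]
    have e : n i + n q - n i = n q := by ring
    rw [e]
    exact h.gen q
  have hv2m : cx n S (n i + n q) {m} := by
    rw [cx_single]
    have e : n i + n q - n m = n q + f - g := by linarith
    rwa [e]
  have hn1 : ¬ GConn (cx n S (n i + n p)) i m := by
    intro hc
    rcases comp_pair h hip hc with h1 | h1
    · exact him h1.symm
    · exact hmp h1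
  have hn2 : ¬ GConn (cx n S (n i + n q)) i m := by
    intro hc
    rcases comp_pair h hiq hc with h1 | h1
    · exact him h1.symm
    · exact hmq h1
  have hb1 : 1 ≤ bX n S (n i + n p) := one_le_gb hv1i hv1m hn1
  have hb2 : 1 ≤ bX n S (n i + n q) := one_le_gb hv2i hv2m hn2
  have h12 : n i + n p ≠ n i + n q := fun h' => hpq (h.inj (by omega))
  obtain ⟨ti, hti1, hti2, bi, hbi, hbi'⟩ := exists_mult h i
  obtain ⟨tp, htp1, htp2, bp, hbp, hbp'⟩ := exists_mult h p
  obtain ⟨tq, htq1, htq2, bq, hbq, hbq'⟩ := exists_mult h q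
  have hb3 : 1 ≤ bX n S ti := one_le_gb hti1 hbi' fun hc => hbi (hti2.conn hc)
  have hbtp : 1 ≤ bX n S tp := one_le_gb htp1 hbp' fun hc => hbp (htp2.conn hc)
  have hbtq : 1 ≤ bX n S tq := one_le_gb htq1 hbq' fun hc => hbq (htq2.conn hc)
  have h31 : ti ≠ n i + n p := by
    rintro rfl
    exact hti2 p (adj_pair h hip)
  have h32 : ti ≠ n i + n q := by
    rintro rfl
    exact hti2 q (adj_pair h hiq)
  have hp1 : tp ≠ n i + n p := by
    rintro rfl
    exact htp2 i (adj_pair' h hip)
  have hq2 : tq ≠ n i + n q := by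
    rintro rfl
    exact htq2 i (adj_pair' h hiq)
  have three : ∀ x y z : ℤ, x ≠ y → x ≠ z → y ≠ z →
      bX n S x + (bX n S y + bX n S z) ≤ ∑ᶠ z, bX n S z := by
    intro x y z hxy hxz hyz
    have h1 := sum_le_finsum hfin {x, y, z}
    rw [Finset.sum_insert (by simp [hxy, hxz]), Finset.sum_insert (by simp [hyz]),
      Finset.sum_singleton] at h1
    exact h1
  have four : ∀ x : ℤ, x ≠ n i + n p → x ≠ n i + n q → x ≠ ti → 1 ≤ bX n S x →
      4 ≤ ∑ᶠ z, bX n S z := by
    intro x h1 h2 h3 h4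
    have h5 := sum_le_finsum hfin {x, n i + n p, n i + n q, ti}
    rw [Finset.sum_insert (by simp [h1, h2, h3]),
      Finset.sum_insert (by simp [h12, h31.symm]),
      Finset.sum_insert (by simp [h32.symm]), Finset.sum_singleton] at h5
    omega
  by_cases hA : tp = n i + n q
  · -- `p` is isolated in degree `n i + n q`
    have hb : 2 ≤ bX n S (n i + n q) := by
      rw [hA] at htp1 htp2
      refine two_le_gb htp1 hv2i hv2m (fun hc => hip (htp2.conn hc))
        (fun hc => hmp (htp2.conn hc)) hn2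
    have := three _ _ _ h12 h31.symm h32.symm
    omega
  by_cases hB : tq = n i + n p
  · have hb : 2 ≤ bX n S (n i + n p) := by
      rw [hB] at htq1 htq2
      refine two_le_gb htq1 hv1i hv1m (fun hc => hiq (htq2.conn hc))
        (fun hc => hmq (htq2.conn hc)) hn1
    have := three _ _ _ h12 h31.symm h32.symm
    omega
  by_cases hC : tp = ti
  · by_cases hD : tq = ti
    · have hb : 2 ≤ bX n S ti := by
        rw [hC] at htp1 htp2
        rw [hD] at htq1 htq2
        refine two_le_gb hti1 htp1 htq1 (fun hc => hip (hti2.conn hc).symm)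
          (fun hc => hiq (hti2.conn hc).symm) (fun hc => hpq (htp2.conn hc).symm)
      have := three _ _ _ h12 h31.symm h32.symm
      omega
    · exact four tq hB hq2 hD hbtq
  · exact four tp hp1 hA hC hbtp

end H70NG
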