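import Pool.Agent.H70.NG.Step2

/-!
# NG-STEP7B: at least four generators, second case

`PF = {f, g}`, `A_f ⊇ {i₁, i₂}`, `A_g ⊇ {j₁, j₂}`, the four indices are distinct.  Suppose
`∑ b_K ≤ 4`.  By Step 2 (for `f` and for `g`, `t = 2`): `∑ b_K = 4`, and
`rho_f = rho_g = 0` everywhere.  Graphs of `K`; `d_e = F - e`.

* For `a : Fin 4`, `e ∈ {f, g}` let `c ≥ 1` be minimal such that in degree
  `z(a,e) = d_e + c * n a` some vertex `b ≠ a` exists.  `a` is a vertex there and isolated (an
  edge `a b` gives the vertex `b` in degree `d_e + (c-1) n a`; for `c = 1`: `d_e - n b ∉ K`).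
  So `b_K(z(a,e)) ≥ 1`.
* `z(a,f) ≠ z(a,g)`: the difference `f - g` would be a multiple of `n a`, against `Sg.pf_sub`.
* Let `o(z)` be the number of `(a,e)` with `z(a,e) = z`; these have different `a`, all isolated:
  `b_K(z) ≥ o(z) - 1` and `b_K(z) ≥ 1` if `o(z) ≥ 1`; so `2 b_K(z) ≥ o(z)`, and
  `∑ o = 8 = 2 ∑ b_K`: equality everywhere, so `o(z) ∈ {0, 2}` always.
* `(a,f)`, `(b,f)`, `a ≠ b` at the same `z`: `a`, `b` isolated and `z - n a - d_f`,
  `z - n b - d_f ∈ S`, so `rho_f(z) ≥ 1`: impossible.  Same for `g`.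
* So each `z` with `o(z) = 2` is `z(a,g) = z(b,f)`: `∑_a z(a,g) = ∑_b z(b,f)`.
* For `a ∈ A_f`: `z(a,g) = d_g + n a` (`n a + f - g ∈ S` has a divisor `n b`, `b ≠ a`, because
  `f - g ∉ S`; then `d_g + n a - n b = d_f + (n a + f - g - n b) ∈ K`).
* `C = CC S F f`, `k ≠ l` the indices `j₁, j₂`: `z(k,g) ∈ d_f + S` (it equals some `z(b,f)`), so
  it is not in `C`; `z(k,g) - n k = d_g + (c-1) n k ∈ C`: it is in `K`; if it is in `d_f + S` then
  either `c = 1`, `d_g ∈ d_f + S`, no; or (minimality of `c`) it is `d_f + s`, `s ≠ 0`, with a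
  divisor `n b` of `s`, so `b` is a vertex in degree `d_g + (c-1) n k`, so `b = k`; descend.
  `z(k,g) - n k - n l ∉ K` (isolated).  So `e2 C ≥ 1` at `z(k,g)`, same at `z(l,g)`, they are
  different (`o = 2`, paired with an `f`-object).  `∑ e2 C = 2` (`e2C_total`) and
  `e2 C` is symmetric under `ι x = (F + d_f) + n k + n l - x` (`e2_symm`, `CC_symm`) and
  nonnegative here (`kappa` with `rho = 0`... or directly), so
  `z(k,g) + z(l,g) = F + d_f + n k + n l`.
* Hence `∑_a z(a,g) = ∑ n + F + 2 d_g + d_f`, and by symmetry `∑_b z(b,f) = ∑ n + F + 2 d_f + d_g`: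
  `d_f = d_g`, contradiction.
-/

open Finset

namespace H70NG

variable {n : Fin 4 → ℤ} {S : Set ℤ} {F : ℤ}

/-! ### isolated vertices -/

theorem gcomp_isolated {D : Finset (Fin 4) → Prop} {a : Fin 4} (ha : ∀ b, b ≠ a → ¬ D {a, b}) :
    gcomp D a = {a} := by
  ext b
  rw [mem_gcomp, Finset.mem_singleton]
  constructor
  · intro hb
    unfold GConn at hb
    induction hb with
    | refl => rfl
    | tail _ hbc ih =>
      subst ih
      exact absurd hbc.2 (ha _ hbc.1.symm)
  · rintro rfl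
    exact Relation.ReflTransGen.refl

theorem card_isolated {D : Finset (Fin 4) → Prop} {O : Finset (Fin 4)}
    (hv : ∀ a ∈ O, D {a}) (hi : ∀ a ∈ O, ∀ b, b ≠ a → ¬ D {a, b})
    (hb : ∀ a ∈ O, ∃ b, b ≠ a ∧ D {b}) : O.card ≤ gb D + 1 ∧ O.card ≤ 2 * gb D := by
  classical
  have h1 : O.card ≤ (gcomps D).card := by
    refine Finset.card_le_card_of_injOn (gcomp D) (fun a ha => mem_gcomps.2 ⟨a, hv a ha, rfl⟩) ?_
    intro a ha b hb' hab
    rw [gcomp_isolated (hi a ha), gcomp_isolated (hi b hb')] at hab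
    exact Finset.singleton_injective hab
  have h2 : O.Nonempty → 2 ≤ (gcomps D).card := by
    rintro ⟨a, ha⟩
    obtain ⟨b, hba, hDb⟩ := hb a ha
    refine Finset.one_lt_card.2 ⟨gcomp D a, mem_gcomps.2 ⟨a, hv a ha, rfl⟩, gcomp D b,
      mem_gcomps.2 ⟨b, hDb, rfl⟩, ?_⟩
    rw [gcomp_isolated (hi a ha)]
    intro hc
    have := self_mem_gcomp (D := D) b
    rw [← hc, Finset.mem_singleton] at this
    exact hba this
  unfold gb
  rcases O.eq_empty_or_nonempty with hO | hO
  · subst hO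
    simp
  · have := h2 hO
    omega

/-! ### the degrees `z(a,e)` -/

/-- `c a` is the least `c ≥ 1` such that some `b ≠ a` is a vertex in degree `F - e + c * n a`. -/
def Spec (n : Fin 4 → ℤ) (S : Set ℤ) (F e : ℤ) (c : Fin 4 → ℕ) : Prop :=
  ∀ a, 1 ≤ c a ∧ (∃ b, b ≠ a ∧ F - e + c a * n a - n b ∈ KK S F) ∧
    ∀ m : ℕ, 1 ≤ m → m < c a → ∀ b, b ≠ a → F - e + m * n a - n b ∉ KK S F

theorem Sg.exists_spec (h : Sg n S F) (e : ℤ) : ∃ c : Fin 4 → ℕ, Spec n S F e c := by
  classical
  have key : ∀ a, ∃ c : ℕ, 1 ≤ c ∧ (∃ b, b ≠ a ∧ F - e + c * n a - n b ∈ KK S F) ∧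
      ∀ m : ℕ, 1 ≤ m → m < c → ∀ b, b ≠ a → F - e + m * n a - n b ∉ KK S F := by
    intro a
    have hex : ∃ c : ℕ, 1 ≤ c ∧ ∃ b, b ≠ a ∧ F - e + c * n a - n b ∈ KK S F := by
      obtain ⟨b, hb⟩ : ∃ b : Fin 4, b ≠ a := exists_ne a
      refine ⟨(e + n b).toNat + 1, by omega, b, hb, h.KK_big ?_⟩
      have h1 := h.pos a
      have h2 : (e + n b) + 1 ≤ (((e + n b).toNat + 1 : ℕ) : ℤ) := by
        push_cast
        have := Int.self_le_toNat (e + n b)
        omega
      have h3 : (((e + n b).toNat + 1 : ℕ) : ℤ) ≤ (((e + n b).toNat + 1 : ℕ) : ℤ) * n a :=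
        le_mul_of_one_le_right (by positivity) (by omega)
      omega
    refine ⟨Nat.find hex, (Nat.find_spec hex).1, (Nat.find_spec hex).2, ?_⟩
    intro m hm hlt b hb hK
    exact Nat.find_min hex hlt ⟨hm, b, hb, hK⟩
  choose c hc using key
  exact ⟨c, hc⟩

/-- the degree `z(a,e)` -/
def zd (n : Fin 4 → ℤ) (F e : ℤ) (c : Fin 4 → ℕ) (a : Fin 4) : ℤ := F - e + c a * n a

theorem Spec.vertex (h : Sg n S F) {e : ℤ} (he : e ∈ PF n S) {c : Fin 4 → ℕ}
    (hc : Spec n S F e c) (a : Fin 4) : zd n F e c a - n a ∈ KK S F := by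
  have h1 := (hc a).1
  have key : ∀ m : ℕ, F - e + m * n a ∈ KK S F := by
    intro m
    induction m with
    | zero => simpa using h.dg_mem_KK he
    | succ m ih =>
      have := h.KK_add_gen ih a
      have e1 : F - e + m * n a + n a = F - e + ((m + 1 : ℕ) : ℤ) * n a := by push_cast; ring
      rwa [e1] at this
  have := key (c a - 1)
  have e1 : F - e + ((c a - 1 : ℕ) : ℤ) * n a = zd n F e c a - n a := by
    unfold zd
    rw [Nat.cast_sub h1]
    push_cast
    ring
  rwa [e1] at this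

theorem Spec.isol (h : Sg n S F) {e : ℤ} (he : e ∈ PF n S) {c : Fin 4 → ℕ}
    (hc : Spec n S F e c) (a b : Fin 4) (hb : b ≠ a) :
    zd n F e c a - n a - n b ∉ KK S F := by
  have h1 := (hc a).1
  have e1 : zd n F e c a - n a - n b = F - e + ((c a - 1 : ℕ) : ℤ) * n a - n b := by
    unfold zd
    rw [Nat.cast_sub h1]
    push_cast
    ring
  rw [e1]
  rcases Nat.eq_or_lt_of_le h1 with h2 | h2
  · rw [← h2]
    simpa using h.dg_sub_notMem he b
  · exact (hc a).2.2 (c a - 1) (by omega) (by omega) b hb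

theorem Spec.smul_mem (h : Sg n S F) (m : ℕ) (a : Fin 4) : (m : ℤ) * n a ∈ S := by
  induction m with
  | zero => simpa using h.zero
  | succ m ih =>
    have := h.add_gen ih a
    have e1 : (m : ℤ) * n a + n a = ((m + 1 : ℕ) : ℤ) * n a := by push_cast; ring
    rwa [e1] at this

theorem Spec.ne (h : Sg n S F) {f g : ℤ} (hf : f ∈ PF n S) (hg : g ∈ PF n S) (hfg : f ≠ g)
    {c c' : Fin 4 → ℕ} (a : Fin 4) : zd n F f c a ≠ zd n F g c' a := by
  intro heq
  unfold zd at heq
  rcases le_total (c a) (c' a) with hle | hle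
  · have e1 : g - f = ((c' a - c a : ℕ) : ℤ) * n a := by
      rw [Nat.cast_sub hle]
      linarith
    exact h.pf_sub hf hg hfg (e1 ▸ Spec.smul_mem h _ a)
  · have e1 : f - g = ((c a - c' a : ℕ) : ℤ) * n a := by
      rw [Nat.cast_sub hle]
      linarith
    exact h.pf_sub hg hf hfg.symm (e1 ▸ Spec.smul_mem h _ a)

/-- two objects for the same `e` have different degrees if `rho_e = 0` -/
theorem Spec.inj (h : Sg n S F) {e : ℤ} (he : e ∈ PF n S) {c : Fin 4 → ℕ}
    (hc : Spec n S F e c) (hrho : ∀ z, rho n S F e z = 0) :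
    Function.Injective (zd n F e c) := by
  classical
  intro a b hab
  by_contra hne
  set z := zd n F e c a with hz
  have hL : ∀ x : Fin 4, zd n F e c x = z → z - (F - e) - n x ∈ S := by
    intro x hx
    have h1 := (hc x).1
    have e1 : z - (F - e) - n x = ((c x - 1 : ℕ) : ℤ) * n x := by
      rw [← hx]
      unfold zd
      rw [Nat.cast_sub h1]
      push_cast
      ring
    rw [e1]
    exact Spec.smul_mem h _ x
  have hcomp : ∀ x : Fin 4, zd n F e c x = z →
      gcomp (cx n (KK S F) z) x = {x} ∧ gcomp (cx n (KK S F) z) x ∈ gcomps (cx n (KK S F) z) := by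
    intro x hx
    have hv := Spec.vertex h he hc x
    rw [hx] at hv
    refine ⟨gcomp_isolated fun y hy => ?_, mem_gcomps.2 ⟨x, cx_single.2 hv, rfl⟩⟩
    rw [cx_pair hy.symm, ← hx]
    exact Spec.isol h he hc x y hy
  have h0 := hrho z
  unfold rho ghit at h0
  have h2 : 1 < ((gcomps (cx n (KK S F) z)).filter
      (fun C => ∃ x ∈ C, z - (F - e) - n x ∈ S)).card := by
    refine Finset.one_lt_card.2 ⟨gcomp (cx n (KK S F) z) a, ?_, gcomp (cx n (KK S F) z) b, ?_, ?_⟩
    · exact Finset.mem_filter.2 ⟨(hcomp a rfl).2, a, self_mem_gcomp a, hL a rfl⟩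
    · exact Finset.mem_filter.2 ⟨(hcomp b hab.symm).2, b, self_mem_gcomp b, hL b hab.symm⟩
    · rw [(hcomp a rfl).1, (hcomp b hab.symm).1]
      intro hc'
      exact hne (Finset.singleton_injective hc')
  have h3 := Nat.le_of_sub_eq_zero h0
  have h4 : ¬ (((gcomps (cx n (KK S F) z)).filter
      (fun C => ∃ x ∈ C, z - (F - e) - n x ∈ S)).card ≤ 1) := not_le.2 h2
  apply h4
  convert h3

/-- for `a ∈ A_f` one has `z(a,g) = d_g + n a` -/
theorem Spec.eq_one (h : Sg n S F) {f g : ℤ} (hf : f ∈ PF n S) (hg : g ∈ PF n S) (hfg : f ≠ g)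
    {c : Fin 4 → ℕ} (hc : Spec n S F g c) {a : Fin 4} (ha : AA n S f a) :
    zd n F g c a = F - g + n a := by
  have hw := ha g hg
  have hw0 : n a + f - g ≠ 0 := by
    intro h0
    have := hf.2 a
    rw [show f + n a = g by linarith] at this
    exact hg.1 this
  obtain ⟨b, hb⟩ := h.dec _ hw hw0
  have hba : b ≠ a := by
    rintro rfl
    rw [show n b + f - g - n b = f - g by ring] at hb
    exact h.pf_sub hg hf hfg.symm hb
  have h1 : F - g + n a - n b ∈ KK S F := by
    have := h.KK_add (h.dg_mem_KK hf) hb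
    rwa [show F - f + (n a + f - g - n b) = F - g + n a - n b by ring] at this
  have h2 : c a = 1 := by
    by_contra hne
    have h3 := (hc a).1
    have := (hc a).2.2 1 le_rfl (by omega) b hba
    apply this
    push_cast
    rw [one_mul]
    exact h1
  unfold zd
  rw [h2]
  push_cast
  ring

/-- for `m < c k`, `d_g + m n k ∉ d_f + S` -/
theorem Spec.notMem (h : Sg n S F) {f g : ℤ} (hf : f ∈ PF n S) (hg : g ∈ PF n S) (hfg : f ≠ g)
    {c : Fin 4 → ℕ} (hc : Spec n S F g c) (k : Fin 4) (m : ℕ) (hm : m < c k) :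
    f - g + m * n k ∉ S := by
  induction m with
  | zero => simpa using h.pf_sub hg hf hfg.symm
  | succ m ih =>
    intro hs
    have h0 : f - g + ((m + 1 : ℕ) : ℤ) * n k ≠ 0 := by
      intro h0
      have h1 : ((m + 1 : ℕ) : ℤ) * n k ≠ 0 := by
        have := h.pos k
        positivity
      have := h.pf_add hf (Spec.smul_mem h (m + 1) k) h1
      rw [show f + ((m + 1 : ℕ) : ℤ) * n k = g by linarith] at this
      exact hg.1 this
    obtain ⟨b, hb⟩ := h.dec _ hs h0
    by_cases hbk : b = k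
    · subst hbk
      apply ih (by omega)
      rwa [show f - g + ((m + 1 : ℕ) : ℤ) * n b - n b = f - g + m * n b by push_cast; ring] at hb
    · have := h.KK_add (h.dg_mem_KK hf) hb
      rw [show F - f + (f - g + ((m + 1 : ℕ) : ℤ) * n k - n b)
        = F - g + ((m + 1 : ℕ) : ℤ) * n k - n b by ring] at this
      exact (hc k).2.2 (m + 1) (by omega) hm b hbk this

open Classical in
theorem e2_nonneg_CC (h : Sg n S F) (f : ℤ) (k l : Fin 4) (z : ℤ) :
    0 ≤ e2 (CC S F f) (n k) (n l) z := by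
  unfold e2
  by_cases hz : z ∈ CC S F f
  · by_cases hkl : z - n k - n l ∈ CC S F f
    · have hk : z - n k ∈ CC S F f := by
        refine CC_sub h.add (h.gen k) hz ?_
        have := h.KK_add_gen hkl.1 l
        rwa [sub_add_cancel] at this
      have hl : z - n l ∈ CC S F f := by
        refine CC_sub h.add (h.gen l) hz ?_
        have := h.KK_add_gen hkl.1 k
        rwa [show z - n k - n l + n k = z - n l by ring] at this
      simp [hz, hkl, hk, hl]
    · simp only [hkl, false_and, if_false]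
      split_ifs <;> simp_all
  · simp only [hz, false_and, if_false]
    split_ifs <;> simp_all

/-- the sum of the degrees `z(a,g)` -/
theorem Spec.sum (h : Sg n S F) {f g : ℤ} (hf : f ∈ PF n S) (hg : g ∈ PF n S) (hfg : f ≠ g)
    (hcard : (PF n S).ncard = 2) {i₁ i₂ j₁ j₂ : Fin 4} (h1 : i₁ ≠ i₂) (h2 : i₁ ≠ j₁)
    (h3 : i₁ ≠ j₂) (h4 : i₂ ≠ j₁) (h5 : i₂ ≠ j₂) (h6 : j₁ ≠ j₂)
    (hi₁ : AA n S f i₁) (hi₂ : AA n S f i₂)
    {cf cg : Fin 4 → ℕ} (hcg : Spec n S F g cg)
    (hinj : Function.Injective (zd n F g cg))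
    (hpair : ∀ a, ∃ b, zd n F g cg a = zd n F f cf b) :
    zd n F g cg i₁ + zd n F g cg i₂ + (zd n F g cg j₁ + zd n F g cg j₂)
      = n i₁ + n i₂ + n j₁ + n j₂ + F + 2 * (F - g) + (F - f) := by
  classical
  have hsupp := e2_supp (h.CC_finite f) (n j₁) (n j₂)
  have htot := e2C_total h hf h1 h2 h3 h4 h5 h6 hi₁ hi₂
  rw [hcard] at htot
  have hsum : ∑ᶠ z, e2 (CC S F f) (n j₁) (n j₂) z = 2 := by push_cast at htot; omega
  have hnn := e2_nonneg_CC h f j₁ j₂
  -- values at least one
  have hz : ∀ k : Fin 4, ∀ l : Fin 4, k ≠ l → zd n F g cg k ∉ CC S F f ∧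
      zd n F g cg k - n k ∈ CC S F f ∧ zd n F g cg k - n k - n l ∉ CC S F f := by
    intro k l hkl
    refine ⟨?_, ⟨Spec.vertex h hg hcg k, ?_⟩, fun hc => Spec.isol h hg hcg k l hkl.symm hc.1⟩
    · intro hc
      obtain ⟨b, hb⟩ := hpair k
      apply hc.2
      rw [hb]
      unfold zd
      rw [add_sub_cancel_left]
      exact Spec.smul_mem h _ b
    · have h7 := (hcg k).1
      have := Spec.notMem h hf hg hfg hcg k (cg k - 1) (by omega)
      rw [Nat.cast_sub h7] at this
      intro hc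
      apply this
      unfold zd at hc
      push_cast
      rwa [show F - g + (cg k : ℤ) * n k - n k - (F - f) = f - g + ((cg k : ℤ) - 1) * n k by
        ring] at hc
  have hk : 1 ≤ e2 (CC S F f) (n j₁) (n j₂) (zd n F g cg j₁) := by
    obtain ⟨ha, hb, hc⟩ := hz j₁ j₂ h6
    unfold e2
    simp only [ha, hb, hc, false_and, if_true, if_false]
    split_ifs <;> omega
  have hl : 1 ≤ e2 (CC S F f) (n j₁) (n j₂) (zd n F g cg j₂) := by
    obtain ⟨ha, hb, hc⟩ := hz j₂ j₁ h6.symm
    have hc' : zd n F g cg j₂ - n j₁ - n j₂ ∉ CC S F f := by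
      rwa [show zd n F g cg j₂ - n j₁ - n j₂ = zd n F g cg j₂ - n j₂ - n j₁ by ring]
    unfold e2
    simp only [ha, hb, hc', false_and, if_true, if_false]
    split_ifs <;> omega
  have hne : zd n F g cg j₁ ≠ zd n F g cg j₂ := fun hc => h6 (hinj hc)
  -- nothing else
  have hother : ∀ z, z ≠ zd n F g cg j₁ → z ≠ zd n F g cg j₂ →
      e2 (CC S F f) (n j₁) (n j₂) z = 0 := by
    intro z hz1 hz2
    by_contra hz0
    have hz3 : 1 ≤ e2 (CC S F f) (n j₁) (n j₂) z := by
      have := hnn z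
      omega
    have hle : ∑ x ∈ ({z, zd n F g cg j₁, zd n F g cg j₂} : Finset ℤ),
        e2 (CC S F f) (n j₁) (n j₂) x ≤ ∑ᶠ z, e2 (CC S F f) (n j₁) (n j₂) z := by
      rw [finsum_eq_sum_of_support_subset (s := hsupp.toFinset ∪
        {z, zd n F g cg j₁, zd n F g cg j₂})]
      · exact Finset.sum_le_sum_of_subset_of_nonneg Finset.subset_union_right
          fun x _ _ => hnn x
      · intro x hx
        simp only [Finset.coe_union, Set.Finite.coe_toFinset]
        exact Or.inl hx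
    rw [Finset.sum_insert (by simp [hz1, hz2]), Finset.sum_pair hne, hsum] at hle
    omega
  have hsymm := fun z => e2_symm (C := CC S F f) (τ := F + (F - f))
    (fun x => CC_symm (x := x)) (n j₁) (n j₂) z
  have hs1 := hsymm (zd n F g cg j₁)
  have hs2 := hsymm (zd n F g cg j₂)
  have hsumz : zd n F g cg j₁ + zd n F g cg j₂ = F + (F - f) + n j₁ + n j₂ := by
    by_cases hA : F + (F - f) + n j₁ + n j₂ - zd n F g cg j₁ = zd n F g cg j₂
    · omega
    · have hA' : F + (F - f) + n j₁ + n j₂ - zd n F g cg j₁ = zd n F g cg j₁ := by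
        by_contra hB
        have := hother _ hB hA
        omega
      have hC : F + (F - f) + n j₁ + n j₂ - zd n F g cg j₂ = zd n F g cg j₂ := by
        by_contra hB
        have hD : F + (F - f) + n j₁ + n j₂ - zd n F g cg j₂ ≠ zd n F g cg j₁ := by
          intro hD
          omega
        have := hother _ hD hB
        omega
      omega
  have e1 := Spec.eq_one h hf hg hfg hcg hi₁
  have e2' := Spec.eq_one h hf hg hfg hcg hi₂
  omega

theorem rho_zero (h : Sg n S F) {f : ℤ} (hf : f ∈ PF n S) (hcard : (PF n S).ncard = 2)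
    {i j : Fin 4} (hij : i ≠ j) (hi : AA n S f i) (hj : AA n S f j)
    (hB : ∑ᶠ z, bX n (KK S F) z ≤ 4) :
    (∑ᶠ z, bX n (KK S F) z = 4) ∧ ∀ z, rho n S F f z = 0 := by
  have h1 := step2 h hf hij hi hj
  rw [hcard] at h1
  have h2 : ∑ᶠ z, rho n S F f z = 0 := by omega
  refine ⟨by omega, fun z => ?_⟩
  have h3 : rho n S F f z ≤ ∑ᶠ z, rho n S F f z := by
    rw [finsum_eq_sum_of_support_subset (s := (h.supp_rho f).toFinset ∪ {z})]
    · exact Finset.single_le_sum (f := fun z => rho n S F f z) (fun x _ => Nat.zero_le _)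
        (Finset.mem_union_right _ (Finset.mem_singleton_self z))
    · intro x hx
      simp only [Finset.coe_union, Set.Finite.coe_toFinset]
      exact Or.inl hx
  omega

theorem step7b (h : Sg n S F) {f g : ℤ} (hf : f ∈ PF n S) (hg : g ∈ PF n S) (hfg : f ≠ g)
    (hPF : PF n S = {f, g}) {i₁ i₂ j₁ j₂ : Fin 4} (h1 : i₁ ≠ i₂) (h2 : i₁ ≠ j₁) (h3 : i₁ ≠ j₂)
    (h4 : i₂ ≠ j₁) (h5 : i₂ ≠ j₂) (h6 : j₁ ≠ j₂)
    (hi₁ : AA n S f i₁) (hi₂ : AA n S f i₂) (hj₁ : AA n S g j₁) (hj₂ : AA n S g j₂) :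
    5 ≤ ∑ᶠ z, bX n (KK S F) z := by
  classical
  by_contra hlt
  have hB : ∑ᶠ z, bX n (KK S F) z ≤ 4 := by omega
  have hcard : (PF n S).ncard = 2 := by rw [hPF]; exact Set.ncard_pair hfg
  obtain ⟨hB4, hrf⟩ := rho_zero h hf hcard h1 hi₁ hi₂ hB
  obtain ⟨-, hrg⟩ := rho_zero h hg hcard h6 hj₁ hj₂ hB
  obtain ⟨cf, hcf⟩ := h.exists_spec f
  obtain ⟨cg, hcg⟩ := h.exists_spec g
  have hif := Spec.inj h hf hcf hrf
  have hig := Spec.inj h hg hcg hrg
  -- the eight objects
  set zm : Fin 4 × Bool → ℤ := fun x => if x.2 then zd n F f cf x.1 else zd n F g cg x.1 with hzm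
  set Z : Finset ℤ := (univ : Finset (Fin 4 × Bool)).image zm with hZ
  have hfib : ∀ z ∈ Z, ((univ : Finset (Fin 4 × Bool)).filter (fun x => zm x = z)).card ≤
      bX n (KK S F) z + 1 ∧ ((univ : Finset (Fin 4 × Bool)).filter (fun x => zm x = z)).card ≤
      2 * bX n (KK S F) z := by
    intro z _
    have hcardeq : ((univ : Finset (Fin 4 × Bool)).filter (fun x => zm x = z)).card =
        (((univ : Finset (Fin 4 × Bool)).filter (fun x => zm x = z)).image Prod.fst).card := by
      rw [Finset.card_image_of_injOn]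
      rintro ⟨a, s⟩ ha ⟨b, t⟩ hb hab
      simp only [Finset.coe_filter, Finset.mem_univ, true_and, Set.mem_ofPred_eq] at ha hb
      simp only at hab
      subst hab
      have hst : s = t := by
        by_contra hst
        have hne := Spec.ne h hf hg hfg (c := cf) (c' := cg) a
        rw [hzm] at ha hb
        rcases s with _ | _ <;> rcases t with _ | _ <;> simp_all
      rw [hst]
    rw [hcardeq]
    have hprop : ∀ a ∈ (((univ : Finset (Fin 4 × Bool)).filter (fun x => zm x = z)).image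
        Prod.fst), z - n a ∈ KK S F ∧ (∀ b, b ≠ a → z - n a - n b ∉ KK S F) ∧
          ∃ b, b ≠ a ∧ z - n b ∈ KK S F := by
      intro a ha
      simp only [Finset.mem_image, Finset.mem_filter, Finset.mem_univ, true_and] at ha
      obtain ⟨⟨a', s⟩, hs, rfl⟩ := ha
      rw [hzm] at hs
      rcases s with _ | _
      · simp only [Bool.false_eq_true, if_false] at hs
        subst hs
        exact ⟨Spec.vertex h hg hcg _, fun b hb => Spec.isol h hg hcg _ b hb, (hcg _).2.1⟩
      · simp only [if_true] at hs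
        subst hs
        exact ⟨Spec.vertex h hf hcf _, fun b hb => Spec.isol h hf hcf _ b hb, (hcf _).2.1⟩
    exact card_isolated (D := cx n (KK S F) z)
      (fun a ha => cx_single.2 (hprop a ha).1)
      (fun a ha b hb => by
        rw [cx_pair hb.symm]
        exact (hprop a ha).2.1 b hb)
      (fun a ha => by
        obtain ⟨b, hb, hb'⟩ := (hprop a ha).2.2
        exact ⟨b, hb, cx_single.2 hb'⟩)
  have h8 : ∑ z ∈ Z, ((univ : Finset (Fin 4 × Bool)).filter (fun x => zm x = z)).card = 8 := by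
    have := Finset.card_eq_sum_card_fiberwise (s := (univ : Finset (Fin 4 × Bool))) (t := Z)
      (f := zm) (fun x _ => Finset.mem_image_of_mem _ (Finset.mem_univ x))
    rw [← this]
    rfl
  have hle4 : ∑ z ∈ Z, bX n (KK S F) z ≤ 4 := by
    rw [← hB4, finsum_eq_sum_of_support_subset (s := h.supp_bK.toFinset ∪ Z)]
    · exact Finset.sum_le_sum_of_subset_of_nonneg Finset.subset_union_right
        fun x _ _ => Nat.zero_le _
    · intro x hx
      simp only [Finset.coe_union, Set.Finite.coe_toFinset]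
      exact Or.inl hx
  have heq : ∀ z ∈ Z, ((univ : Finset (Fin 4 × Bool)).filter (fun x => zm x = z)).card =
      2 * bX n (KK S F) z := by
    have hsum : ∑ z ∈ Z, ((univ : Finset (Fin 4 × Bool)).filter (fun x => zm x = z)).card =
        ∑ z ∈ Z, 2 * bX n (KK S F) z := by
      refine le_antisymm (Finset.sum_le_sum fun z hz => (hfib z hz).2) ?_
      rw [h8, ← Finset.mul_sum]
      omega
    exact (Finset.sum_eq_sum_iff_of_le fun z hz => (hfib z hz).2).1 hsum
  have h2' : ∀ z ∈ Z, ((univ : Finset (Fin 4 × Bool)).filter (fun x => zm x = z)).card = 2 := by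
    intro z hz
    have e1 := heq z hz
    have e2 := (hfib z hz).1
    have e3 : 0 < ((univ : Finset (Fin 4 × Bool)).filter (fun x => zm x = z)).card := by
      rw [Finset.card_pos]
      obtain ⟨x, hx, hxz⟩ := Finset.mem_image.1 hz
      exact ⟨x, Finset.mem_filter.2 ⟨hx, hxz⟩⟩
    omega
  -- pairing
  have hother : ∀ x : Fin 4 × Bool, ∃ y : Fin 4 × Bool, y ≠ x ∧ zm y = zm x := by
    intro x
    have hx : zm x ∈ Z := Finset.mem_image_of_mem _ (Finset.mem_univ x)
    have := h2' _ hx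
    obtain ⟨y, hy, hyx⟩ := Finset.exists_mem_ne (by omega : 1 < ((univ : Finset (Fin 4 ×
      Bool)).filter (fun y => zm y = zm x)).card) x
    exact ⟨y, hyx, (Finset.mem_filter.1 hy).2⟩
  have hpg : ∀ a, ∃ b, zd n F g cg a = zd n F f cf b := by
    intro a
    obtain ⟨⟨b, s⟩, hne, hyx⟩ := hother (a, false)
    rcases s with _ | _
    · exfalso
      simp only [hzm, Bool.false_eq_true, if_false] at hyx
      exact hne (by rw [hig hyx])
    · simp only [hzm, Bool.false_eq_true, if_false, if_true] at hyx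
      exact ⟨b, hyx.symm⟩
  have hpf : ∀ a, ∃ b, zd n F f cf a = zd n F g cg b := by
    intro a
    obtain ⟨⟨b, s⟩, hne, hyx⟩ := hother (a, true)
    rcases s with _ | _
    · simp only [hzm, Bool.false_eq_true, if_false, if_true] at hyx
      exact ⟨b, hyx.symm⟩
    · exfalso
      simp only [hzm, if_true] at hyx
      exact hne (by rw [hif hyx])
  have hsums : ∑ a, zd n F g cg a = ∑ a, zd n F f cf a := by
    have hsub : ∀ {u v : Fin 4 → ℤ}, (∀ a, ∃ b, u a = v b) →
        (univ : Finset (Fin 4)).image u ⊆ (univ : Finset (Fin 4)).image v := by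
      intro u v huv x hx
      obtain ⟨a, -, rfl⟩ := Finset.mem_image.1 hx
      obtain ⟨b, hb⟩ := huv a
      exact Finset.mem_image.2 ⟨b, Finset.mem_univ _, hb.symm⟩
    have himg := Finset.Subset.antisymm (hsub hpg) (hsub hpf)
    have e1 := Finset.sum_image (f := fun x : ℤ => x) (s := (univ : Finset (Fin 4)))
      (g := zd n F g cg) (fun a _ b _ hab => hig hab)
    have e2 := Finset.sum_image (f := fun x : ℤ => x) (s := (univ : Finset (Fin 4)))
      (g := zd n F f cf) (fun a _ b _ hab => hif hab)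
    rw [← e1, ← e2, himg]
  -- all indices
  have huniv : (univ : Finset (Fin 4)) = {i₁, i₂, j₁, j₂} := by
    symm
    apply Finset.eq_univ_of_card
    rw [Finset.card_insert_of_notMem (by simp [h1, h2, h3]),
      Finset.card_insert_of_notMem (by simp [h4, h5]), Finset.card_pair h6]
    rfl
  have hs4 : ∀ u : Fin 4 → ℤ, ∑ a, u a = u i₁ + u i₂ + (u j₁ + u j₂) := by
    intro u
    rw [huniv, Finset.sum_insert (by simp [h1, h2, h3]), Finset.sum_insert (by simp [h4, h5]),
      Finset.sum_pair h6]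
    ring
  rw [hs4, hs4] at hsums
  have e1 := Spec.sum h hf hg hfg hcard h1 h2 h3 h4 h5 h6 hi₁ hi₂ hcg hig hpg
  have e2 := Spec.sum h hg hf hfg.symm hcard h6 h2.symm h4.symm h3.symm h5.symm h1 hj₁ hj₂ hcf
    hif hpf
  have : f = g := by linarith
  exact hfg this

end H70NG
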