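import Pool.Agent.H70.NG.Step1
import Pool.Agent.H70.NG.Step3
import Pool.Agent.H70.NG.Step6
import Pool.Agent.H70.NG.Step7a
import Pool.Agent.H70.NG.Step7b

/-!
# NG-CORE: assembly of the combinatorial theorem
-/

open Finset

namespace H70NG

variable {n : Fin 4 → ℤ} {S : Set ℤ} {F : ℤ}

/-- The other two indices. -/
theorem other_two (i m : Fin 4) (him : i ≠ m) :
    ∃ p q : Fin 4, i ≠ p ∧ i ≠ q ∧ m ≠ p ∧ m ≠ q ∧ p ≠ q := by
  revert i m; decide

theorem eq_of_ne4 (i m p q a : Fin 4) (him : i ≠ m) (hip : i ≠ p) (hiq : i ≠ q) (hmp : m ≠ p)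
    (hmq : m ≠ q) (hpq : p ≠ q) : a = i ∨ a = m ∨ a = p ∨ a = q := by
  revert i m p q a; decide

/-- `∑ rho_f` as a natural number is at most two. -/
theorem sum_rho_le (h : Sg n S F) {f g σ : ℤ} (hf : f ∈ PF n S) (hg : g ∈ PF n S)
    {i m : Fin 4} (him : i ≠ m) (hi : n i + g = σ) (hm : n m + f = σ) :
    ∑ᶠ z, rho n S F f z ≤ 2 := by
  obtain ⟨p, q, hip, hiq, hmp, hmq, hpq⟩ := other_two i m him
  have h1 := h.e2E_total hf hg him hip hiq hmp hmq hpq hi hm
  have h2 : ∑ᶠ z, e2 (EE S σ) (n p) (n q) (z - (F - f)) = 2 := by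
    rw [← h1]
    exact finsum_comp_equiv (Equiv.subRight (F - f)) (f := fun z => e2 (EE S σ) (n p) (n q) z)
  have hs : (Function.support (fun z => e2 (EE S σ) (n p) (n q) (z - (F - f)))).Finite := by
    have := e2_supp (h.EE_finite σ) (n p) (n q)
    have h3 := this.preimage (f := fun z : ℤ => z - (F - f)) (by
      intro x _ y _ hxy; simpa using hxy)
    exact h3.subset (by intro z hz; exact hz)
  have h4 : ∑ᶠ z, (rho n S F f z : ℤ) ≤ ∑ᶠ z, e2 (EE S σ) (n p) (n q) (z - (F - f)) := by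
    apply finsum_le_finsum'
    · have := h.supp_rho f
      apply this.subset
      intro z hz
      simp only [Function.mem_support] at hz ⊢
      intro h0; apply hz; simp [h0]
    · exact hs
    · intro z
      exact rho_le_e2 h hf hg him hip hiq hmp hmq hpq hi hm z
  rw [h2] at h4
  have h5 : ((∑ᶠ z, rho n S F f z : ℕ) : ℤ) = ∑ᶠ z, (rho n S F f z : ℤ) := by
    have := (Nat.castAddMonoidHom ℤ).map_finsum (h.supp_rho f)
    simpa using this
  rw [← h5] at h4
  exact_mod_cast h4

theorem core (h : Sg n S F) (hNG : ∀ a, ∃ f ∈ PF n S, AA n S f a)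
    (hAS : ∀ f ∈ PF n S, ∃ a, ¬ AA n S f a) :
    ((PF n S).ncard = 2 → (∑ᶠ z, bX n S z = 4 ∨ ∑ᶠ z, bX n S z = 5)) ∧
    ((PF n S).ncard = 3 → ∑ᶠ z, bX n S z = 6) := by
  -- pigeonhole
  have pig : (PF n S).ncard ≤ 3 → ∃ f ∈ PF n S, ∃ i j : Fin 4, i ≠ j ∧ AA n S f i ∧ AA n S f j := by
    intro hc
    choose φ hφ hA using hNG
    have hfin := h.pf_finite
    obtain ⟨x, _, y, _, hxy, hfxy⟩ := Finset.exists_ne_map_eq_of_card_lt_of_maps_to
      (s := (univ : Finset (Fin 4))) (t := hfin.toFinset) (f := φ) (by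
        rw [← Set.ncard_eq_toFinset_card _ hfin]; simp; omega) (by
        intro a _; simpa using hφ a)
    exact ⟨φ x, hφ x, x, y, hxy, hA x, by rw [hfxy]; exact hA y⟩
  have s1 := step1 h
  constructor
  · intro ht
    obtain ⟨f, hf, i₁, i₂, h12, h1, h2⟩ := pig (by omega)
    have s2 := step2 h hf h12 h1 h2
    obtain ⟨g, hg, hgf, i, m, him, hgi, hfi, hσ⟩ := step3 h hNG hf h12 h1 h2 (hAS f hf)
    have hr := sum_rho_le h hf hg him hσ rfl
    have hPF : PF n S = {f, g} := by
      obtain ⟨x, y, hxy, he⟩ := Set.ncard_eq_two.mp ht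
      rw [he] at hf hg ⊢
      simp only [Set.mem_insert_iff, Set.mem_singleton_iff] at hf hg
      rcases hf with rfl | rfl <;> rcases hg with rfl | rfl
      · exact absurd rfl hgf
      · rfl
      · exact Set.pair_comm _ _
      · exact absurd rfl hgf
    -- lower bound
    have low : 4 ≤ ∑ᶠ z, bX n S z := by
      -- the case of an `A_f` with three elements
      have three : ∀ e ∈ PF n S, ∀ i₁ i₂ i₃ : Fin 4, i₁ ≠ i₂ → i₁ ≠ i₃ → i₂ ≠ i₃ → AA n S e i₁ →
          AA n S e i₂ → AA n S e i₃ → 4 ≤ ∑ᶠ z, bX n S z := by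
        intro e he i₁ i₂ i₃ h12 h13 h23 a1 a2 a3
        obtain ⟨g', hg', hge, i, m, him, hgi, hfi, hσ⟩ := step3 h hNG he h12 a1 a2 (hAS e he)
        obtain ⟨p, q, hip, hiq, hmp, hmq, hpq⟩ := other_two i m him
        have hall : ∀ a, a ≠ i → AA n S e a := by
          intro a ha
          have e1 : i₁ ≠ i := by rintro rfl; exact hfi a1
          have e2 : i₂ ≠ i := by rintro rfl; exact hfi a2
          have e3 : i₃ ≠ i := by rintro rfl; exact hfi a3
          rcases eq_of_ne4 i₁ i₂ i₃ i a h12 h13 e1 h23 e2 e3 with r | r | r | r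
          · rw [r]; exact a1
          · rw [r]; exact a2
          · rw [r]; exact a3
          · exact absurd r ha
        exact step7a h him hip hiq hmp hmq hpq hσ (hall p hip.symm g' hg') (hall q hiq.symm g' hg')
      by_contra hlt
      -- both sets have exactly two elements
      have three' : ∀ e ∈ PF n S, ∀ i₁ i₂ a : Fin 4, i₁ ≠ i₂ → AA n S e i₁ → AA n S e i₂ →
          AA n S e a → a = i₁ ∨ a = i₂ := by
        intro e he i₁ i₂ a h12 a1 a2 a3
        by_contra hc
        push Not at hc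
        exact hlt (three e he i₁ i₂ a h12 hc.1.symm hc.2.symm a1 a2 a3)
      obtain ⟨j₁, j₂, h1j1, h1j2, h2j1, h2j2, hj12⟩ := other_two i₁ i₂ h12
      have hj : ∀ a, a ≠ i₁ → a ≠ i₂ → AA n S g a := by
        intro a ha1 ha2
        obtain ⟨e, he, hea⟩ := hNG a
        rw [hPF] at he
        rcases he with rfl | he
        · rcases three' e hf i₁ i₂ a h12 h1 h2 hea with r | r
          · exact absurd r ha1
          · exact absurd r ha2
        · rw [Set.mem_singleton_iff] at he
          rw [← he]; exact hea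
      have := step7b h hf hg hgf.symm hPF h12 h1j1 h1j2 h2j1 h2j2 hj12 h1 h2
        (hj j₁ h1j1.symm h2j1.symm) (hj j₂ h1j2.symm h2j2.symm)
      omega
    omega
  · intro ht
    obtain ⟨f, hf, i₁, i₂, h12, h1, h2⟩ := pig (by omega)
    have s2 := step2 h hf h12 h1 h2
    obtain ⟨g, hg, hgf, i, m, him, hgi, hfi, hσ⟩ := step3 h hNG hf h12 h1 h2 (hAS f hf)
    obtain ⟨h', hh', hhf, hhg⟩ : ∃ h' ∈ PF n S, h' ≠ f ∧ h' ≠ g := by
      obtain ⟨x, y, z, hxy, hxz, hyz, he⟩ := Set.ncard_eq_three.mp ht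
      rw [he] at hf hg ⊢
      simp only [Set.mem_insert_iff, Set.mem_singleton_iff] at hf hg
      rcases hf with rfl | rfl | rfl <;> rcases hg with rfl | rfl | rfl <;>
        first
          | exact absurd rfl hgf
          | exact ⟨x, by simp, by first | exact hxy | exact hxz, by first | exact hxy | exact hxz⟩
          | exact ⟨y, by simp, by first | exact hxy.symm | exact hyz,
              by first | exact hxy.symm | exact hyz⟩
          | exact ⟨z, by simp, by first | exact hxz.symm | exact hyz.symm,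
              by first | exact hxz.symm | exact hyz.symm⟩
    obtain ⟨p, q, hip, hiq, hmp, hmq, hpq⟩ := other_two i m him
    have s6 : ∑ᶠ z, rho n S F f z = 0 := by
      apply finsum_eq_zero_of_forall_eq_zero
      intro z
      exact step6 h hf hg hh' hgf.symm hhf.symm hhg.symm him hip hiq hmp hmq hpq hσ rfl hgi z
    omega

end H70NG
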