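import Mathlib

/-!
# MP_cc5e36_al: nearly Gorenstein numerical semigroups with four generators -- definitions

All the combinatorics takes place in `ℤ`.  `S` is the numerical semigroup, `n 0, …, n 3` its
minimal generators, `F` its Frobenius number.
-/

open Finset

namespace H70NG

/-! ## Graphs attached to a family of subsets of `Fin 4` -/

/-- Adjacency of two vertices in the family `D`. -/
def GAdj (D : Finset (Fin 4) → Prop) (a b : Fin 4) : Prop := a ≠ b ∧ D {a, b}

/-- `a` and `b` are joined by a path in the graph of `D`. -/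
def GConn (D : Finset (Fin 4) → Prop) (a b : Fin 4) : Prop :=
  Relation.ReflTransGen (GAdj D) a b

open Classical in
/-- The set of vertices joined to `a`. -/
noncomputable def gcomp (D : Finset (Fin 4) → Prop) (a : Fin 4) : Finset (Fin 4) :=
  univ.filter (fun b => GConn D a b)

open Classical in
/-- The connected components of the graph of `D` (vertices: the `a` with `D {a}`). -/
noncomputable def gcomps (D : Finset (Fin 4) → Prop) : Finset (Finset (Fin 4)) :=
  (univ.filter (fun a => D {a})).image (gcomp D)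

/-- Number of components minus one (`0` if there is no vertex). -/
noncomputable def gb (D : Finset (Fin 4) → Prop) : ℕ := (gcomps D).card - 1

open Classical in
/-- Number of components that contain an element of `L`, minus one (`0` if there is none). -/
noncomputable def ghit (D : Finset (Fin 4) → Prop) (L : Fin 4 → Prop) : ℕ :=
  ((gcomps D).filter (fun c => ∃ a ∈ c, L a)).card - 1

/-! ## Families attached to a subset of `ℤ` -/

/-- The family of the `I` with `z - ∑_{a ∈ I} n a ∈ X`. -/
def cx (n : Fin 4 → ℤ) (X : Set ℤ) (z : ℤ) (I : Finset (Fin 4)) : Prop :=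
  z - ∑ a ∈ I, n a ∈ X

/-- `b_X(z)`: number of components minus one of the graph of `X` in degree `z`. -/
noncomputable def bX (n : Fin 4 → ℤ) (X : Set ℤ) (z : ℤ) : ℕ := gb (cx n X z)

/-! ## The semigroup -/

/-- `S` is a numerical semigroup (seen in `ℤ`) with minimal generators `n 0, …, n 3` and
Frobenius number `F`. -/
structure Sg (n : Fin 4 → ℤ) (S : Set ℤ) (F : ℤ) : Prop where
  pos : ∀ a, 0 < n a
  inj : Function.Injective n
  zero : (0 : ℤ) ∈ S
  gen : ∀ a, n a ∈ S
  add : ∀ x ∈ S, ∀ y ∈ S, x + y ∈ S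
  nonneg : ∀ x ∈ S, 0 ≤ x
  dec : ∀ x ∈ S, x ≠ 0 → ∃ a, x - n a ∈ S
  irr : ∀ a, ∀ x ∈ S, ∀ y ∈ S, n a = x + y → x = 0 ∨ y = 0
  Fnot : F ∉ S
  Fbig : ∀ x, F < x → x ∈ S

/-- Pseudo-Frobenius numbers. -/
def PF (n : Fin 4 → ℤ) (S : Set ℤ) : Set ℤ := {f | f ∉ S ∧ ∀ a, f + n a ∈ S}

/-- The canonical ideal. -/
def KK (S : Set ℤ) (F : ℤ) : Set ℤ := {x | F - x ∉ S}

/-- `a ∈ A_f`. -/
def AA (n : Fin 4 → ℤ) (S : Set ℤ) (f : ℤ) (a : Fin 4) : Prop :=
  ∀ g ∈ PF n S, n a + f - g ∈ S

/-- `rho_f(z)`: the number of components of the graph of `K` in degree `z` which contain an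
`a` with `z - (F - f) - n a ∈ S`, minus one. -/
noncomputable def rho (n : Fin 4 → ℤ) (S : Set ℤ) (F f z : ℤ) : ℕ :=
  ghit (cx n (KK S F) z) (fun a => z - (F - f) - n a ∈ S)

open Classical in
/-- First Betti number in degree `z` of a finite set `C` with respect to the two steps
`p`, `q`. -/
noncomputable def e2 (C : Set ℤ) (p q z : ℤ) : ℤ :=
  (if z - p ∈ C then 1 else 0) + (if z - q ∈ C then 1 else 0)
    - (if z ∈ C ∧ (z - p ∈ C ∨ z - q ∈ C) then 1 else 0)
    - (if z - p - q ∈ C ∧ (z - p ∈ C ∨ z - q ∈ C) then 1 else 0)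

/-- The interval `[0, σ]` of the divisibility order of `S`. -/
def EE (S : Set ℤ) (σ : ℤ) : Set ℤ := {x | x ∈ S ∧ σ - x ∈ S}

end H70NG
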