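import Pool.Agent.H70.NG.Basic

/-!
# NG-FIN: the functions `b_X` have finite support

For `X ⊆ [0, ∞)` with `(F, ∞) ⊆ X`: if `z ≤ 0` there is no vertex; if `z > F + ∑ n` all
vertices and all edges are present, so there is one component.  In both cases `bX n X z = 0`.
Then the supports of `bX n S`, `bX n (KK S F)` are contained in `[1, F + ∑ n]`, and
`rho ≤ bX` gives the support of `rho`.
-/

open Finset

namespace H70NG

variable {n : Fin 4 → ℤ} {S : Set ℤ} {F : ℤ}

theorem bX_eq_zero_low {X : Set ℤ} (hpos : ∀ a, 0 < n a) (hX : ∀ x ∈ X, 0 ≤ x) {z : ℤ}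
    (hz : z ≤ 0) : bX n X z = 0 := by
  classical
  unfold bX gb
  have h1 : gcomps (cx n X z) = ∅ := by
    ext c
    rw [mem_gcomps]
    constructor
    · rintro ⟨a, ha, -⟩
      rw [cx_single] at ha
      have h1 := hX _ ha
      have h2 := hpos a
      omega
    · intro hc
      simp at hc
  rw [h1]
  rfl

theorem bX_eq_zero_high {X : Set ℤ} (hpos : ∀ a, 0 < n a) (hX : ∀ x, F < x → x ∈ X) {z : ℤ}
    (hz : F + ∑ a, n a < z) : bX n X z = 0 := by
  classical
  have hall : ∀ I : Finset (Fin 4), cx n X z I := by
    intro I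
    apply hX
    have h1 : ∑ a ∈ I, n a ≤ ∑ a, n a :=
      Finset.sum_le_univ_sum_of_nonneg fun a => (hpos a).le
    linarith
  unfold bX gb
  have h1 : gcomps (cx n X z) ⊆ {Finset.univ} := by
    intro c hc
    rw [mem_gcomps] at hc
    obtain ⟨a, -, rfl⟩ := hc
    rw [Finset.mem_singleton]
    ext b
    rw [mem_gcomp]
    simp only [Finset.mem_univ, iff_true]
    by_cases hab : a = b
    · subst hab
      exact Relation.ReflTransGen.refl
    · exact Relation.ReflTransGen.single ⟨hab, hall _⟩
  have h2 := Finset.card_le_card h1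
  rw [Finset.card_singleton] at h2
  omega

theorem Sg.supp_bS (h : Sg n S F) : (Function.support (fun z => bX n S z)).Finite := by
  refine (Set.finite_Icc 1 (F + ∑ a, n a)).subset fun z hz => ?_
  rw [Function.mem_support] at hz
  constructor
  · by_contra hc
    exact hz (bX_eq_zero_low h.pos h.nonneg (by omega))
  · by_contra hc
    exact hz (bX_eq_zero_high (F := F) h.pos h.Fbig (by omega))

theorem Sg.supp_bK (h : Sg n S F) : (Function.support (fun z => bX n (KK S F) z)).Finite := by
  refine (Set.finite_Icc 1 (F + ∑ a, n a)).subset fun z hz => ?_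
  rw [Function.mem_support] at hz
  constructor
  · by_contra hc
    exact hz (bX_eq_zero_low h.pos (fun x hx => h.KK_nonneg hx) (by omega))
  · by_contra hc
    exact hz (bX_eq_zero_high (F := F) h.pos (fun x hx => h.KK_big hx) (by omega))

theorem rho_le_bK (f z : ℤ) : rho n S F f z ≤ bX n (KK S F) z := by
  classical
  unfold rho ghit bX gb
  exact Nat.sub_le_sub_right (Finset.card_le_card (Finset.filter_subset _ _)) 1

theorem Sg.supp_rho (h : Sg n S F) (f : ℤ) :
    (Function.support (fun z => rho n S F f z)).Finite := by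
  refine h.supp_bK.subset fun z hz => ?_
  rw [Function.mem_support] at hz ⊢
  have := rho_le_bK (n := n) (S := S) (F := F) f z
  omega

end H70NG
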