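import Pool.Agent.H70.NG.Basic

/-!
# NG-TWOVAR: the two-variable lemma

`e2 C p q z = v - [z ∈ C, v ≥ 1] - [z-p-q ∈ C, v ≥ 1]`, `v = [z-p ∈ C] + [z-q ∈ C]`.
Summing over all `z` (finite support because `C` is finite):
`∑ v = 2|C|`, `∑ [z ∈ C, v ≥ 1] = |C| - #{x ∈ C : x-p ∉ C, x-q ∉ C}`,
`∑ [z-p-q ∈ C, v ≥ 1] = #{c ∈ C : c+q ∈ C or c+p ∈ C} = |C| - #{c ∈ C : c+p ∉ C, c+q ∉ C}`.
-/

open Finset

namespace H70NG

open Classical in
/-- indicator function with integer values -/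
noncomputable def ind (D : Set ℤ) (z : ℤ) : ℤ := if z ∈ D then 1 else 0

theorem finsum_ind {D : Set ℤ} (hD : D.Finite) : ∑ᶠ z, ind D z = (D.ncard : ℤ) := by
  classical
  rw [finsum_eq_sum_of_support_subset (s := hD.toFinset) _ (by
    intro z hz
    rw [Set.Finite.coe_toFinset]
    by_contra hc
    exact hz (if_neg hc))]
  have h : ∀ z ∈ hD.toFinset, ind D z = 1 := fun z hz =>
    if_pos ((Set.Finite.mem_toFinset hD).1 hz)
  rw [Finset.sum_congr rfl h, Set.ncard_eq_toFinset_card D hD]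
  simp

theorem supp_ind {D : Set ℤ} (hD : D.Finite) : (Function.support (fun z => ind D z)).Finite := by
  refine hD.subset ?_
  intro z hz
  by_contra hc
  exact hz (if_neg hc)

theorem shift_finite {C : Set ℤ} (hC : C.Finite) (p : ℤ) : ({z | z - p ∈ C} : Set ℤ).Finite :=
  hC.preimage (fun a _ b _ h => by simpa using h)

theorem shift_ncard (C : Set ℤ) (p : ℤ) : ({z | z - p ∈ C} : Set ℤ).ncard = C.ncard := by
  have : ({z | z - p ∈ C} : Set ℤ) = (fun x => x + p) '' C := by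
    ext z
    simp only [Set.mem_ofPred_eq, Set.mem_image]
    constructor
    · intro h
      exact ⟨z - p, h, by ring⟩
    · rintro ⟨x, hx, rfl⟩
      rwa [add_sub_cancel_right]
  rw [this]
  exact Set.ncard_image_of_injective _ (fun a b h => by simpa using h)

theorem e2_eq (C : Set ℤ) (p q z : ℤ) : e2 C p q z =
    ind {z | z - p ∈ C} z + ind {z | z - q ∈ C} z
      - ind {z | z ∈ C ∧ (z - p ∈ C ∨ z - q ∈ C)} z
      - ind {z | z - p - q ∈ C ∧ (z - p ∈ C ∨ z - q ∈ C)} z := by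
  classical
  have h : ∀ P : Prop, ∀ [Decidable P], ∀ (D : Set ℤ), (z ∈ D ↔ P) →
      (if P then (1 : ℤ) else 0) = ind D z := by
    intro P _ D hD
    by_cases hP : P
    · rw [if_pos hP]; exact (if_pos (hD.2 hP)).symm
    · rw [if_neg hP]; exact (if_neg (fun hc => hP (hD.1 hc))).symm
  unfold e2
  rw [h (z - p ∈ C) {z | z - p ∈ C} Iff.rfl, h (z - q ∈ C) {z | z - q ∈ C} Iff.rfl,
    h (z ∈ C ∧ (z - p ∈ C ∨ z - q ∈ C)) {z | z ∈ C ∧ (z - p ∈ C ∨ z - q ∈ C)} Iff.rfl,
    h (z - p - q ∈ C ∧ (z - p ∈ C ∨ z - q ∈ C))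
      {z | z - p - q ∈ C ∧ (z - p ∈ C ∨ z - q ∈ C)} Iff.rfl]

theorem fin3 {C : Set ℤ} (hC : C.Finite) (p q : ℤ) :
    ({z | z ∈ C ∧ (z - p ∈ C ∨ z - q ∈ C)} : Set ℤ).Finite := hC.subset (fun _ h => h.1)

theorem fin4 {C : Set ℤ} (hC : C.Finite) (p q : ℤ) :
    ({z | z - p - q ∈ C ∧ (z - p ∈ C ∨ z - q ∈ C)} : Set ℤ).Finite := by
  refine (shift_finite hC (p + q)).subset ?_
  intro z h
  have h1 := h.1
  rw [sub_sub] at h1
  exact h1

theorem e2_supp {C : Set ℤ} (hC : C.Finite) (p q : ℤ) :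
    (Function.support (fun z => e2 C p q z)).Finite := by
  simp only [e2_eq]
  have h1 := supp_ind (shift_finite hC p)
  have h2 := supp_ind (shift_finite hC q)
  have h3 := supp_ind (fin3 hC p q)
  have h4 := supp_ind (fin4 hC p q)
  refine (((h1.union h2).union h3).union h4).subset ?_
  refine (Function.support_sub _ _).trans (Set.union_subset_union_left _ ?_)
  refine (Function.support_sub _ _).trans (Set.union_subset_union_left _ ?_)
  exact Function.support_add _ _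

theorem twoVar {C : Set ℤ} (hC : C.Finite) (p q : ℤ) :
    ∑ᶠ z, e2 C p q z = (({x | x ∈ C ∧ x - p ∉ C ∧ x - q ∉ C} : Set ℤ).ncard : ℤ)
      + (({x | x ∈ C ∧ x + p ∉ C ∧ x + q ∉ C} : Set ℤ).ncard : ℤ) := by
  classical
  have h1 := supp_ind (shift_finite hC p)
  have h2 := supp_ind (shift_finite hC q)
  have h3 := supp_ind (fin3 hC p q)
  have h4 := supp_ind (fin4 hC p q)
  simp only [e2_eq]
  rw [finsum_sub_distrib (((h1.union h2).union h3).subset
    ((Function.support_sub _ _).trans (Set.union_subset_union_left _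
      (Function.support_add _ _)))) h4,
    finsum_sub_distrib ((h1.union h2).subset (Function.support_add _ _)) h3,
    finsum_add_distrib h1 h2, finsum_ind (shift_finite hC p), finsum_ind (shift_finite hC q),
    finsum_ind (fin3 hC p q), finsum_ind (fin4 hC p q), shift_ncard, shift_ncard]
  have e3 : ({z | z ∈ C ∧ (z - p ∈ C ∨ z - q ∈ C)} : Set ℤ).ncard
      + ({x | x ∈ C ∧ x - p ∉ C ∧ x - q ∉ C} : Set ℤ).ncard = C.ncard := by
    rw [← Set.ncard_union_eq ?_ (fin3 hC p q) (hC.subset (fun _ h => h.1))]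
    · congr 1
      ext z
      simp only [Set.mem_union, Set.mem_ofPred_eq]
      tauto
    · rw [Set.disjoint_left]
      rintro z ⟨-, h⟩ ⟨-, h'⟩
      tauto
  have e4 : ({z | z - p - q ∈ C ∧ (z - p ∈ C ∨ z - q ∈ C)} : Set ℤ).ncard
      + ({x | x ∈ C ∧ x + p ∉ C ∧ x + q ∉ C} : Set ℤ).ncard = C.ncard := by
    have e5 : ({z | z - p - q ∈ C ∧ (z - p ∈ C ∨ z - q ∈ C)} : Set ℤ)
        = {z | z - (p + q) ∈ ({c | c ∈ C ∧ (c + q ∈ C ∨ c + p ∈ C)} : Set ℤ)} := by
      ext z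
      simp only [Set.mem_ofPred_eq]
      have a1 : z - (p + q) = z - p - q := by ring
      have a2 : z - (p + q) + q = z - p := by ring
      have a3 : z - (p + q) + p = z - q := by ring
      rw [a2, a3, a1]
    rw [e5, shift_ncard, ← Set.ncard_union_eq ?_ (hC.subset (fun _ h => h.1))
      (hC.subset (fun _ h => h.1))]
    · congr 1
      ext z
      simp only [Set.mem_union, Set.mem_ofPred_eq]
      tauto
    · rw [Set.disjoint_left]
      rintro z ⟨-, h⟩ ⟨-, h'⟩
      tauto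
  omega

/-- Symmetry of `e2` for a set symmetric under `x ↦ τ - x`. -/
theorem e2_symm {C : Set ℤ} {τ : ℤ} (hτ : ∀ x, x ∈ C ↔ τ - x ∈ C) (p q z : ℤ) :
    e2 C p q (τ + p + q - z) = e2 C p q z := by
  classical
  have h1 : τ + p + q - z - p ∈ C ↔ z - q ∈ C := by
    rw [hτ (z - q)]
    have : τ + p + q - z - p = τ - (z - q) := by ring
    rw [this]
  have h2 : τ + p + q - z - q ∈ C ↔ z - p ∈ C := by
    rw [hτ (z - p)]
    have : τ + p + q - z - q = τ - (z - p) := by ring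
    rw [this]
  have h3 : τ + p + q - z ∈ C ↔ z - p - q ∈ C := by
    rw [hτ (z - p - q)]
    have : τ + p + q - z = τ - (z - p - q) := by ring
    rw [this]
  have h4 : τ + p + q - z - p - q ∈ C ↔ z ∈ C := by
    rw [hτ z]
    have : τ + p + q - z - p - q = τ - z := by ring
    rw [this]
  have h5 : (z - q ∈ C ∨ z - p ∈ C) ↔ (z - p ∈ C ∨ z - q ∈ C) := or_comm
  unfold e2
  simp only [h1, h2, h3, h4, h5]
  ring

end H70NG
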