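import Pool.Agent.H70.NG.Fin
import Pool.Agent.H70.NG.TwoVar

/-!
# NG-KAPPA: the degreewise identity behind Step 2

`f ∈ PF`, `i ≠ j` in `A_f`, `{k, l}` the other two indices, `C = CC S F f = K \ (d_f + S)`,
`d_f = F - f`, `L_z = {a : z - n a ∈ d_f + S}`.

The number of components is expressed by the vertices and edges (`gcomps_card`, `ghit_card`,
`conn_iff`), the facts on `K`, `C`, `S` are turned into propositional constraints, and the
identity is then a finite check (`kappa_bool`).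
-/

open Finset

namespace H70NG

variable {n : Fin 4 → ℤ} {S : Set ℤ} {F : ℤ}

/-! ### components of a graph on four vertices -/

theorem univ_four {i j k l : Fin 4} (hij : i ≠ j) (hik : i ≠ k) (hil : i ≠ l) (hjk : j ≠ k)
    (hjl : j ≠ l) (hkl : k ≠ l) : (univ : Finset (Fin 4)) = {l, k, j, i} := by
  revert i j k l; decide

theorem conn_iff {D : Finset (Fin 4) → Prop} {a b c d : Fin 4} (hab : a ≠ b) (hac : a ≠ c)
    (had : a ≠ d) (hbc : b ≠ c) (hbd : b ≠ d) (hcd : c ≠ d) :
    GConn D a b ↔ D {a, b} ∨ (D {a, c} ∧ D {b, c}) ∨ (D {a, d} ∧ D {b, d}) ∨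
      (D {a, c} ∧ D {c, d} ∧ D {b, d}) ∨ (D {a, d} ∧ D {c, d} ∧ D {b, c}) := by
  have hex : ∀ x : Fin 4, x = a ∨ x = b ∨ x = c ∨ x = d := by
    revert a b c d; decide
  have adj : ∀ {x y : Fin 4}, x ≠ y → D {x, y} → GConn D x y :=
    fun hne h => Relation.ReflTransGen.single ⟨hne, h⟩
  constructor
  · intro h
    have key : ∀ x, GConn D a x → (x = a) ∨
        (x = b ∧ (D {a, b} ∨ (D {a, c} ∧ D {b, c}) ∨ (D {a, d} ∧ D {b, d}) ∨
          (D {a, c} ∧ D {c, d} ∧ D {b, d}) ∨ (D {a, d} ∧ D {c, d} ∧ D {b, c}))) ∨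
        (x = c ∧ (D {a, c} ∨ (D {a, b} ∧ D {b, c}) ∨ (D {a, d} ∧ D {c, d}) ∨
          (D {a, b} ∧ D {b, d} ∧ D {c, d}) ∨ (D {a, d} ∧ D {b, d} ∧ D {b, c}))) ∨
        (x = d ∧ (D {a, d} ∨ (D {a, b} ∧ D {b, d}) ∨ (D {a, c} ∧ D {c, d}) ∨
          (D {a, b} ∧ D {b, c} ∧ D {c, d}) ∨ (D {a, c} ∧ D {b, c} ∧ D {b, d}))) := by
      intro x hx
      unfold GConn at hx
      induction hx with
      | refl => exact Or.inl rfl
      | @tail y z _ hyz ih =>
        obtain ⟨hne, hD⟩ := hyz
        have e4 : ({c, b} : Finset (Fin 4)) = {b, c} := Finset.pair_comm _ _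
        have e5 : ({d, b} : Finset (Fin 4)) = {b, d} := Finset.pair_comm _ _
        have e6 : ({d, c} : Finset (Fin 4)) = {c, d} := Finset.pair_comm _ _
        rcases ih with rfl | ⟨rfl, ih⟩ | ⟨rfl, ih⟩ | ⟨rfl, ih⟩
        · rcases hex z with rfl | rfl | rfl | rfl
          · exact absurd rfl hne
          · exact Or.inr (Or.inl ⟨rfl, Or.inl hD⟩)
          · exact Or.inr (Or.inr (Or.inl ⟨rfl, Or.inl hD⟩))
          · exact Or.inr (Or.inr (Or.inr ⟨rfl, Or.inl hD⟩))
        · rcases hex z with rfl | rfl | rfl | rfl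
          · exact Or.inl rfl
          · exact absurd rfl hne
          · refine Or.inr (Or.inr (Or.inl ⟨rfl, ?_⟩))
            rcases ih with q | ⟨q1, q2⟩ | ⟨q1, q2⟩ | ⟨q1, q2, q3⟩ | ⟨q1, q2, q3⟩ <;> simp [*]
          · refine Or.inr (Or.inr (Or.inr ⟨rfl, ?_⟩))
            rcases ih with q | ⟨q1, q2⟩ | ⟨q1, q2⟩ | ⟨q1, q2, q3⟩ | ⟨q1, q2, q3⟩ <;> simp [*]
        · rcases hex z with rfl | rfl | rfl | rfl
          · exact Or.inl rfl
          · rw [e4] at hD
            refine Or.inr (Or.inl ⟨rfl, ?_⟩)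
            rcases ih with q | ⟨q1, q2⟩ | ⟨q1, q2⟩ | ⟨q1, q2, q3⟩ | ⟨q1, q2, q3⟩ <;> simp [*]
          · exact absurd rfl hne
          · refine Or.inr (Or.inr (Or.inr ⟨rfl, ?_⟩))
            rcases ih with q | ⟨q1, q2⟩ | ⟨q1, q2⟩ | ⟨q1, q2, q3⟩ | ⟨q1, q2, q3⟩ <;> simp [*]
        · rcases hex z with rfl | rfl | rfl | rfl
          · exact Or.inl rfl
          · rw [e5] at hD
            refine Or.inr (Or.inl ⟨rfl, ?_⟩)
            rcases ih with q | ⟨q1, q2⟩ | ⟨q1, q2⟩ | ⟨q1, q2, q3⟩ | ⟨q1, q2, q3⟩ <;> simp [*]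
          · rw [e6] at hD
            refine Or.inr (Or.inr (Or.inl ⟨rfl, ?_⟩))
            rcases ih with q | ⟨q1, q2⟩ | ⟨q1, q2⟩ | ⟨q1, q2, q3⟩ | ⟨q1, q2, q3⟩ <;> simp [*]
          · exact absurd rfl hne
    rcases key b h with h1 | h1 | h1 | h1
    · exact absurd h1.symm hab
    · exact h1.2
    · exact absurd h1.1 hbc
    · exact absurd h1.1 hbd
  · have e4 : ({c, b} : Finset (Fin 4)) = {b, c} := Finset.pair_comm _ _
    have e5 : ({d, b} : Finset (Fin 4)) = {b, d} := Finset.pair_comm _ _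
    have e6 : ({d, c} : Finset (Fin 4)) = {c, d} := Finset.pair_comm _ _
    rintro (h | ⟨h1, h2⟩ | ⟨h1, h2⟩ | ⟨h1, h2, h3⟩ | ⟨h1, h2, h3⟩)
    · exact adj hab h
    · exact (adj hac h1).trans' (adj hbc.symm (by rwa [e4]))
    · exact (adj had h1).trans' (adj hbd.symm (by rwa [e5]))
    · exact ((adj hac h1).trans' (adj hcd h2)).trans' (adj hbd.symm (by rwa [e5]))
    · exact ((adj had h1).trans' (adj hcd.symm (by rwa [e6]))).trans'
        (adj hbc.symm (by rwa [e4]))

open Classical in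
/-- Number of components satisfying a condition. -/
theorem gcomps_filter_card {D : Finset (Fin 4) → Prop} (hD : ∀ I J, I ⊆ J → D J → D I)
    (P : Finset (Fin 4) → Prop) {i j k l : Fin 4}
    (hij : i ≠ j) (hik : i ≠ k) (hil : i ≠ l) (hjk : j ≠ k) (hjl : j ≠ l) (hkl : k ≠ l) :
    ((gcomps D).filter P).card =
      (if D {i} ∧ P (gcomp D i) then 1 else 0)
      + (if D {j} ∧ P (gcomp D j) ∧ ¬ GConn D i j then 1 else 0)
      + (if D {k} ∧ P (gcomp D k) ∧ ¬ GConn D i k ∧ ¬ GConn D j k then 1 else 0)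
      + (if D {l} ∧ P (gcomp D l) ∧ ¬ GConn D i l ∧ ¬ GConn D j l ∧ ¬ GConn D k l
          then 1 else 0) := by
  have step : ∀ (T : Finset (Fin 4)) (a : Fin 4),
      (((insert a T).filter (fun x => D {x} ∧ P (gcomp D x))).image (gcomp D)).card =
      ((T.filter (fun x => D {x} ∧ P (gcomp D x))).image (gcomp D)).card +
      (if D {a} ∧ P (gcomp D a) ∧ ∀ b ∈ T, ¬ GConn D b a then 1 else 0) := by
    intro T a
    rw [Finset.filter_insert]
    by_cases h1 : D {a} ∧ P (gcomp D a)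
    · rw [if_pos h1, Finset.image_insert, Finset.card_insert_eq_ite]
      by_cases h2 : gcomp D a ∈ (T.filter (fun x => D {x} ∧ P (gcomp D x))).image (gcomp D)
      · rw [if_pos h2, if_neg, add_zero]
        rintro ⟨-, -, h3⟩
        obtain ⟨b, hb, hb2⟩ := Finset.mem_image.1 h2
        exact h3 b (Finset.mem_filter.1 hb).1 (gcomp_eq_iff.1 hb2)
      · rw [if_neg h2, if_pos]
        refine ⟨h1.1, h1.2, fun b hb hba => h2 ?_⟩
        have e : gcomp D b = gcomp D a := gcomp_eq_iff.2 hba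
        refine Finset.mem_image.2 ⟨b, Finset.mem_filter.2 ⟨hb, ?_, ?_⟩, e⟩
        · exact (GConn.symm' hba).vertex hD h1.1
        · rw [e]; exact h1.2
    · rw [if_neg h1, if_neg, add_zero]
      rintro ⟨h2, h3, -⟩
      exact h1 ⟨h2, h3⟩
  have e0 : (gcomps D).filter P =
      ((univ : Finset (Fin 4)).filter (fun x => D {x} ∧ P (gcomp D x))).image (gcomp D) := by
    ext c
    simp only [gcomps, Finset.mem_filter, Finset.mem_image, Finset.mem_univ, true_and]
    constructor
    · rintro ⟨⟨a, ha, rfl⟩, hP⟩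
      exact ⟨a, ⟨ha, hP⟩, rfl⟩
    · rintro ⟨a, ⟨ha, hP⟩, rfl⟩
      exact ⟨⟨a, ha, rfl⟩, hP⟩
  rw [e0, univ_four hij hik hil hjk hjl hkl, step, step, step]
  have e1 : (({i} : Finset (Fin 4)).filter (fun x => D {x} ∧ P (gcomp D x))).image (gcomp D)
      = (∅ : Finset (Fin 4)).image (gcomp D) ∪
        (if D {i} ∧ P (gcomp D i) then {gcomp D i} else ∅) := by
    rw [Finset.filter_singleton]
    by_cases h1 : D {i} ∧ P (gcomp D i)
    · simp [h1]
    · simp [h1]
  rw [e1]
  have e2 : ((∅ : Finset (Fin 4)).image (gcomp D) ∪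
        (if D {i} ∧ P (gcomp D i) then {gcomp D i} else ∅)).card =
        (if D {i} ∧ P (gcomp D i) then 1 else 0) := by
    by_cases h1 : D {i} ∧ P (gcomp D i)
    · simp [h1]
    · simp [h1]
  rw [e2]
  have q1 : (∀ b ∈ ({i} : Finset (Fin 4)), ¬ GConn D b j) ↔ ¬ GConn D i j := by simp
  have q2 : (∀ b ∈ ({j, i} : Finset (Fin 4)), ¬ GConn D b k) ↔
      (¬ GConn D i k ∧ ¬ GConn D j k) := by simp [and_comm]
  have q3 : (∀ b ∈ ({k, j, i} : Finset (Fin 4)), ¬ GConn D b l) ↔
      (¬ GConn D i l ∧ ¬ GConn D j l ∧ ¬ GConn D k l) := by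
    simp only [Finset.mem_insert, Finset.mem_singleton, forall_eq_or_imp, forall_eq]
    tauto
  simp only [q1, q2, q3]

theorem ite_toNat (p : Prop) [Decidable p] (b : Bool) (h : p ↔ b = true) :
    (if p then 1 else 0 : ℕ) = b.toNat := by
  cases b
  · rw [if_neg (by simpa using h)]; rfl
  · rw [if_pos (by simpa using h)]; rfl

open Classical in
theorem gcomps_card_bool0 {D : Finset (Fin 4) → Prop} (hD : ∀ I J, I ⊆ J → D J → D I)
    (P : Finset (Fin 4) → Prop) {i j k l : Fin 4}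
    (hij : i ≠ j) (hik : i ≠ k) (hil : i ≠ l) (hjk : j ≠ k) (hjl : j ≠ l) (hkl : k ≠ l)
    (b1 b2 b3 b4 : Bool) (h1 : (D {i} ∧ P (gcomp D i)) ↔ b1 = true)
    (h2 : (D {j} ∧ P (gcomp D j) ∧ ¬ GConn D i j) ↔ b2 = true)
    (h3 : (D {k} ∧ P (gcomp D k) ∧ ¬ GConn D i k ∧ ¬ GConn D j k) ↔ b3 = true)
    (h4 : (D {l} ∧ P (gcomp D l) ∧ ¬ GConn D i l ∧ ¬ GConn D j l ∧ ¬ GConn D k l)
      ↔ b4 = true) :
    ((gcomps D).filter P).card = b1.toNat + b2.toNat + b3.toNat + b4.toNat := by
  have := gcomps_filter_card hD P hij hik hil hjk hjl hkl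
  rw [ite_toNat _ b1 h1, ite_toNat _ b2 h2, ite_toNat _ b3 h3, ite_toNat _ b4 h4] at this
  exact this

theorem gcomps_card_bool {D : Finset (Fin 4) → Prop} (hD : ∀ I J, I ⊆ J → D J → D I)
    (P : Finset (Fin 4) → Prop) [DecidablePred P] {i j k l : Fin 4}
    (hij : i ≠ j) (hik : i ≠ k) (hil : i ≠ l) (hjk : j ≠ k) (hjl : j ≠ l) (hkl : k ≠ l)
    (b1 b2 b3 b4 : Bool) (h1 : (D {i} ∧ P (gcomp D i)) ↔ b1 = true)
    (h2 : (D {j} ∧ P (gcomp D j) ∧ ¬ GConn D i j) ↔ b2 = true)
    (h3 : (D {k} ∧ P (gcomp D k) ∧ ¬ GConn D i k ∧ ¬ GConn D j k) ↔ b3 = true)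
    (h4 : (D {l} ∧ P (gcomp D l) ∧ ¬ GConn D i l ∧ ¬ GConn D j l ∧ ¬ GConn D k l)
      ↔ b4 = true) :
    ((gcomps D).filter P).card = b1.toNat + b2.toNat + b3.toNat + b4.toNat := by
  have := gcomps_card_bool0 hD P hij hik hil hjk hjl hkl b1 b2 b3 b4 h1 h2 h3 h4
  rw [← this]
  congr

/-! ### the finite check -/

/-- quantifier over `Bool` -/
def allB (f : Bool → Bool) : Bool := f false && f true

theorem allB_iff {f : Bool → Bool} : allB f = true ↔ ∀ b, f b = true := by
  simp [allB]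

/-- implication -/
def imB (a b : Bool) : Bool := cond a b true

theorem imB_iff {a b : Bool} : imB a b = true ↔ (a = true → b = true) := by
  cases a <;> simp [imB]

/-- the identity, with `c` the truth values of the relation of being connected -/
def kapCore (vi vj vk vl eij eik eil ejk ejl Li Lj Lk Ll zC c cij cik cil cjk cjl ckl : Bool) :
    Bool :=
  Nat.beq (vi.toNat + (vj && !cij).toNat + (vk && !cik && !cjk).toNat
        + (vl && !cil && !cjl && !ckl).toNat - 1
      + (zC && ((vk && !Lk) || (vl && !Ll))).toNat + (c && ((vk && !Lk) || (vl && !Ll))).toNat)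
    ((vi && (Li || (cij && Lj) || (cik && Lk) || (cil && Ll))).toNat
        + (vj && ((cij && Li) || Lj || (cjk && Lk) || (cjl && Ll)) && !cij).toNat
        + (vk && ((cik && Li) || (cjk && Lj) || Lk || (ckl && Ll)) && !cik && !cjk).toNat
        + (vl && ((cil && Li) || (cjl && Lj) || (ckl && Lk) || Ll) && !cil && !cjl
            && !ckl).toNat - 1
      + (vi && !Li && !eij && !eik && !eil).toNat + (vj && !Lj && !eij && !ejk && !ejl).toNat
      + (vk && !Lk).toNat + (vl && !Ll).toNat)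

/-- the check -/
def kapCheck : Bool :=
  allB fun vi => allB fun vj => allB fun vk => allB fun vl =>
  allB fun eij => imB (imB eij (vi && vj)) <|
  allB fun eik => imB (imB eik (vi && vk)) <|
  allB fun eil => imB (imB eil (vi && vl)) <|
  allB fun ejk => imB (imB ejk (vj && vk)) <|
  allB fun ejl => imB (imB ejl (vj && vl)) <|
  allB fun ekl => imB (imB ekl (vk && vl)) <|
  allB fun Li => imB (imB Li vi) <| imB (imB eij Li) <|
  allB fun Lj => imB (imB Lj vj) <| imB (imB eij Lj) <|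
  allB fun Lk => imB (imB Lk vk) <| imB (imB eik Lk) <| imB (imB ejk Lk) <|
  allB fun Ll => imB (imB Ll vl) <| imB (imB eil Ll) <| imB (imB ejl Ll) <|
  allB fun zC => imB (imB zC (!vi && !vj && !Lk && !Ll)) <|
    imB (zC || Li || Lj || Lk || Ll || !(vi || vj || vk || vl)) <|
  allB fun c => imB (imB c ekl) <| imB (imB ekl (c || (Lk && Ll))) <|
  kapCore vi vj vk vl eij eik eil ejk ejl Li Lj Lk Ll zC c
    (eij || (eik && ejk) || (eil && ejl) || (eik && ekl && ejl) || (eil && ekl && ejk))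
    (eik || (eij && ejk) || (eil && ekl) || (eij && ejl && ekl) || (eil && ejl && ejk))
    (eil || (eij && ejl) || (eik && ekl) || (eij && ejk && ekl) || (eik && ejk && ejl))
    (ejk || (eij && eik) || (ejl && ekl) || (eij && eil && ekl) || (ejl && eil && eik))
    (ejl || (eij && eil) || (ejk && ekl) || (eij && eik && ekl) || (ejk && eik && eil))
    (ekl || (eik && eil) || (ejk && ejl) || (eik && eij && ejl) || (ejk && eij && eil))

theorem kapCheck_true : kapCheck = true := by decide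

theorem kap_bool (vi vj vk vl eij eik eil ejk ejl ekl Li Lj Lk Ll zC c : Bool)
    (h1 : eij = true → vi = true ∧ vj = true) (h2 : eik = true → vi = true ∧ vk = true)
    (h3 : eil = true → vi = true ∧ vl = true) (h4 : ejk = true → vj = true ∧ vk = true)
    (h5 : ejl = true → vj = true ∧ vl = true) (h6 : ekl = true → vk = true ∧ vl = true)
    (h7 : Li = true → vi = true) (h8 : eij = true → Li = true)
    (h9 : Lj = true → vj = true) (h10 : eij = true → Lj = true)
    (h11 : Lk = true → vk = true) (h12 : eik = true → Lk = true) (h13 : ejk = true → Lk = true)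
    (h14 : Ll = true → vl = true) (h15 : eil = true → Ll = true) (h16 : ejl = true → Ll = true)
    (h17 : zC = true → ¬ (vi = true) ∧ ¬ (vj = true) ∧ ¬ (Lk = true) ∧ ¬ (Ll = true))
    (h18 : zC = true ∨ (Li = true ∨ Lj = true ∨ Lk = true ∨ Ll = true) ∨
      ¬ (vi = true ∨ vj = true ∨ vk = true ∨ vl = true))
    (h19 : c = true → ekl = true) (h20 : ekl = true → c = true ∨ (Lk = true ∧ Ll = true)) :
    kapCore vi vj vk vl eij eik eil ejk ejl Li Lj Lk Ll zC c
    (eij || (eik && ejk) || (eil && ejl) || (eik && ekl && ejl) || (eil && ekl && ejk))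
    (eik || (eij && ejk) || (eil && ekl) || (eij && ejl && ekl) || (eil && ejl && ejk))
    (eil || (eij && ejl) || (eik && ekl) || (eij && ejk && ekl) || (eik && ejk && ejl))
    (ejk || (eij && eik) || (ejl && ekl) || (eij && eil && ekl) || (ejl && eil && eik))
    (ejl || (eij && eil) || (ejk && ekl) || (eij && eik && ekl) || (ejk && eik && eil))
    (ekl || (eik && eil) || (ejk && ejl) || (eik && eij && ejl) || (ejk && eij && eil)) = true := by
  have K := kapCheck_true
  unfold kapCheck at K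
  have K := imB_iff.1 (allB_iff.1 (allB_iff.1 (allB_iff.1 (allB_iff.1 (allB_iff.1 K vi) vj) vk) vl) eij)
    (imB_iff.2 (by simpa using h1))
  have K := imB_iff.1 (allB_iff.1 K eik) (imB_iff.2 (by simpa using h2))
  have K := imB_iff.1 (allB_iff.1 K eil) (imB_iff.2 (by simpa using h3))
  have K := imB_iff.1 (allB_iff.1 K ejk) (imB_iff.2 (by simpa using h4))
  have K := imB_iff.1 (allB_iff.1 K ejl) (imB_iff.2 (by simpa using h5))
  have K := imB_iff.1 (allB_iff.1 K ekl) (imB_iff.2 (by simpa using h6))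
  have K := imB_iff.1 (imB_iff.1 (allB_iff.1 K Li) (imB_iff.2 h7)) (imB_iff.2 h8)
  have K := imB_iff.1 (imB_iff.1 (allB_iff.1 K Lj) (imB_iff.2 h9)) (imB_iff.2 h10)
  have K := imB_iff.1 (imB_iff.1 (imB_iff.1 (allB_iff.1 K Lk) (imB_iff.2 h11)) (imB_iff.2 h12))
    (imB_iff.2 h13)
  have K := imB_iff.1 (imB_iff.1 (imB_iff.1 (allB_iff.1 K Ll) (imB_iff.2 h14)) (imB_iff.2 h15))
    (imB_iff.2 h16)
  have K := imB_iff.1 (imB_iff.1 (allB_iff.1 K zC)
    (imB_iff.2 (by simpa [and_assoc] using h17)))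
    (by simpa only [Bool.or_eq_true, Bool.not_eq_true', ← Bool.not_eq_true, or_assoc] using h18)
  exact imB_iff.1 (imB_iff.1 (allB_iff.1 K c) (imB_iff.2 h19)) (imB_iff.2 (by simpa using h20))

theorem kapCore_eq {vi vj vk vl eij eik eil ejk ejl Li Lj Lk Ll zC c cij cik cil cjk cjl ckl :
    Bool}
    (h : kapCore vi vj vk vl eij eik eil ejk ejl Li Lj Lk Ll zC c cij cik cil cjk cjl ckl = true) :
    (vi.toNat + (vj && !cij).toNat + (vk && !cik && !cjk).toNat
        + (vl && !cil && !cjl && !ckl).toNat - 1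
      + (zC && ((vk && !Lk) || (vl && !Ll))).toNat + (c && ((vk && !Lk) || (vl && !Ll))).toNat) =
    ((vi && (Li || (cij && Lj) || (cik && Lk) || (cil && Ll))).toNat
        + (vj && ((cij && Li) || Lj || (cjk && Lk) || (cjl && Ll)) && !cij).toNat
        + (vk && ((cik && Li) || (cjk && Lj) || Lk || (ckl && Ll)) && !cik && !cjk).toNat
        + (vl && ((cil && Li) || (cjl && Lj) || (ckl && Lk) || Ll) && !cil && !cjl
            && !ckl).toNat - 1
      + (vi && !Li && !eij && !eik && !eil).toNat + (vj && !Lj && !eij && !ejk && !ejl).toNat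
      + (vk && !Lk).toNat + (vl && !Ll).toNat) := Nat.eq_of_beq_eq_true h

theorem ite_toInt (p : Prop) [Decidable p] (b : Bool) (h : p ↔ b = true) :
    (if p then 1 else 0 : ℤ) = (b.toNat : ℤ) := by
  cases b
  · rw [if_neg (by simpa using h)]; rfl
  · rw [if_pos (by simpa using h)]; rfl

open Classical in
theorem kappa (h : Sg n S F) {f : ℤ} (hf : f ∈ PF n S) {i j k l : Fin 4} (hij : i ≠ j)
    (hik : i ≠ k) (hil : i ≠ l) (hjk : j ≠ k) (hjl : j ≠ l) (hkl : k ≠ l)
    (hi : AA n S f i) (hj : AA n S f j) (z : ℤ) :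
    (bX n (KK S F) z : ℤ) = rho n S F f z
      + (if F - (z - n i) ∈ PF n S ∧ F - (z - n i) ≠ f then 1 else 0)
      + (if F - (z - n j) ∈ PF n S ∧ F - (z - n j) ≠ f then 1 else 0)
      + e2 (CC S F f) (n k) (n l) z := by
  have hD : ∀ I J, I ⊆ J → cx n (KK S F) z J → cx n (KK S F) z I :=
    fun I J hIJ hJ => cx_down (fun x hx a => h.KK_add_gen hx a) hIJ hJ
  have vI : ∀ a, cx n (KK S F) z {a} ↔ z - n a ∈ KK S F := fun a => cx_single
  have eI : ∀ a b, a ≠ b → (cx n (KK S F) z {a, b} ↔ z - n a - n b ∈ KK S F) :=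
    fun a b hab => cx_pair hab
  have hdK : F - f ∈ KK S F := h.dg_mem_KK hf
  unfold bX rho gb ghit
  generalize hDg : cx n (KK S F) z = D at *
  obtain ⟨L, hL⟩ : ∃ L : Fin 4 → Prop, L = fun a => z - (F - f) - n a ∈ S := ⟨_, rfl⟩
  have hLi : ∀ a, L a ↔ z - (F - f) - n a ∈ S := fun a => by rw [hL]
  rw [← hL]
  have dS : ∀ x, x - (F - f) ∈ S → x ∈ KK S F := fun x hx => by
    have := h.KK_add hdK hx
    rwa [show F - f + (x - (F - f)) = x by ring] at this
  have LV : ∀ a, L a → D {a} := by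
    intro a ha
    rw [vI]; apply dS
    rw [hLi] at ha
    rwa [show z - n a - (F - f) = z - (F - f) - n a by ring]
  have eL : ∀ a, AA n S f a → ∀ b, a ≠ b → D {a, b} → L b := by
    intro a ha b hab hD'
    rw [eI a b hab] at hD'
    rw [hLi]
    by_cases hs : z - n a - n b - (F - f) ∈ S
    · have := h.add_gen hs a
      rwa [show z - n a - n b - (F - f) + n a = z - (F - f) - n b by ring] at this
    · have := h.CC_kill ha (x := z - n a - n b) ⟨hD', hs⟩
      rwa [show z - n a - n b + n a - (F - f) = z - (F - f) - n b by ring] at this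
  have zC1 : z ∈ CC S F f → ∀ a, ¬ L a := by
    intro hz a ha
    rw [hLi] at ha
    apply hz.2
    have := h.add_gen ha a
    rwa [show z - (F - f) - n a + n a = z - (F - f) by ring] at this
  have zC2 : ∀ a, AA n S f a → z ∈ CC S F f → ¬ D {a} := by
    intro a ha hz hd
    rw [vI] at hd
    apply hz.2
    have := h.CC_kill ha (CC_sub h.add (h.gen a) hz hd)
    rwa [show z - n a + n a - (F - f) = z - (F - f) by ring] at this
  have zL : z ∈ CC S F f ∨ (∃ a, L a) ∨ ¬ ∃ a, D {a} := by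
    by_cases hv : ∃ a, D {a}
    · obtain ⟨a, ha⟩ := hv
      rw [vI] at ha
      have hzK : z ∈ KK S F := by
        have := h.KK_add_gen ha a
        rwa [show z - n a + n a = z by ring] at this
      by_cases hs : z - (F - f) ∈ S
      · by_cases h0 : z - (F - f) = 0
        · exfalso
          apply h.dg_sub_notMem hf a
          rwa [show F - f - n a = z - n a by omega]
        · obtain ⟨b, hb⟩ := h.dec _ hs h0
          exact Or.inr (Or.inl ⟨b, by rw [hLi]; exact hb⟩)
      · exact Or.inl ⟨hzK, hs⟩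
    · exact Or.inr (Or.inr hv)
  have pI : ∀ a, AA n S f a → ((F - (z - n a) ∈ PF n S ∧ F - (z - n a) ≠ f) ↔
      (D {a} ∧ ¬ L a ∧ ∀ b, a ≠ b → ¬ D {a, b})) := by
    intro a ha
    constructor
    · rintro ⟨hpf, hne⟩
      refine ⟨?_, ?_, ?_⟩
      · rw [vI]; exact hpf.1
      · rw [hLi]
        have := h.pf_sub hpf hf hne
        rwa [show f - (F - (z - n a)) = z - (F - f) - n a by ring] at this
      · intro b hab hD'
        rw [eI a b hab, mem_KK] at hD'
        apply hD'
        have := hpf.2 b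
        rwa [show F - (z - n a) + n b = F - (z - n a - n b) by ring] at this
    · rintro ⟨hv, hl, hb⟩
      rw [vI] at hv
      rw [hLi] at hl
      refine ⟨⟨hv, fun b => ?_⟩, ?_⟩
      · by_contra hc
        have hK : z - n a - n b ∈ KK S F := by
          rw [mem_KK]
          rwa [show F - (z - n a - n b) = F - (z - n a) + n b by ring]
        by_cases hab : a = b
        · subst hab
          have hC : z - n a ∈ CC S F f := by
            refine ⟨hv, ?_⟩
            rwa [show z - n a - (F - f) = z - (F - f) - n a by ring]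
          have := h.CC_kill ha (CC_sub h.add (h.gen a) hC hK)
          rw [show z - n a - n a + n a - (F - f) = z - (F - f) - n a by ring] at this
          exact hl this
        · exact hb b hab ((eI a b hab).2 hK)
      · intro he
        apply hl
        rw [show z - (F - f) - n a = 0 by omega]
        exact h.zero
  have cV : ∀ a, z - n a ∈ CC S F f ↔ (D {a} ∧ ¬ L a) := by
    intro a
    rw [vI, hLi, show z - (F - f) - n a = z - n a - (F - f) by ring]
    rfl
  have cE : z - n k - n l ∈ CC S F f → D {k, l} := by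
    intro hc
    rw [eI k l hkl]; exact hc.1
  have cE2 : D {k, l} → z - n k - n l ∈ CC S F f ∨ (L k ∧ L l) := by
    intro hd
    rw [eI k l hkl] at hd
    by_cases hs : z - n k - n l - (F - f) ∈ S
    · right
      rw [hLi, hLi]
      constructor
      · have := h.add_gen hs l
        rwa [show z - n k - n l - (F - f) + n l = z - (F - f) - n k by ring] at this
      · have := h.add_gen hs k
        rwa [show z - n k - n l - (F - f) + n k = z - (F - f) - n l by ring] at this
    · exact Or.inl ⟨hd, hs⟩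
  have hex : ∀ x : Fin 4, x = i ∨ x = j ∨ x = k ∨ x = l := by
    clear * - hij hik hil hjk hjl hkl
    revert i j k l; decide
  have exL : (∃ a, L a) ↔ (L i ∨ L j ∨ L k ∨ L l) := by
    constructor
    · rintro ⟨a, ha⟩
      rcases hex a with rfl | rfl | rfl | rfl <;> simp [ha]
    · rintro (h | h | h | h)
      exacts [⟨_, h⟩, ⟨_, h⟩, ⟨_, h⟩, ⟨_, h⟩]
  have exD : (∃ a, D {a}) ↔ (D {i} ∨ D {j} ∨ D {k} ∨ D {l}) := by
    constructor
    · rintro ⟨a, ha⟩
      rcases hex a with rfl | rfl | rfl | rfl <;> simp [ha]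
    · rintro (h | h | h | h)
      exacts [⟨_, h⟩, ⟨_, h⟩, ⟨_, h⟩, ⟨_, h⟩]
  have hit : ∀ x, (∃ a ∈ gcomp D x, L a) ↔ ((GConn D x i ∧ L i) ∨ (GConn D x j ∧ L j) ∨
      (GConn D x k ∧ L k) ∨ (GConn D x l ∧ L l)) := by
    intro x
    simp only [mem_gcomp]
    constructor
    · rintro ⟨a, ha, hl⟩
      rcases hex a with rfl | rfl | rfl | rfl <;> simp [ha, hl]
    · rintro (h | h | h | h)
      exacts [⟨_, h⟩, ⟨_, h⟩, ⟨_, h⟩, ⟨_, h⟩]
  have sub1 : ∀ a b, D {a, b} → D {a} := fun a b hd => hD _ _ (by simp) hd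
  have sub2 : ∀ a b, D {a, b} → D {b} := fun a b hd => hD _ _ (by simp) hd
  have pci : ({j, i} : Finset (Fin 4)) = {i, j} := Finset.pair_comm _ _
  have pcki : ({k, i} : Finset (Fin 4)) = {i, k} := Finset.pair_comm _ _
  have pcli : ({l, i} : Finset (Fin 4)) = {i, l} := Finset.pair_comm _ _
  have pckj : ({k, j} : Finset (Fin 4)) = {j, k} := Finset.pair_comm _ _
  have pclj : ({l, j} : Finset (Fin 4)) = {j, l} := Finset.pair_comm _ _
  have pclk : ({l, k} : Finset (Fin 4)) = {k, l} := Finset.pair_comm _ _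
  have cij := conn_iff (D := D) hij hik hil hjk hjl hkl
  have cik := conn_iff (D := D) hik hij hil hjk.symm hkl hjl
  have cil := conn_iff (D := D) hil hij hik hjl.symm hkl.symm hjk
  have cjk := conn_iff (D := D) hjk hij.symm hjl hik.symm hkl hil
  have cjl := conn_iff (D := D) hjl hij.symm hjk hil.symm hkl.symm hik
  have ckl := conn_iff (D := D) hkl hik.symm hjk.symm hil.symm hjl.symm hij
  simp only [pci, pcki, pcli, pckj, pclj, pclk] at cij cik cil cjk cjl ckl
  have hb : ∀ p : Prop, ∃ b : Bool, b = true ↔ p := fun p => ⟨decide p, by simp⟩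
  obtain ⟨vi, hvi⟩ := hb (D {i})
  obtain ⟨vj, hvj⟩ := hb (D {j})
  obtain ⟨vk, hvk⟩ := hb (D {k})
  obtain ⟨vl, hvl⟩ := hb (D {l})
  obtain ⟨eij, heij⟩ := hb (D {i, j})
  obtain ⟨eik, heik⟩ := hb (D {i, k})
  obtain ⟨eil, heil⟩ := hb (D {i, l})
  obtain ⟨ejk, hejk⟩ := hb (D {j, k})
  obtain ⟨ejl, hejl⟩ := hb (D {j, l})
  obtain ⟨ekl, hekl⟩ := hb (D {k, l})
  obtain ⟨Li, hLI⟩ := hb (L i)
  obtain ⟨Lj, hLJ⟩ := hb (L j)
  obtain ⟨Lk, hLK⟩ := hb (L k)
  obtain ⟨Ll, hLL⟩ := hb (L l)
  obtain ⟨zC, hzC⟩ := hb (z ∈ CC S F f)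
  obtain ⟨c, hc⟩ := hb (z - n k - n l ∈ CC S F f)
  obtain ⟨gij, hgij⟩ := hb (GConn D i j)
  obtain ⟨gik, hgik⟩ := hb (GConn D i k)
  obtain ⟨gil, hgil⟩ := hb (GConn D i l)
  obtain ⟨gjk, hgjk⟩ := hb (GConn D j k)
  obtain ⟨gjl, hgjl⟩ := hb (GConn D j l)
  obtain ⟨gkl, hgkl⟩ := hb (GConn D k l)
  have K1 := kap_bool vi vj vk vl eij eik eil ejk ejl ekl Li Lj Lk Ll zC c
    (by rw [heij, hvi, hvj]; exact fun hd => ⟨sub1 _ _ hd, sub2 _ _ hd⟩)
    (by rw [heik, hvi, hvk]; exact fun hd => ⟨sub1 _ _ hd, sub2 _ _ hd⟩)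
    (by rw [heil, hvi, hvl]; exact fun hd => ⟨sub1 _ _ hd, sub2 _ _ hd⟩)
    (by rw [hejk, hvj, hvk]; exact fun hd => ⟨sub1 _ _ hd, sub2 _ _ hd⟩)
    (by rw [hejl, hvj, hvl]; exact fun hd => ⟨sub1 _ _ hd, sub2 _ _ hd⟩)
    (by rw [hekl, hvk, hvl]; exact fun hd => ⟨sub1 _ _ hd, sub2 _ _ hd⟩)
    (by rw [hLI, hvi]; exact LV i)
    (by rw [heij, hLI]; exact fun hd => eL j hj i hij.symm (by rwa [pci]))
    (by rw [hLJ, hvj]; exact LV j)
    (by rw [heij, hLJ]; exact fun hd => eL i hi j hij hd)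
    (by rw [hLK, hvk]; exact LV k)
    (by rw [heik, hLK]; exact fun hd => eL i hi k hik hd)
    (by rw [hejk, hLK]; exact fun hd => eL j hj k hjk hd)
    (by rw [hLL, hvl]; exact LV l)
    (by rw [heil, hLL]; exact fun hd => eL i hi l hil hd)
    (by rw [hejl, hLL]; exact fun hd => eL j hj l hjl hd)
    (by rw [hzC, hvi, hvj, hLK, hLL]
        exact fun hz => ⟨zC2 i hi hz, zC2 j hj hz, zC1 hz k, zC1 hz l⟩)
    (by rw [hzC, hLI, hLJ, hLK, hLL, hvi, hvj, hvk, hvl, ← exL, ← exD]; exact zL)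
    (by rw [hc, hekl]; exact cE)
    (by rw [hc, hekl, hLK, hLL]; exact cE2)
  have bij : (eij || (eik && ejk) || (eil && ejl) || (eik && ekl && ejl) ||
      (eil && ekl && ejk)) = gij := by
    rw [Bool.eq_iff_iff, hgij, cij]
    simp only [Bool.or_eq_true, Bool.and_eq_true, heij, heik, heil, hejk, hejl, hekl,
      and_assoc, or_assoc]
  have bik : (eik || (eij && ejk) || (eil && ekl) || (eij && ejl && ekl) ||
      (eil && ejl && ejk)) = gik := by
    rw [Bool.eq_iff_iff, hgik, cik]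
    simp only [Bool.or_eq_true, Bool.and_eq_true, heij, heik, heil, hejk, hejl, hekl,
      and_assoc, or_assoc]
  have bil : (eil || (eij && ejl) || (eik && ekl) || (eij && ejk && ekl) ||
      (eik && ejk && ejl)) = gil := by
    rw [Bool.eq_iff_iff, hgil, cil]
    simp only [Bool.or_eq_true, Bool.and_eq_true, heij, heik, heil, hejk, hejl, hekl,
      and_assoc, or_assoc]
  have bjk : (ejk || (eij && eik) || (ejl && ekl) || (eij && eil && ekl) ||
      (ejl && eil && eik)) = gjk := by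
    rw [Bool.eq_iff_iff, hgjk, cjk]
    simp only [Bool.or_eq_true, Bool.and_eq_true, heij, heik, heil, hejk, hejl, hekl,
      and_assoc, or_assoc]
  have bjl : (ejl || (eij && eil) || (ejk && ekl) || (eij && eik && ekl) ||
      (ejk && eik && eil)) = gjl := by
    rw [Bool.eq_iff_iff, hgjl, cjl]
    simp only [Bool.or_eq_true, Bool.and_eq_true, heij, heik, heil, hejk, hejl, hekl,
      and_assoc, or_assoc]
  have bkl : (ekl || (eik && eil) || (ejk && ejl) || (eik && eij && ejl) ||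
      (ejk && eij && eil)) = gkl := by
    rw [Bool.eq_iff_iff, hgkl, ckl]
    simp only [Bool.or_eq_true, Bool.and_eq_true, heij, heik, heil, hejk, hejl, hekl,
      and_assoc, or_assoc]
  rw [bij, bik, bil, bjk, bjl, bkl] at K1
  have K2 := kapCore_eq K1
  have rfi : GConn D i i := Relation.ReflTransGen.refl
  have rfj : GConn D j j := Relation.ReflTransGen.refl
  have rfk : GConn D k k := Relation.ReflTransGen.refl
  have rfl' : GConn D l l := Relation.ReflTransGen.refl
  have sij : GConn D j i ↔ GConn D i j := ⟨GConn.symm', GConn.symm'⟩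
  have sik : GConn D k i ↔ GConn D i k := ⟨GConn.symm', GConn.symm'⟩
  have sil : GConn D l i ↔ GConn D i l := ⟨GConn.symm', GConn.symm'⟩
  have sjk : GConn D k j ↔ GConn D j k := ⟨GConn.symm', GConn.symm'⟩
  have sjl : GConn D l j ↔ GConn D j l := ⟨GConn.symm', GConn.symm'⟩
  have skl : GConn D l k ↔ GConn D k l := ⟨GConn.symm', GConn.symm'⟩
  have card0 : (gcomps D).card = vi.toNat + (vj && !gij).toNat + (vk && !gik && !gjk).toNat +
      (vl && !gil && !gjl && !gkl).toNat := by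
    have := gcomps_card_bool hD (fun _ => True) hij hik hil hjk hjl hkl
      vi (vj && !gij) (vk && !gik && !gjk) (vl && !gil && !gjl && !gkl)
      (by rw [hvi]; simp)
      (by simp only [Bool.and_eq_true, Bool.not_eq_true', ← Bool.not_eq_true, hvj, hgij,
            true_and])
      (by simp only [Bool.and_eq_true, Bool.not_eq_true', ← Bool.not_eq_true, hvk, hgik,
            hgjk, true_and, and_assoc])
      (by simp only [Bool.and_eq_true, Bool.not_eq_true', ← Bool.not_eq_true, hvl, hgil,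
            hgjl, hgkl, true_and, and_assoc])
    rwa [Finset.filter_true] at this
  have card1 := gcomps_card_bool hD (fun c => ∃ a ∈ c, L a) hij hik hil hjk hjl hkl
    (vi && (Li || (gij && Lj) || (gik && Lk) || (gil && Ll)))
    (vj && ((gij && Li) || Lj || (gjk && Lk) || (gjl && Ll)) && !gij)
    (vk && ((gik && Li) || (gjk && Lj) || Lk || (gkl && Ll)) && !gik && !gjk)
    (vl && ((gil && Li) || (gjl && Lj) || (gkl && Lk) || Ll) && !gil && !gjl && !gkl)
      (by simp only [hit, Bool.and_eq_true, Bool.or_eq_true, hvi, hLI, hLJ, hLK, hLL, hgij, hgik,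
            hgil, rfi, true_and, or_assoc])
      (by simp only [hit, Bool.and_eq_true, Bool.or_eq_true, hvj, hLI, hLJ, hLK, hLL, hgij, hgjk,
            hgjl, rfj, sij, true_and, or_assoc, and_assoc, Bool.not_eq_true',
            ← Bool.not_eq_true])
      (by simp only [hit, Bool.and_eq_true, Bool.or_eq_true, hvk, hLI, hLJ, hLK, hLL, hgik, hgjk,
            hgkl, rfk, sik, sjk, true_and, or_assoc, and_assoc, Bool.not_eq_true',
            ← Bool.not_eq_true])
      (by simp only [hit, Bool.and_eq_true, Bool.or_eq_true, hvl, hLI, hLJ, hLK, hLL, hgil, hgjl,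
            hgkl, rfl', sil, sjl, skl, true_and, or_assoc, and_assoc, Bool.not_eq_true',
            ← Bool.not_eq_true])
  rw [card0, card1]
  have fi : (F - (z - n i) ∈ PF n S ∧ F - (z - n i) ≠ f) ↔
      (vi && !Li && !eij && !eik && !eil) = true := by
    rw [pI i hi]
    simp only [Bool.and_eq_true, Bool.not_eq_true', ← Bool.not_eq_true, hvi, hLI, heij, heik,
      heil, and_assoc]
    constructor
    · rintro ⟨q1, q2, q3⟩
      exact ⟨q1, q2, q3 j hij, q3 k hik, q3 l hil⟩
    · rintro ⟨q1, q2, q3, q4, q5⟩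
      refine ⟨q1, q2, fun b hib => ?_⟩
      rcases hex b with rfl | rfl | rfl | rfl
      · exact absurd rfl hib
      · exact q3
      · exact q4
      · exact q5
  have fj : (F - (z - n j) ∈ PF n S ∧ F - (z - n j) ≠ f) ↔
      (vj && !Lj && !eij && !ejk && !ejl) = true := by
    rw [pI j hj]
    simp only [Bool.and_eq_true, Bool.not_eq_true', ← Bool.not_eq_true, hvj, hLJ, heij, hejk,
      hejl, and_assoc]
    constructor
    · rintro ⟨q1, q2, q3⟩
      exact ⟨q1, q2, by rw [← pci]; exact q3 i hij.symm, q3 k hjk, q3 l hjl⟩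
    · rintro ⟨q1, q2, q3, q4, q5⟩
      refine ⟨q1, q2, fun b hib => ?_⟩
      rcases hex b with rfl | rfl | rfl | rfl
      · rw [pci]; exact q3
      · exact absurd rfl hib
      · exact q4
      · exact q5
  rw [ite_toInt _ _ fi, ite_toInt _ _ fj]
  unfold e2
  rw [ite_toInt _ (vk && !Lk) (by
      rw [cV]; simp only [Bool.and_eq_true, Bool.not_eq_true', ← Bool.not_eq_true, hvk, hLK]),
    ite_toInt _ (vl && !Ll) (by
      rw [cV]; simp only [Bool.and_eq_true, Bool.not_eq_true', ← Bool.not_eq_true, hvl, hLL]),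
    ite_toInt _ (zC && ((vk && !Lk) || (vl && !Ll))) (by
      rw [cV, cV]; simp only [Bool.and_eq_true, Bool.or_eq_true, Bool.not_eq_true',
        ← Bool.not_eq_true, hvl, hLL, hvk, hLK, hzC]),
    ite_toInt _ (c && ((vk && !Lk) || (vl && !Ll))) (by
      rw [cV, cV]; simp only [Bool.and_eq_true, Bool.or_eq_true, Bool.not_eq_true',
        ← Bool.not_eq_true, hvl, hLL, hvk, hLK, hc])]
  omega

end H70NG
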