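import Mathlib

/-!
# MP_cc5e36_al: definitions of the problem

Numerical semigroups, pseudo-Frobenius numbers, type, canonical ideal, almost symmetric and nearly
Gorenstein semigroups, the defining ideal and its minimal number of generators.
-/

open scoped Pointwise

namespace H70NG

/-- `n 0, …, n 3` are the minimal generators of the numerical semigroup `S`
(a submonoid of `ℕ` with finite complement): they generate `S` and none of them is in the
submonoid generated by the others. -/
structure MinGen (n : Fin 4 → ℕ) (S : AddSubmonoid ℕ) : Prop where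
  cofinite : ((S : Set ℕ)ᶜ).Finite
  closure_eq : AddSubmonoid.closure (Set.range n) = S
  minimal : ∀ i, n i ∉ AddSubmonoid.closure (n '' {i}ᶜ)

/-- `S` as a set of integers. -/
def SZ (S : AddSubmonoid ℕ) : Set ℤ := (fun x : ℕ => (x : ℤ)) '' (S : Set ℕ)

/-- `M = S \ {0}`. -/
def MZ (S : AddSubmonoid ℕ) : Set ℤ := SZ S \ {0}

/-- `F` is the Frobenius number of `S`: the largest integer not in `S`. -/
def IsFrob (S : AddSubmonoid ℕ) (F : ℤ) : Prop := IsGreatest (SZ S)ᶜ F

/-- Pseudo-Frobenius numbers: the `f ∈ ℤ \ S` with `f + M ⊆ S`. -/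
def PFZ (S : AddSubmonoid ℕ) : Set ℤ := {f | f ∉ SZ S ∧ ∀ s ∈ MZ S, f + s ∈ SZ S}

/-- The type of `S`: the number of pseudo-Frobenius numbers. -/
noncomputable def sgType (S : AddSubmonoid ℕ) : ℕ := (PFZ S).ncard

/-- The standard canonical ideal `K = {x : F - x ∉ S}`. -/
def KZ (S : AddSubmonoid ℕ) (F : ℤ) : Set ℤ := {x | F - x ∉ SZ S}

/-- `A - B = {x : x + B ⊆ A}`. -/
def colon (A B : Set ℤ) : Set ℤ := {x | ∀ b ∈ B, x + b ∈ A}

/-- `S` is almost symmetric: `K + M ⊆ M`. -/
def AlmostSymmetric (S : AddSubmonoid ℕ) (F : ℤ) : Prop := KZ S F + MZ S ⊆ MZ S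

/-- `S` is nearly Gorenstein: `M ⊆ K + (S - K)`. -/
def NearlyGorenstein (S : AddSubmonoid ℕ) (F : ℤ) : Prop :=
  MZ S ⊆ KZ S F + colon (SZ S) (KZ S F)

/-- The defining ideal: kernel of `k[x_0, …, x_3] → k[t]`, `x_i ↦ t ^ n_i`. -/
noncomputable def defIdeal (k : Type*) [Field k] (n : Fin 4 → ℕ) :
    Ideal (MvPolynomial (Fin 4) k) :=
  RingHom.ker (MvPolynomial.aeval (fun i => (Polynomial.X : Polynomial k) ^ n i) :
    MvPolynomial (Fin 4) k →ₐ[k] Polynomial k)

/-- The minimal number of generators of an ideal (the least size of a finite generating set). -/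
noncomputable def minGens {R : Type*} [CommRing R] (I : Ideal R) : ℕ :=
  sInf {r : ℕ | ∃ G : Finset R, Ideal.span (G : Set R) = I ∧ G.card = r}

end H70NG
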