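import Pool.Agent.H70.NG.Fin
import Pool.Agent.H70.NG.Stmt

/-!
# NG-TORICUP: the defining ideal is generated by `∑ b_S(z)` elements

`n : Fin 4 → ℕ`, `nz a = (n a : ℤ)`, `S` the set of the `∑ c a * n a`, `c : Fin 4 → ℕ`.
For a monomial `c : Fin 4 →₀ ℕ` of degree `z = ∑ c a * n a`, `c ≠ 0`: the indices in the support
of `c` are vertices of the graph of `S` in degree `z`, pairwise adjacent (`c - e_a - e_b ≥ 0`),
so they lie in one component.  For each `z` (finitely many `z` have `b_S(z) ≠ 0`) and each
component `C` different from one chosen component `C₀`: choose monomials `c, c₀` of degree `z`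
containing a variable of `C`, `C₀` and put `x^c - x^{c₀}` in `G`.  `|G| ≤ ∑ b_S(z)`, `G ⊆ I`.
Claim: all monomials of the same degree `z` are congruent modulo `J = (G)`; strong induction on
`z` (natural number): if they share a variable `x_a`, divide by it; if `a ∈ supp c`,
`a' ∈ supp c'` are adjacent there is a monomial of degree `z` divisible by `x_a x_{a'}`; so by
connectedness all monomials whose variables are in the same component are congruent; different
components are linked by `G`.
`I ⊆ J`: the quotient map factors through `k[t]`.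
-/

open Finset

namespace H70NG

/-- The semigroup generated by the `n a`, in `ℤ`. -/
def SS (n : Fin 4 → ℕ) : Set ℤ := {x | ∃ c : Fin 4 → ℕ, x = ∑ a, (c a : ℤ) * n a}

/-- The weight of an exponent. -/
def wt (n : Fin 4 → ℕ) (m : Fin 4 →₀ ℕ) : ℕ := ∑ a, m a * n a

theorem wt_add (n : Fin 4 → ℕ) (m m' : Fin 4 →₀ ℕ) : wt n (m + m') = wt n m + wt n m' := by
  simp [wt, add_mul, Finset.sum_add_distrib]

theorem wt_single (n : Fin 4 → ℕ) (a : Fin 4) : wt n (Finsupp.single a 1) = n a := by
  unfold wt
  rw [Finset.sum_eq_single a]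
  · simp
  · intro b _ hb
    simp [hb.symm]
  · simp

theorem mem_SS_iff {n : Fin 4 → ℕ} {x : ℤ} : x ∈ SS n ↔ ∃ m : Fin 4 →₀ ℕ, x = (wt n m : ℤ) := by
  constructor
  · rintro ⟨c, hc⟩
    refine ⟨Finsupp.equivFunOnFinite.symm c, ?_⟩
    rw [hc]; unfold wt; push_cast; rfl
  · rintro ⟨m, hm⟩
    refine ⟨fun a => m a, ?_⟩
    rw [hm]; unfold wt; push_cast; rfl

theorem split_one {m : Fin 4 →₀ ℕ} {a : Fin 4} (h : 1 ≤ m a) :
    m = (m - Finsupp.single a 1) + Finsupp.single a 1 := by
  rw [tsub_add_cancel_of_le]
  rw [Finsupp.single_le_iff]; exact h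

theorem aeval_mon (k : Type*) [Field k] (n : Fin 4 → ℕ) (m : Fin 4 →₀ ℕ) :
    (MvPolynomial.aeval (fun i => (Polynomial.X : Polynomial k) ^ n i) :
      MvPolynomial (Fin 4) k →ₐ[k] Polynomial k) (MvPolynomial.monomial m 1)
      = (Polynomial.X : Polynomial k) ^ wt n m := by
  rw [MvPolynomial.aeval_monomial, map_one, one_mul, Finsupp.prod_fintype]
  · unfold wt
    rw [← Finset.prod_pow_eq_pow_sum]
    apply Finset.prod_congr rfl
    intro a _
    rw [← pow_mul, mul_comm]
  · intro a; simp

theorem toric_up (k : Type*) [Field k] (n : Fin 4 → ℕ) {F : ℤ}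
    (h : Sg (fun a => (n a : ℤ)) (SS n) F) :
    ∃ G : Finset (MvPolynomial (Fin 4) k), Ideal.span (G : Set (MvPolynomial (Fin 4) k)) =
      defIdeal k n ∧ G.card ≤ ∑ᶠ z, bX (fun a => (n a : ℤ)) (SS n) z := by
  classical
  obtain ⟨nz, hnz⟩ : ∃ nz : Fin 4 → ℤ, nz = fun a => (n a : ℤ) := ⟨_, rfl⟩
  rw [← hnz] at h ⊢
  have hnza : ∀ a, nz a = (n a : ℤ) := fun a => by rw [hnz]
  have npos : ∀ a, 0 < n a := fun a => by have := h.pos a; rw [hnza] at this; omega
  obtain ⟨D, hDe⟩ : ∃ D : ℤ → Finset (Fin 4) → Prop, D = fun z => cx nz (SS n) z := ⟨_, rfl⟩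
  have hDz : ∀ z, D z = cx nz (SS n) z := fun z => by rw [hDe]
  have hch : ∀ z c, c ∈ gcomps (D z) → ∃ (m : Fin 4 →₀ ℕ) (a : Fin 4), 1 ≤ m a ∧
      (wt n m : ℤ) = z ∧ gcomp (D z) a = c := by
    intro z c hc
    obtain ⟨a, ha, hac⟩ := mem_gcomps.1 hc
    rw [hDz, cx_single, mem_SS_iff] at ha
    obtain ⟨m, hm⟩ := ha
    refine ⟨m + Finsupp.single a 1, a, by simp, ?_, hac⟩
    rw [wt_add, wt_single]
    push_cast
    rw [← hm, hnza]; ring
  choose! M A hA1 hA2 hA3 using hch
  have hch0 : ∀ z, (gcomps (D z)).Nonempty → ∃ c, c ∈ gcomps (D z) := fun z hz => hz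
  choose! C0 hC0 using hch0
  obtain ⟨T, hT⟩ : ∃ T : Finset ℤ, T = h.supp_bS.toFinset := ⟨_, rfl⟩
  have hTm : ∀ z, z ∈ T ↔ bX nz (SS n) z ≠ 0 := by
    intro z; rw [hT, Set.Finite.mem_toFinset]; rfl
  let mon : (Fin 4 →₀ ℕ) → MvPolynomial (Fin 4) k := fun m => MvPolynomial.monomial m 1
  let Gz : ℤ → Finset (MvPolynomial (Fin 4) k) := fun z =>
    ((gcomps (D z)).erase (C0 z)).image (fun c => mon (M z c) - mon (M z (C0 z)))
  refine ⟨T.biUnion Gz, ?_, ?_⟩
  · obtain ⟨J, hJ⟩ : ∃ J : Ideal (MvPolynomial (Fin 4) k),
      J = Ideal.span ((T.biUnion Gz : Finset _) : Set (MvPolynomial (Fin 4) k)) := ⟨_, rfl⟩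
    rw [← hJ]
    apply le_antisymm
    · rw [hJ, Ideal.span_le]
      intro g hg
      rw [Finset.mem_coe, Finset.mem_biUnion] at hg
      obtain ⟨z, hz, hg⟩ := hg
      obtain ⟨c, hc, rfl⟩ := Finset.mem_image.1 hg
      have hc' := Finset.mem_of_mem_erase hc
      have hne : (gcomps (D z)).Nonempty := ⟨c, hc'⟩
      have w1 := hA2 z c hc'
      have w2 := hA2 z (C0 z) (hC0 z hne)
      have w3 : wt n (M z c) = wt n (M z (C0 z)) := by
        have : (wt n (M z c) : ℤ) = (wt n (M z (C0 z)) : ℤ) := by rw [w1, w2]
        exact_mod_cast this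
      change _ ∈ defIdeal k n
      unfold defIdeal
      rw [RingHom.mem_ker]
      rw [map_sub]
      change (MvPolynomial.aeval _) (MvPolynomial.monomial _ 1) -
        (MvPolynomial.aeval _) (MvPolynomial.monomial _ 1) = 0
      rw [aeval_mon, aeval_mon, w3, sub_self]
    · -- all monomials of the same weight are congruent
      let q : (Fin 4 →₀ ℕ) → (MvPolynomial (Fin 4) k ⧸ J) := fun m =>
        Ideal.Quotient.mk J (mon m)
      have qadd : ∀ m m', q (m + m') = q m * q m' := by
        intro m m'
        change Ideal.Quotient.mk J _ = Ideal.Quotient.mk J _ * Ideal.Quotient.mk J _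
        rw [← map_mul]
        congr 1
        change MvPolynomial.monomial _ 1 = MvPolynomial.monomial _ 1 * MvPolynomial.monomial _ 1
        rw [MvPolynomial.monomial_mul, one_mul]
      have key : ∀ w : ℕ, ∀ m m' : Fin 4 →₀ ℕ, wt n m = w → wt n m' = w → q m = q m' := by
        intro w
        induction w using Nat.strong_induction_on with
        | _ w IH =>
        have share : ∀ (a : Fin 4) (m m' : Fin 4 →₀ ℕ), wt n m = w → wt n m' = w →
            1 ≤ m a → 1 ≤ m' a → q m = q m' := by
          intro a m m' hm hm' ha ha'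
          rw [split_one ha] at hm ⊢
          rw [split_one ha'] at hm' ⊢
          rw [wt_add, wt_single] at hm hm'
          rw [qadd, qadd]
          have := npos a
          rw [IH (w - n a) (by omega) (m - Finsupp.single a 1) (m' - Finsupp.single a 1)
            (by omega) (by omega)]
        have conn : ∀ a b, GConn (D w) a b → ∀ m : Fin 4 →₀ ℕ, wt n m = w → 1 ≤ m a →
            ∀ m' : Fin 4 →₀ ℕ, wt n m' = w → 1 ≤ m' b → q m = q m' := by
          intro a b hab m hm hma
          unfold GConn at hab
          induction hab with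
          | refl => exact fun m' hm' hm'a => share a m m' hm hm' hma hm'a
          | @tail b c _ hbc ih =>
            intro m' hm' hm'c
            obtain ⟨hne, hD⟩ := hbc
            rw [hDz, cx_pair hne, mem_SS_iff] at hD
            obtain ⟨p, hp⟩ := hD
            have hwp : wt n (p + Finsupp.single b 1 + Finsupp.single c 1) = w := by
              rw [wt_add, wt_add, wt_single, wt_single]
              rw [hnza, hnza] at hp
              omega
            rw [ih (p + Finsupp.single b 1 + Finsupp.single c 1) hwp (by simp; omega)]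
            exact share c _ m' hwp hm' (by simp) hm'c
        have toM : ∀ (m : Fin 4 →₀ ℕ), wt n m = w → ∀ a, 1 ≤ m a →
            q m = q (M w (C0 w)) := by
          intro m hm a ha
          have hDa : D w {a} := by
            rw [hDz, cx_single, mem_SS_iff]
            refine ⟨m - Finsupp.single a 1, ?_⟩
            have := hm
            rw [split_one ha, wt_add, wt_single] at this
            rw [hnza]
            omega
          have hc : gcomp (D w) a ∈ gcomps (D w) := mem_gcomps.2 ⟨a, hDa, rfl⟩
          have hc0 := hC0 w ⟨_, hc⟩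
          have e1 : q m = q (M w (gcomp (D w) a)) := by
            refine conn a (A w (gcomp (D w) a)) ?_ m hm ha _ ?_ (hA1 w _ hc)
            · exact gcomp_eq_iff.1 (hA3 w _ hc).symm
            · have := hA2 w _ hc
              exact_mod_cast this
          rw [e1]
          by_cases he : gcomp (D w) a = C0 w
          · rw [he]
          · change Ideal.Quotient.mk J _ = Ideal.Quotient.mk J _
            rw [Ideal.Quotient.eq, hJ]
            apply Ideal.subset_span
            rw [Finset.mem_coe, Finset.mem_biUnion]
            refine ⟨w, ?_, ?_⟩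
            · rw [hTm]
              unfold bX gb
              rw [← hDz]
              have : 1 < (gcomps (D w)).card := Finset.one_lt_card.2 ⟨_, hc, _, hc0, he⟩
              omega
            · exact Finset.mem_image.2 ⟨_, Finset.mem_erase.2 ⟨he, hc⟩, rfl⟩
        intro m m' hm hm'
        by_cases h0 : w = 0
        · have z0 : ∀ p : Fin 4 →₀ ℕ, wt n p = w → p = 0 := by
            intro p hp
            ext a
            by_contra hpa
            have hpa : 1 ≤ p a := Nat.one_le_iff_ne_zero.2 hpa
            rw [split_one hpa, wt_add, wt_single] at hp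
            have := npos a
            omega
          rw [z0 m hm, z0 m' hm']
        · have ex : ∀ p : Fin 4 →₀ ℕ, wt n p = w → ∃ a, 1 ≤ p a := by
            intro p hp
            by_contra hc
            push Not at hc
            apply h0
            rw [← hp]
            unfold wt
            apply Finset.sum_eq_zero
            intro a _
            have := hc a
            rw [show p a = 0 by omega, zero_mul]
          obtain ⟨a, ha⟩ := ex m hm
          obtain ⟨a', ha'⟩ := ex m' hm'
          rw [toM m hm a ha, toM m' hm' a' ha']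
      -- the quotient map factors through `k[t]`
      intro f hf
      unfold defIdeal at hf
      rw [RingHom.mem_ker] at hf
      let r : ℕ → (MvPolynomial (Fin 4) k ⧸ J) := fun w =>
        if hw : ∃ m : Fin 4 →₀ ℕ, wt n m = w then q (Classical.choose hw) else 0
      have hr : ∀ m, r (wt n m) = q m := by
        intro m
        have hw : ∃ m' : Fin 4 →₀ ℕ, wt n m' = wt n m := ⟨m, rfl⟩
        change (if hw : ∃ m' : Fin 4 →₀ ℕ, wt n m' = wt n m then q (Classical.choose hw)
          else 0) = q m
        rw [dif_pos hw]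
        exact key _ _ _ (Classical.choose_spec hw) rfl
      let φ : Polynomial k →ₗ[k] (MvPolynomial (Fin 4) k ⧸ J) :=
        (Polynomial.basisMonomials k).constr k r
      have hφ : φ.comp (MvPolynomial.aeval (fun i => (Polynomial.X : Polynomial k) ^ n i) :
          MvPolynomial (Fin 4) k →ₐ[k] Polynomial k).toLinearMap =
          (Ideal.Quotient.mkₐ k J).toLinearMap := by
        apply MvPolynomial.linearMap_ext
        intro m
        ext
        simp only [LinearMap.coe_comp, Function.comp_apply, AlgHom.toLinearMap_apply,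
          Ideal.Quotient.mkₐ_eq_mk]
        rw [aeval_mon]
        have : (Polynomial.X : Polynomial k) ^ wt n m =
            (Polynomial.basisMonomials k) (wt n m) := by
          rw [Polynomial.coe_basisMonomials, Polynomial.X_pow_eq_monomial]
        rw [this]
        change (Polynomial.basisMonomials k).constr k r _ = _
        rw [Module.Basis.constr_basis, hr]
      have : (Ideal.Quotient.mkₐ k J).toLinearMap f = 0 := by
        rw [← hφ]
        simp only [LinearMap.coe_comp, Function.comp_apply, AlgHom.toLinearMap_apply]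
        have hf' : (MvPolynomial.aeval (fun i => (Polynomial.X : Polynomial k) ^ n i) :
          MvPolynomial (Fin 4) k →ₐ[k] Polynomial k) f = 0 := hf
        rw [hf', map_zero]
      simp only [AlgHom.toLinearMap_apply, Ideal.Quotient.mkₐ_eq_mk] at this
      exact Ideal.Quotient.eq_zero_iff_mem.1 this
  · rw [finsum_eq_sum _ h.supp_bS, ← hT]
    refine Finset.card_biUnion_le.trans (Finset.sum_le_sum fun z hz => ?_)
    refine Finset.card_image_le.trans ?_
    have hb := (hTm z).1 hz
    have hne : (gcomps (D z)).Nonempty := by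
      rw [Finset.nonempty_iff_ne_empty]
      intro he
      apply hb
      unfold bX gb
      rw [← hDz, he]; rfl
    rw [Finset.card_erase_of_mem (hC0 z hne)]
    unfold bX gb
    rw [← hDz]

end H70NG
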