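import Pool.Agent.H70.NG.Basic
import Pool.Agent.H70.NG.Stmt
import Pool.Agent.H70.NG.ToricUp

/-!
# NG-REDUCE: from the definitions of the problem to the combinatorial setting

`nz a = (n a : ℤ)`.
* `SZ S = SS n` and `Sg nz (SZ S) F`: `pos` (`0` is in every submonoid, so `n i ≠ 0`), `inj` (if
  `n i = n j`, `i ≠ j`, then `n i ∈ closure (n '' {i}ᶜ)`), `dec`, `irr` (if `n a = x + y` with
  `x, y ≠ 0` in `S` then `x, y < n a`, so they are sums of generators different from `n a`, and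
  `n a` would be in the closure of the others), `Fnot`, `Fbig` from `IsGreatest`.
* `PFZ S = PF nz S` (`f + M ⊆ S` iff `f + n a ∈ S` for all `a`).
* nearly Gorenstein: for each `a` there is `f ∈ PF` with `n a + f - g ∈ S` for all `g ∈ PF`:
  `n a = κ + x`, `κ ∈ K`, `x + K ⊆ S`; `κ = (F - f) + s` with `f ∈ PF`, `s ∈ S`
  (`Sg.KK_gen`); for `g ∈ PF`: `F - g ∈ K`, so `x + (F - g) ∈ S`, and
  `n a + f - g = s + (x + (F - g))`.
* not almost symmetric: if `AA n S f a` for all `a`, then `f = F` (otherwise take `m` with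
  `n m` minimal: `n m + f - F ∈ S` and `0 ≤ n m + f - F < n m` force `n m = F - f`, and for
  `j ≠ m`: `n j - n m ∈ S`, against `Sg.sub_notMem`), and then `K + M ⊆ M`: `x ∈ K`,
  `x = (F - g) + s`, `y ∈ M`, `y = n a + s'`, `x + y = (n a + F - g) + s + s'`, positive.
-/

open Finset

namespace H70NG

theorem reduce_SZ {n : Fin 4 → ℕ} {S : AddSubmonoid ℕ} (h : MinGen n S) : SZ S = SS n := by
  classical
  ext x
  constructor
  · rintro ⟨y, hy, rfl⟩
    have hy' : y ∈ AddSubmonoid.closure (Set.range n) := by rw [h.closure_eq]; exact hy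
    clear hy
    induction hy' using AddSubmonoid.closure_induction with
    | mem y hy =>
      obtain ⟨a, rfl⟩ := hy
      refine ⟨Pi.single a 1, ?_⟩
      simp [Pi.single_apply, Finset.sum_ite_eq']
    | zero => exact ⟨0, by simp⟩
    | add y z hy' hz' ihy ihz =>
      obtain ⟨c, hc⟩ := ihy
      obtain ⟨d, hd⟩ := ihz
      refine ⟨c + d, ?_⟩
      simp only at hc hd ⊢
      push_cast
      rw [hc, hd, ← Finset.sum_add_distrib]
      refine Finset.sum_congr rfl (fun a _ => ?_)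
      simp only [Pi.add_apply]
      push_cast
      ring
  · rintro ⟨c, rfl⟩
    refine ⟨∑ a, c a * n a, ?_, by push_cast; rfl⟩
    refine AddSubmonoid.sum_mem S (fun a _ => ?_)
    rw [← smul_eq_mul]
    refine AddSubmonoid.nsmul_mem S ?_ _
    rw [← h.closure_eq]
    exact AddSubmonoid.subset_closure ⟨a, rfl⟩

theorem reduce_Sg {n : Fin 4 → ℕ} {S : AddSubmonoid ℕ} (h : MinGen n S) {F : ℤ}
    (hF : IsFrob S F) : Sg (fun a => (n a : ℤ)) (SS n) F := by
  classical
  have hpos : ∀ a, 0 < n a := by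
    intro a
    rcases Nat.eq_zero_or_pos (n a) with h0 | h0
    · exfalso
      apply h.minimal a
      rw [h0]
      exact AddSubmonoid.zero_mem _
    · exact h0
  refine ⟨fun a => by exact_mod_cast hpos a, ?_, ⟨0, by simp⟩, ?_, ?_, ?_, ?_, ?_, ?_, ?_⟩
  · intro a b hab
    by_contra hne
    have hab'' : (n a : ℤ) = (n b : ℤ) := hab
    have hab' : n a = n b := by exact_mod_cast hab''
    apply h.minimal a
    rw [hab']
    exact AddSubmonoid.subset_closure ⟨b, fun hb => hne (Set.mem_singleton_iff.1 hb).symm, rfl⟩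
  · intro a
    refine ⟨Pi.single a 1, ?_⟩
    simp [Pi.single_apply, Finset.sum_ite_eq']
  · rintro x ⟨c, rfl⟩ y ⟨d, rfl⟩
    refine ⟨c + d, ?_⟩
    rw [← Finset.sum_add_distrib]
    refine Finset.sum_congr rfl (fun a _ => ?_)
    simp only [Pi.add_apply]
    push_cast
    ring
  · rintro x ⟨c, rfl⟩
    exact Finset.sum_nonneg (fun a _ => by positivity)
  · rintro x ⟨c, rfl⟩ hx
    have : ∃ a, c a ≠ 0 := by
      by_contra hcon
      push Not at hcon
      apply hx
      exact Finset.sum_eq_zero (fun a _ => by rw [hcon a]; simp)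
    obtain ⟨a, ha⟩ := this
    refine ⟨a, Function.update c a (c a - 1), ?_⟩
    rw [← Finset.add_sum_erase _ _ (Finset.mem_univ a),
      ← Finset.add_sum_erase _ (fun b => ((Function.update c a (c a - 1) b : ℕ) : ℤ) * (n b : ℤ))
        (Finset.mem_univ a)]
    have e1 : ∑ b ∈ univ.erase a, ((Function.update c a (c a - 1) b : ℕ) : ℤ) * (n b : ℤ)
        = ∑ b ∈ univ.erase a, (c b : ℤ) * (n b : ℤ) := by
      refine Finset.sum_congr rfl (fun b hb => ?_)
      rw [Function.update_of_ne (Finset.ne_of_mem_erase hb)]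
    rw [e1, Function.update_self]
    have e2 : ((c a - 1 : ℕ) : ℤ) = (c a : ℤ) - 1 := by
      have := Nat.one_le_iff_ne_zero.2 ha
      push_cast [this]
      ring
    rw [e2]
    ring
  · rintro a x ⟨c, hc⟩ y ⟨d, hd⟩ hxy
    by_contra hcon
    push Not at hcon
    have hx0 : 0 ≤ x := by rw [hc]; exact Finset.sum_nonneg (fun a _ => by positivity)
    have hy0 : 0 ≤ y := by rw [hd]; exact Finset.sum_nonneg (fun a _ => by positivity)
    have key : ∀ (e : Fin 4 → ℕ) (z : ℤ), z = ∑ b, (e b : ℤ) * n b → z < n a → e a = 0 := by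
      intro e z hz hlt
      by_contra h0
      have h1 : (1 : ℤ) ≤ e a := by exact_mod_cast Nat.one_le_iff_ne_zero.2 h0
      have h2 : (e a : ℤ) * n a ≤ ∑ b, (e b : ℤ) * n b :=
        Finset.single_le_sum (f := fun b => (e b : ℤ) * (n b : ℤ))
          (fun b _ => by positivity) (Finset.mem_univ a)
      have h3 : (0 : ℤ) < n a := by exact_mod_cast hpos a
      nlinarith
    have hxy' : (n a : ℤ) = x + y := hxy
    have hc0 := key c x hc (by have := hcon.1; have := hcon.2; omega)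
    have hd0 := key d y hd (by have := hcon.1; have := hcon.2; omega)
    apply h.minimal a
    have e : n a = ∑ b, (c b + d b) * n b := by
      have : (n a : ℤ) = ((∑ b, (c b + d b) * n b : ℕ) : ℤ) := by
        rw [hxy', hc, hd, ← Finset.sum_add_distrib]
        push_cast
        exact Finset.sum_congr rfl (fun b _ => by ring)
      exact_mod_cast this
    rw [e]
    refine AddSubmonoid.sum_mem _ (fun b _ => ?_)
    by_cases hb : b = a
    · subst hb
      rw [hc0, hd0]
      simp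
    · rw [← smul_eq_mul]
      exact AddSubmonoid.nsmul_mem _
        (AddSubmonoid.subset_closure (Set.mem_image_of_mem n (show b ∈ ({a}ᶜ : Set (Fin 4)) from hb))) _
  · rw [← reduce_SZ h]
    exact hF.1
  · intro x hx
    rw [← reduce_SZ h]
    by_contra hcon
    exact absurd (hF.2 hcon) (not_le.2 hx)

theorem reduce_PF {n : Fin 4 → ℕ} {S : AddSubmonoid ℕ} (h : MinGen n S) {F : ℤ}
    (hF : IsFrob S F) : PFZ S = PF (fun a => (n a : ℤ)) (SS n) := by
  have hS := reduce_Sg h hF
  have hZ := reduce_SZ h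
  ext f
  constructor
  · rintro ⟨h1, h2⟩
    rw [hZ] at h1
    refine ⟨h1, fun a => ?_⟩
    rw [← hZ]
    refine h2 _ ⟨?_, ?_⟩
    · rw [hZ]
      exact hS.gen a
    · intro h0
      have := hS.pos a
      have h0' : (n a : ℤ) = 0 := h0
      omega
  · rintro hf
    refine ⟨by rw [hZ]; exact hf.1, ?_⟩
    rintro s ⟨hs, hs0⟩
    rw [hZ] at hs ⊢
    exact hS.pf_add hf hs (fun h0 => hs0 h0)

theorem reduce_NG {n : Fin 4 → ℕ} {S : AddSubmonoid ℕ} (h : MinGen n S) {F : ℤ}
    (hF : IsFrob S F) (hNG : NearlyGorenstein S F) (a : Fin 4) :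
    ∃ f ∈ PF (fun a => (n a : ℤ)) (SS n), AA (fun a => (n a : ℤ)) (SS n) f a := by
  have hS := reduce_Sg h hF
  have hZ := reduce_SZ h
  have hM : (n a : ℤ) ∈ MZ S := by
    refine ⟨by rw [hZ]; exact hS.gen a, ?_⟩
    intro h0
    have := hS.pos a
    have h0' : (n a : ℤ) = 0 := h0
    omega
  obtain ⟨κ, hκ, x, hx, hκx⟩ := Set.mem_add.1 (hNG hM)
  have hκ' : κ ∈ KK (SS n) F := by
    rw [mem_KK, ← hZ]
    exact hκ
  obtain ⟨f, hf, hs⟩ := hS.KK_gen hκ'
  refine ⟨f, hf, fun g hg => ?_⟩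
  have h1 : x + (F - g) ∈ SS n := by
    rw [← hZ]
    refine hx _ ?_
    have h2 := hS.dg_mem_KK hg
    rw [mem_KK, ← hZ] at h2
    exact h2
  have h3 := hS.add _ hs _ h1
  have e : κ - (F - f) + (x + (F - g)) = (n a : ℤ) + f - g := by rw [← hκx]; ring
  rw [e] at h3
  exact h3

theorem reduce_AS {n : Fin 4 → ℕ} {S : AddSubmonoid ℕ} (h : MinGen n S) {F : ℤ}
    (hF : IsFrob S F) (hAS : ¬ AlmostSymmetric S F) :
    ∀ f ∈ PF (fun a => (n a : ℤ)) (SS n), ∃ a, ¬ AA (fun a => (n a : ℤ)) (SS n) f a := by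
  have hS := reduce_Sg h hF
  have hZ := reduce_SZ h
  intro f hf
  by_contra hcon
  push Not at hcon
  apply hAS
  have hfF : f = F := by
    by_contra hne
    have hlt : f < F := lt_of_le_of_ne (hS.pf_le hf) hne
    obtain ⟨m, hm⟩ := Finite.exists_min (fun a => (n a : ℤ))
    have h1 : (n m : ℤ) + f - F ∈ SS n := hcon m F hS.F_mem_PF
    have h2 : (n m : ℤ) + f - F = 0 := by
      by_contra h0
      obtain ⟨a, ha⟩ := hS.dec _ h1 h0
      have h3 := hS.nonneg _ ha
      have h4 := hm a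
      omega
    obtain ⟨j, hj⟩ : ∃ j : Fin 4, j ≠ m := exists_ne m
    have h5 : (n j : ℤ) + f - F ∈ SS n := hcon j F hS.F_mem_PF
    apply hS.sub_notMem hj
    have e : (n j : ℤ) + f - F = (n j : ℤ) - (n m : ℤ) := by omega
    rw [e] at h5
    exact h5
  subst hfF
  intro z hz
  obtain ⟨x, hx, y, hy, rfl⟩ := Set.mem_add.1 hz
  have hx' : x ∈ KK (SS n) f := by
    rw [mem_KK, ← hZ]
    exact hx
  obtain ⟨hy1, hy2⟩ := hy
  rw [hZ] at hy1
  have hy0 : y ≠ 0 := fun h0 => hy2 h0
  obtain ⟨g, hg, hs⟩ := hS.KK_gen hx'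
  obtain ⟨a, ha⟩ := hS.dec y hy1 hy0
  have h1 : (n a : ℤ) + f - g ∈ SS n := hcon a g hg
  have h2 := hS.add _ h1 _ (hS.add _ hs _ ha)
  have e : (n a : ℤ) + f - g + (x - (f - g) + (y - (n a : ℤ))) = x + y := by ring
  rw [e] at h2
  refine ⟨by rw [hZ]; exact h2, ?_⟩
  intro h0
  have h3 := hS.KK_nonneg hx'
  have h4 := hS.nonneg _ hy1
  have h5 : x + y = 0 := h0
  omega

end H70NG
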