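import Pool.Agent.H70.NG.ToricUp

/-!
# NG-TORICLOW: the defining ideal needs `∑ b_S(z)` generators

For a degree `z` and a component `C` of the graph of `S` in degree `z` let
`lam z C f = ∑ coeff c f` over the monomials `c` of degree `z` whose variables are in `C`
(`c ≠ 0`; all variables of a monomial of degree `z` are in one component).
* If `g ∈ I` then `lam z C (x_a g) = 0`: the monomials of degree `z` divisible by `x_a` are all in
  the component of `a`; so the sum is either empty or the sum of all coefficients of `g` in degree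
  `z - n a`, which is `0` because `g ∈ I`.  So `lam z C (u g) = u(0) lam z C g` for `g ∈ I`.
* `∑_C lam z C g = 0` for `g ∈ I`.
* For two components `C, C₀` of degree `z` a binomial `x^c - x^{c₀} ∈ I` has `lam z C = 1`,
  `lam z C₀ = -1` and all other `lam` zero.
So, with `C₀(z)` a chosen component for each `z`, the map `g ↦ (lam z C g)_{z, C ≠ C₀(z)}` maps `I`
onto `k^B`, `B = ∑ b_S(z)`, and the image of `I = (G)` is spanned by the images of the elements
of `G`; so `B ≤ |G|`.
-/

open Finset

namespace H70NG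

namespace TL

/-- weight of a monomial -/
def wt (n : Fin 4 → ℕ) (c : Fin 4 →₀ ℕ) : ℕ := ∑ a, c a * n a

open Classical in
/-- the sum of the coefficients of the monomials satisfying `P`. -/
noncomputable def lam (k : Type*) [Field k] (P : (Fin 4 →₀ ℕ) → Prop) :
    MvPolynomial (Fin 4) k →ₗ[k] k :=
  (MvPolynomial.basisMonomials (Fin 4) k).constr k (fun c => if P c then 1 else 0)

variable {k : Type*} [Field k] {n : Fin 4 → ℕ}

open Classical in
theorem lam_monomial (P : (Fin 4 →₀ ℕ) → Prop) (c : Fin 4 →₀ ℕ) :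
    lam k P (MvPolynomial.monomial c 1) = if P c then 1 else 0 := by
  unfold lam
  have h1 : (MvPolynomial.monomial c 1 : MvPolynomial (Fin 4) k) =
      MvPolynomial.basisMonomials (Fin 4) k c := by simp
  rw [h1, Module.Basis.constr_basis]

theorem lam_ext {L L' : MvPolynomial (Fin 4) k →ₗ[k] k}
    (h : ∀ c, L (MvPolynomial.monomial c 1) = L' (MvPolynomial.monomial c 1)) : L = L' := by
  apply (MvPolynomial.basisMonomials (Fin 4) k).ext
  intro c
  have h1 : (MvPolynomial.monomial c 1 : MvPolynomial (Fin 4) k) =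
      MvPolynomial.basisMonomials (Fin 4) k c := by simp
  rw [← h1]
  exact h c

theorem lam_false {P : (Fin 4 →₀ ℕ) → Prop} (hP : ∀ c, ¬ P c) (g : MvPolynomial (Fin 4) k) :
    lam k P g = 0 := by
  have : lam k P = 0 := by
    apply lam_ext
    intro c
    rw [lam_monomial, if_neg (hP c)]
    simp
  rw [this]
  simp

theorem lam_congr {P Q : (Fin 4 →₀ ℕ) → Prop} (hP : ∀ c, P c ↔ Q c)
    (g : MvPolynomial (Fin 4) k) : lam k P g = lam k Q g := by
  have : P = Q := funext fun c => propext (hP c)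
  rw [this]

theorem lam_X_mul (P : (Fin 4 →₀ ℕ) → Prop) (a : Fin 4) (g : MvPolynomial (Fin 4) k) :
    lam k P (MvPolynomial.X a * g) = lam k (fun c => P (c + Finsupp.single a 1)) g := by
  have : lam k P ∘ₗ LinearMap.mulLeft k (MvPolynomial.X a) =
      lam k (fun c => P (c + Finsupp.single a 1)) := by
    apply lam_ext
    intro c
    rw [lam_monomial, LinearMap.comp_apply, LinearMap.mulLeft_apply]
    have : (MvPolynomial.X a * MvPolynomial.monomial c 1 : MvPolynomial (Fin 4) k) =
        MvPolynomial.monomial (c + Finsupp.single a 1) 1 := by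
      rw [MvPolynomial.X, MvPolynomial.monomial_mul, add_comm, one_mul]
    rw [this, lam_monomial]
  rw [← this]
  rfl

theorem aeval_mon (c : Fin 4 →₀ ℕ) :
    (MvPolynomial.aeval (fun i => (Polynomial.X : Polynomial k) ^ n i) :
      MvPolynomial (Fin 4) k →ₐ[k] Polynomial k) (MvPolynomial.monomial c 1) =
      Polynomial.X ^ (wt n c) := by
  rw [MvPolynomial.aeval_monomial, map_one, one_mul, Finsupp.prod_fintype _ _ (by simp)]
  unfold wt
  rw [← Finset.prod_pow_eq_pow_sum]
  exact Finset.prod_congr rfl fun i _ => by rw [← pow_mul, mul_comm]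

theorem lam_ker {g : MvPolynomial (Fin 4) k} (hg : g ∈ defIdeal k n) (z : ℤ) :
    lam k (fun c => (wt n c : ℤ) = z) g = 0 := by
  rcases lt_or_ge z 0 with hz | hz
  · apply lam_false
    intro c hc
    omega
  · obtain ⟨m, rfl⟩ := Int.eq_ofNat_of_zero_le hz
    have : lam k (fun c => (wt n c : ℤ) = m) = Polynomial.lcoeff k m ∘ₗ
      (MvPolynomial.aeval (fun i => (Polynomial.X : Polynomial k) ^ n i) :
        MvPolynomial (Fin 4) k →ₐ[k] Polynomial k).toLinearMap := by
      apply lam_ext
      intro c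
      rw [lam_monomial, LinearMap.comp_apply, AlgHom.toLinearMap_apply, aeval_mon,
        Polynomial.lcoeff_apply, Polynomial.coeff_X_pow]
      by_cases h1 : m = wt n c
      · rw [if_pos (by exact_mod_cast h1.symm), if_pos h1]
      · rw [if_neg (fun h : (wt n c : ℤ) = (m : ℤ) => h1 (by exact_mod_cast h.symm)), if_neg h1]
    have hg' : (MvPolynomial.aeval (fun i => (Polynomial.X : Polynomial k) ^ n i) :
        MvPolynomial (Fin 4) k →ₐ[k] Polynomial k) g = 0 := hg
    rw [this, LinearMap.comp_apply, AlgHom.toLinearMap_apply, hg', map_zero]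

/-- the monomials of degree `z` with a variable in `C` -/
def PP (n : Fin 4 → ℕ) (z : ℤ) (C : Finset (Fin 4)) (c : Fin 4 →₀ ℕ) : Prop :=
  (wt n c : ℤ) = z ∧ ∃ a ∈ C, c a ≠ 0

/-- the graph of `S` in degree `z` -/
abbrev GS (n : Fin 4 → ℕ) (z : ℤ) : Finset (Fin 4) → Prop := cx (fun a => (n a : ℤ)) (SS n) z

theorem wt_mem (c : Fin 4 →₀ ℕ) : (wt n c : ℤ) ∈ SS n :=
  ⟨fun a => c a, by unfold wt; push_cast; rfl⟩

theorem wt_add (c d : Fin 4 →₀ ℕ) : wt n (c + d) = wt n c + wt n d := by
  unfold wt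
  rw [← Finset.sum_add_distrib]
  exact Finset.sum_congr rfl fun a _ => by simp [add_mul]

theorem wt_single (a : Fin 4) : wt n (Finsupp.single a 1) = n a := by
  unfold wt
  rw [Finset.sum_eq_single a]
  · simp
  · intro b _ hb
    simp [hb.symm]
  · simp

/-- all the variables of a monomial are in one component -/
theorem same_comp {c : Fin 4 →₀ ℕ} {a b : Fin 4} (ha : c a ≠ 0) (hb : c b ≠ 0) :
    gcomp (GS n (wt n c)) a = gcomp (GS n (wt n c)) b := by
  rw [gcomp_eq_iff]
  by_cases hab : a = b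
  · rw [hab]
    exact Relation.ReflTransGen.refl
  · refine Relation.ReflTransGen.single ⟨hab, ?_⟩
    unfold GS
    rw [cx_pair hab]
    have hle : Finsupp.single a 1 + Finsupp.single b 1 ≤ c := by
      intro x
      rw [Finsupp.add_apply, Finsupp.single_apply, Finsupp.single_apply]
      by_cases h1 : a = x
      · subst h1
        rw [if_pos rfl, if_neg (Ne.symm hab)]
        omega
      · by_cases h2 : b = x
        · subst h2
          rw [if_neg h1, if_pos rfl]
          omega
        · rw [if_neg h1, if_neg h2]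
          omega
    obtain ⟨d, rfl⟩ := exists_add_of_le hle
    rw [wt_add, wt_add, wt_single, wt_single]
    push_cast
    have e1 : (n a : ℤ) + n b + wt n d - n a - n b = wt n d := by ring
    rw [e1]
    exact wt_mem d

theorem vertex {c : Fin 4 →₀ ℕ} {a : Fin 4} (ha : c a ≠ 0) : GS n (wt n c) {a} := by
  unfold GS
  rw [cx_single]
  have hle : Finsupp.single a 1 ≤ c := by
    intro x
    rw [Finsupp.single_apply]
    by_cases h1 : a = x
    · subst h1
      rw [if_pos rfl]
      omega
    · rw [if_neg h1]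
      omega
  obtain ⟨d, rfl⟩ := exists_add_of_le hle
  rw [wt_add, wt_single]
  push_cast
  have e1 : (n a : ℤ) + wt n d - n a = wt n d := by ring
  rw [e1]
  exact wt_mem d

theorem comp_eq {D : Finset (Fin 4) → Prop} {C : Finset (Fin 4)} (hC : C ∈ gcomps D) {a : Fin 4}
    (ha : a ∈ C) : gcomp D a = C := by
  obtain ⟨b, _, rfl⟩ := mem_gcomps.1 hC
  exact (gcomp_eq_iff.2 (mem_gcomp.1 ha)).symm

theorem PP_iff {z : ℤ} {C : Finset (Fin 4)} (hC : C ∈ gcomps (GS n z)) {c : Fin 4 →₀ ℕ}
    {a : Fin 4} (ha : c a ≠ 0) : PP n z C c ↔ (wt n c : ℤ) = z ∧ a ∈ C := by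
  unfold PP
  constructor
  · rintro ⟨h1, b, hb, hcb⟩
    refine ⟨h1, ?_⟩
    subst h1
    have h2 := same_comp (n := n) ha hcb
    rw [comp_eq hC hb] at h2
    rw [← h2]
    exact self_mem_gcomp a
  · rintro ⟨h1, h2⟩
    exact ⟨h1, a, h2, ha⟩

theorem lam_X_mul_zero {z : ℤ} {C : Finset (Fin 4)} (hC : C ∈ gcomps (GS n z)) (a : Fin 4)
    {g : MvPolynomial (Fin 4) k} (hg : g ∈ defIdeal k n) :
    lam k (PP n z C) (MvPolynomial.X a * g) = 0 := by
  rw [lam_X_mul]
  by_cases ha : a ∈ C
  · rw [lam_congr (Q := fun c => (wt n c : ℤ) = z - n a), lam_ker hg]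
    intro c
    rw [PP_iff hC (a := a) (by simp), wt_add, wt_single]
    push_cast
    constructor
    · rintro ⟨h1, _⟩; linarith
    · intro h1; exact ⟨by linarith, ha⟩
  · apply lam_false
    intro c
    rw [PP_iff hC (a := a) (by simp)]
    tauto

theorem lam_mul {z : ℤ} {C : Finset (Fin 4)} (hC : C ∈ gcomps (GS n z))
    (u : MvPolynomial (Fin 4) k) {g : MvPolynomial (Fin 4) k} (hg : g ∈ defIdeal k n) :
    lam k (PP n z C) (u * g) = MvPolynomial.constantCoeff u * lam k (PP n z C) g := by
  induction u using MvPolynomial.induction_on with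
  | C r =>
    rw [← MvPolynomial.smul_eq_C_mul, map_smul, MvPolynomial.constantCoeff_C]
    rfl
  | add p q hp hq => rw [add_mul, map_add, hp, hq, map_add, add_mul]
  | mul_X p a _ =>
    have e1 : p * MvPolynomial.X a * g = MvPolynomial.X a * (p * g) := by ring
    rw [e1, lam_X_mul_zero hC a (Ideal.mul_mem_left _ p hg), map_mul,
      MvPolynomial.constantCoeff_X, mul_zero, zero_mul]

/-- each component contains a monomial -/
theorem exists_mon {z : ℤ} {C : Finset (Fin 4)} (hC : C ∈ gcomps (GS n z)) :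
    ∃ c : Fin 4 →₀ ℕ, (wt n c : ℤ) = z ∧ ∃ a ∈ C, c a ≠ 0 := by
  obtain ⟨a, ha, rfl⟩ := mem_gcomps.1 hC
  unfold GS at ha
  rw [cx_single] at ha
  obtain ⟨c, hc⟩ := ha
  refine ⟨Finsupp.equivFunOnFinite.symm c + Finsupp.single a 1, ?_, a, self_mem_gcomp a, ?_⟩
  · rw [wt_add, wt_single]
    have : (wt n (Finsupp.equivFunOnFinite.symm c) : ℤ) = z - n a := by
      rw [hc]
      unfold wt
      push_cast
      rfl
    push_cast
    rw [this]
    ring
  · simp

theorem exists_binom {z : ℤ} {C C₀ : Finset (Fin 4)} (hC : C ∈ gcomps (GS n z))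
    (hC₀ : C₀ ∈ gcomps (GS n z)) (hne : C ≠ C₀) :
    ∃ f ∈ defIdeal k n, lam k (PP n z C) f = 1 ∧
      (∀ C' ∈ gcomps (GS n z), C' ≠ C → C' ≠ C₀ → lam k (PP n z C') f = 0) ∧
      ∀ z', z' ≠ z → ∀ C', lam k (PP n z' C') f = 0 := by
  obtain ⟨c, hc, a, ha, hca⟩ := exists_mon hC
  obtain ⟨d, hd, b, hb, hdb⟩ := exists_mon hC₀
  refine ⟨MvPolynomial.monomial c 1 - MvPolynomial.monomial d 1, ?_, ?_, ?_, ?_⟩
  · have : wt n c = wt n d := by exact_mod_cast hc.trans hd.symm
    unfold defIdeal
    rw [RingHom.mem_ker]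
    change (MvPolynomial.aeval (fun i => (Polynomial.X : Polynomial k) ^ n i) :
        MvPolynomial (Fin 4) k →ₐ[k] Polynomial k) _ = 0
    rw [map_sub, aeval_mon, aeval_mon, this, sub_self]
  · rw [map_sub, lam_monomial, lam_monomial, if_pos ⟨hc, a, ha, hca⟩, if_neg, sub_zero]
    rw [PP_iff hC hdb]
    rintro ⟨_, h2⟩
    exact hne ((comp_eq hC h2).symm.trans (comp_eq hC₀ hb))
  · intro C' hC' h1 h2
    rw [map_sub, lam_monomial, lam_monomial, if_neg, if_neg, sub_zero]
    · rw [PP_iff hC' hdb]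
      rintro ⟨_, h3⟩
      exact h2 ((comp_eq hC' h3).symm.trans (comp_eq hC₀ hb))
    · rw [PP_iff hC' hca]
      rintro ⟨_, h3⟩
      exact h1 ((comp_eq hC' h3).symm.trans (comp_eq hC ha))
  · intro z' hz' C'
    rw [map_sub, lam_monomial, lam_monomial, if_neg, if_neg, sub_zero]
    · rintro ⟨h1, _⟩
      exact hz' (h1.symm.trans hd)
    · rintro ⟨h1, _⟩
      exact hz' (h1.symm.trans hc)

end TL

open TL

theorem toric_low (k : Type*) [Field k] (n : Fin 4 → ℕ) {F : ℤ}
    (h : Sg (fun a => (n a : ℤ)) (SS n) F) (G : Finset (MvPolynomial (Fin 4) k))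
    (hG : Ideal.span (G : Set (MvPolynomial (Fin 4) k)) = defIdeal k n) :
    ∑ᶠ z, bX (fun a => (n a : ℤ)) (SS n) z ≤ G.card := by
  classical
  have hfin := h.supp_bS
  set Z : Finset ℤ := hfin.toFinset with hZ
  have hsum : ∑ᶠ z, bX (fun a => (n a : ℤ)) (SS n) z =
      ∑ z ∈ Z, bX (fun a => (n a : ℤ)) (SS n) z :=
    finsum_eq_sum_of_support_subset _ (by rw [hZ]; simp)
  rw [hsum]
  -- the chosen component
  have hch : ∀ z : ℤ, ∃ C₀ : Finset (Fin 4), z ∈ Z → C₀ ∈ gcomps (GS n z) := by
    intro z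
    by_cases hz : z ∈ Z
    · have h1 : bX (fun a => (n a : ℤ)) (SS n) z ≠ 0 := by
        rw [hZ, Set.Finite.mem_toFinset] at hz
        exact hz
      unfold bX gb at h1
      have h2 : 0 < (gcomps (GS n z)).card := by
        unfold GS
        omega
      obtain ⟨C, hC⟩ := Finset.card_pos.1 h2
      exact ⟨C, fun _ => hC⟩
    · exact ⟨∅, fun h' => absurd h' hz⟩
  choose C₀ hC₀ using hch
  set T : Finset (Σ _ : ℤ, Finset (Fin 4)) :=
    Z.sigma (fun z => (gcomps (GS n z)).erase (C₀ z)) with hT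
  have hcard : T.card = ∑ z ∈ Z, bX (fun a => (n a : ℤ)) (SS n) z := by
    rw [hT, Finset.card_sigma]
    refine Finset.sum_congr rfl fun z hz => ?_
    rw [Finset.card_erase_of_mem (hC₀ z hz)]
    rfl
  rw [← hcard]
  have hmem : ∀ i : T, i.1.2 ∈ gcomps (GS n i.1.1) ∧ i.1.2 ≠ C₀ i.1.1 ∧
      C₀ i.1.1 ∈ gcomps (GS n i.1.1) := by
    intro i
    have h0 : ∀ x ∈ T, x.2 ∈ gcomps (GS n x.1) ∧ x.2 ≠ C₀ x.1 ∧ C₀ x.1 ∈ gcomps (GS n x.1) := by
      intro x h1
      rw [hT, Finset.mem_sigma, Finset.mem_erase] at h1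
      exact ⟨h1.2.2, h1.2.1, hC₀ _ h1.1⟩
    exact h0 _ i.2
  set Φ : MvPolynomial (Fin 4) k →ₗ[k] (T → k) :=
    LinearMap.pi (fun i : T => lam k (PP n i.1.1 i.1.2)) with hΦ
  have hmul : ∀ u g : MvPolynomial (Fin 4) k, g ∈ defIdeal k n →
      Φ (u * g) = MvPolynomial.constantCoeff u • Φ g := by
    intro u g hg
    ext i
    rw [hΦ, Pi.smul_apply, LinearMap.pi_apply, LinearMap.pi_apply, lam_mul (hmem i).1 u hg]
    rfl
  have hspan : ∀ f ∈ Ideal.span (G : Set (MvPolynomial (Fin 4) k)),
      Φ f ∈ Submodule.span k ((G.image Φ : Finset (T → k)) : Set (T → k)) := by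
    intro f hf
    induction hf using Submodule.span_induction with
    | mem x hx =>
      apply Submodule.subset_span
      rw [Finset.coe_image]
      exact ⟨x, hx, rfl⟩
    | zero => rw [map_zero]; exact Submodule.zero_mem _
    | add x y _ _ hx hy => rw [map_add]; exact Submodule.add_mem _ hx hy
    | smul u x hx' hx =>
      rw [smul_eq_mul, hmul u x (by rw [← hG]; exact hx')]
      exact Submodule.smul_mem _ _ hx
  have htop : Submodule.span k ((G.image Φ : Finset (T → k)) : Set (T → k)) = ⊤ := by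
    rw [eq_top_iff]
    have hb : ∀ i : T, Pi.single i (1 : k) ∈
        Submodule.span k ((G.image Φ : Finset (T → k)) : Set (T → k)) := by
      intro i
      obtain ⟨f, hf, h1, h2, h3⟩ := exists_binom (k := k) (hmem i).1 (hmem i).2.2 (hmem i).2.1
      have h4 : Φ f = Pi.single i (1 : k) := by
        ext j
        rw [hΦ, LinearMap.pi_apply]
        by_cases hij : j = i
        · subst hij
          rw [Pi.single_eq_same]
          exact h1
        · rw [Pi.single_eq_of_ne hij]
          by_cases hz : j.1.1 = i.1.1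
          · obtain ⟨⟨z, C⟩, hi⟩ := i
            obtain ⟨⟨z', C'⟩, hj⟩ := j
            simp only at hz
            subst hz
            apply h2
            · exact (hmem ⟨⟨z', C'⟩, hj⟩).1
            · intro hCC
              apply hij
              simp only at hCC
              subst hCC
              rfl
            · exact (hmem ⟨⟨z', C'⟩, hj⟩).2.1
          · exact h3 _ hz _
      rw [← h4]
      exact hspan f (by rw [hG]; exact hf)
    intro v _
    have hv : v = ∑ i : T, v i • (Pi.single i (1 : k) : T → k) := by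
      ext j
      simp [Finset.sum_apply, Pi.single_apply]
    rw [hv]
    exact Submodule.sum_mem _ fun i _ => Submodule.smul_mem _ _ (hb i)
  have h1 : Module.finrank k (T → k) = T.card := by
    rw [Module.finrank_fintype_fun_eq_card]
    simp
  have h2 := finrank_span_finset_le_card (R := k) (G.image Φ)
  unfold Set.finrank at h2
  rw [htop, finrank_top, h1] at h2
  exact h2.trans Finset.card_image_le

end H70NG
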