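import Pool.Agent.H70.NG.Core
import Pool.Agent.H70.NG.ToricLow
import Pool.Agent.H70.NG.Reduce

open Finset

namespace H70NG

theorem minGens_eq (k : Type*) [Field k] (n : Fin 4 → ℕ) {F : ℤ}
    (h : Sg (fun a => (n a : ℤ)) (SS n) F) :
    minGens (defIdeal k n) = ∑ᶠ z, bX (fun a => (n a : ℤ)) (SS n) z := by
  obtain ⟨G, hG, hcard⟩ := toric_up k n h
  apply le_antisymm
  · have h1 : minGens (defIdeal k n) ≤ G.card := by
      unfold minGens
      exact Nat.sInf_le ⟨G, hG, rfl⟩
    exact h1.trans hcard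
  · unfold minGens
    have hne : {r : ℕ | ∃ G : Finset (MvPolynomial (Fin 4) k),
        Ideal.span (G : Set (MvPolynomial (Fin 4) k)) = defIdeal k n ∧ G.card = r}.Nonempty :=
      ⟨_, G, hG, rfl⟩
    obtain ⟨G', hG', hc⟩ := Nat.sInf_mem hne
    rw [← hc]
    exact toric_low k n h G' hG'

theorem main (k : Type*) [Field k] (n : Fin 4 → ℕ) (S : AddSubmonoid ℕ) (F : ℤ)
    (h : MinGen n S) (hF : IsFrob S F) (hNG : NearlyGorenstein S F)
    (hAS : ¬ AlmostSymmetric S F) :
    (sgType S = 2 → minGens (defIdeal k n) = 4 ∨ minGens (defIdeal k n) = 5) ∧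
    (sgType S = 3 → minGens (defIdeal k n) = 6) := by
  have hS := reduce_Sg h hF
  rw [minGens_eq k n hS, sgType, reduce_PF h hF]
  exact core hS (reduce_NG h hF hNG) (reduce_AS h hF hAS)

end H70NG
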