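import Pool.Agent.H70.NG.Alex
import Pool.Agent.H70.NG.Fin

/-!
# NG-STEP1: `∑ b_K = ∑ b_S + t - 1`

Apply `alex` to `D = cx n S z` (down-closed by `cx_down`), for every `z` in the window
`W = [0, F + N]`, `N = ∑ a, n a`.

* `(fun I => ¬ D Iᶜ) = cx n (KK S F) (F + N - z)`: `z - n(Iᶜ) ∉ S` iff
  `F - (F + N - z - n(I)) = z - (N - n(I)) ∉ S`.
* `D = {∅}` (i.e. `z ∈ S`, `z - n a ∉ S` for all `a`) iff `z = 0` (`Sg.dec`).
* `D^v = {∅}` iff `z - N ∈ PF`; so these `z` are the `N + f`, `f ∈ PF`; they lie in `W`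
  (`-n a ≤ f ≤ F`), their number is `t`.
* Sum over `z ∈ W` of the right side: `∑_I (-1)^(|I|+1) #{z ∈ W : z - n(I) ∈ S}` and
  `#{z ∈ [0, F+N] : z - n(I) ∈ S} = #(S ∩ [0, F + N - n(I)]) = c - n(I)` with a constant `c`
  (everything above `F` is in `S`, `n(I) ≤ N`), and `∑_I (-1)^(|I|+1) (c - n(I)) = 0`.
* `∑_{z ∈ W} b_K(F + N - z) = ∑_{z ∈ W} b_K(z)`; outside `W` both functions vanish.
-/

open Finset

namespace H70NG

variable {n : Fin 4 → ℤ} {S : Set ℤ} {F : ℤ}

namespace Step1Aux

theorem sum_compl (n : Fin 4 → ℤ) (I : Finset (Fin 4)) :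
    ∑ a ∈ Iᶜ, n a = ∑ a, n a - ∑ a ∈ I, n a := by
  have := Finset.sum_add_sum_compl I n
  linarith

theorem dual (n : Fin 4 → ℤ) (S : Set ℤ) (F z : ℤ) :
    (fun I => ¬ cx n S z Iᶜ) = cx n (KK S F) (F + ∑ a, n a - z) := by
  funext I
  apply propext
  unfold cx KK
  rw [sum_compl]
  have e : F - (F + ∑ a, n a - z - ∑ a ∈ I, n a) = z - (∑ a, n a - ∑ a ∈ I, n a) := by ring
  simp only [Set.mem_ofPred_eq, e]

theorem sign_sum (n : Fin 4 → ℤ) (c : ℤ) :
    ∑ I : Finset (Fin 4), (-1 : ℤ) ^ (I.card + 1) * (c - ∑ a ∈ I, n a) = 0 := by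
  have hu : (univ : Finset (Finset (Fin 4))) = {∅, {0}, {1}, {2}, {3}, {0, 1}, {0, 2}, {0, 3},
    {1, 2}, {1, 3}, {2, 3}, {1, 2, 3}, {0, 2, 3}, {0, 1, 3}, {0, 1, 2}, {0, 1, 2, 3}} := by decide
  rw [hu]
  repeat rw [Finset.sum_insert (by decide)]
  simp only [Finset.sum_singleton]
  repeat rw [Finset.sum_insert (by decide)]
  have n01 : ({0, 1} : Finset (Fin 4)).card = 2 := rfl
  have n02 : ({0, 2} : Finset (Fin 4)).card = 2 := rfl
  have n03 : ({0, 3} : Finset (Fin 4)).card = 2 := rfl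
  have n12 : ({1, 2} : Finset (Fin 4)).card = 2 := rfl
  have n13 : ({1, 3} : Finset (Fin 4)).card = 2 := rfl
  have n23 : ({2, 3} : Finset (Fin 4)).card = 2 := rfl
  have n123 : ({1, 2, 3} : Finset (Fin 4)).card = 3 := rfl
  have n023 : ({0, 2, 3} : Finset (Fin 4)).card = 3 := rfl
  have n013 : ({0, 1, 3} : Finset (Fin 4)).card = 3 := rfl
  have n012 : ({0, 1, 2} : Finset (Fin 4)).card = 3 := rfl
  have nu : ({0, 1, 2, 3} : Finset (Fin 4)).card = 4 := rfl
  simp only [n01, n02, n03, n12, n13, n23, n123, n023, n013, n012, nu,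
    Finset.card_empty, Finset.card_singleton, Finset.sum_empty, Finset.sum_singleton]
  ring

open Classical in
theorem card_I (h : Sg n S F) {m : ℤ} (hm0 : 0 ≤ m) (hmN : m ≤ ∑ a, n a) :
    (((Icc 0 (F + ∑ a, n a)).filter (fun z => z - m ∈ S)).card : ℤ)
      = ((Icc 0 (F + ∑ a, n a)).filter (fun z => z ∈ S)).card - m := by
  have hF := h.F_pos
  set N := ∑ a, n a with hN
  -- shift
  have e1 : ((Icc 0 (F + N)).filter (fun z => z - m ∈ S)).card
      = ((Icc 0 (F + N - m)).filter (fun z => z ∈ S)).card := by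
    apply Finset.card_bij (fun z _ => z - m)
    · intro z hz
      simp only [mem_filter, mem_Icc] at hz ⊢
      exact ⟨⟨h.nonneg _ hz.2, by omega⟩, hz.2⟩
    · intro a _ b _ hab
      omega
    · intro b hb
      simp only [mem_filter, mem_Icc] at hb
      refine ⟨b + m, ?_, by ring⟩
      simp only [mem_filter, mem_Icc]
      refine ⟨⟨by omega, by omega⟩, ?_⟩
      have e : b + m - m = b := by ring
      rw [e]; exact hb.2
  have e2 : ((Icc 0 (F + N)).filter (fun z => z ∈ S))
      = ((Icc 0 (F + N - m)).filter (fun z => z ∈ S)) ∪ Ioc (F + N - m) (F + N) := by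
    ext z
    simp only [mem_filter, mem_Icc, mem_union, mem_Ioc]
    constructor
    · rintro ⟨⟨h1, h2⟩, h3⟩
      by_cases hz : z ≤ F + N - m
      · exact Or.inl ⟨⟨h1, hz⟩, h3⟩
      · exact Or.inr ⟨by omega, h2⟩
    · rintro (⟨⟨h1, h2⟩, h3⟩ | ⟨h1, h2⟩)
      · exact ⟨⟨h1, by omega⟩, h3⟩
      · have hz : F < z := by omega
        have hzS := h.Fbig z hz
        exact ⟨⟨h.nonneg z hzS, h2⟩, hzS⟩
  have e3 : Disjoint ((Icc 0 (F + N - m)).filter (fun z => z ∈ S)) (Ioc (F + N - m) (F + N)) := by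
    rw [Finset.disjoint_left]
    intro z hz hz'
    simp only [mem_filter, mem_Icc, mem_Ioc] at hz hz'
    omega
  rw [e1, e2, Finset.card_union_of_disjoint e3, Int.card_Ioc]
  push_cast
  rw [Int.toNat_of_nonneg (by omega)]
  ring

end Step1Aux

open Step1Aux in
theorem step1 (h : Sg n S F) :
    (∑ᶠ z, bX n (KK S F) z) + 1 = (∑ᶠ z, bX n S z) + (PF n S).ncard := by
  classical
  have hF := h.F_pos
  set N := ∑ a, n a with hN
  have hN4 : 4 ≤ N := by
    have h0 := h.pos 0
    have h1 := h.pos 1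
    have h2 := h.pos 2
    have h3 := h.pos 3
    rw [hN, Fin.sum_univ_four]; omega
  set W : Finset ℤ := Icc 0 (F + N) with hW
  have hK : ∑ᶠ z, bX n (KK S F) z = ∑ z ∈ W, bX n (KK S F) z := by
    apply finsum_eq_sum_of_support_subset
    intro z hz
    rw [Function.mem_support] at hz
    simp only [hW, coe_Icc, Set.mem_Icc]
    constructor
    · by_contra hc
      exact hz (bX_eq_zero_low h.pos (fun x hx => h.KK_nonneg hx) (by omega))
    · by_contra hc
      exact hz (bX_eq_zero_high h.pos (fun x hx => h.KK_big hx) (by omega))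
  have hS : ∑ᶠ z, bX n S z = ∑ z ∈ W, bX n S z := by
    apply finsum_eq_sum_of_support_subset
    intro z hz
    rw [Function.mem_support] at hz
    simp only [hW, coe_Icc, Set.mem_Icc]
    constructor
    · by_contra hc
      exact hz (bX_eq_zero_low h.pos h.nonneg (by omega))
    · by_contra hc
      exact hz (bX_eq_zero_high h.pos h.Fbig (by omega))
  rw [hK, hS]
  have hrefl : ∑ z ∈ W, bX n (KK S F) z = ∑ z ∈ W, bX n (KK S F) (F + N - z) := by
    apply Finset.sum_bij' (fun z _ => F + N - z) (fun z _ => F + N - z)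
    · intro z hz; simp only [hW, mem_Icc] at hz ⊢; omega
    · intro z hz; simp only [hW, mem_Icc] at hz ⊢; omega
    · intro z _; ring
    · intro z _; ring
    · intro z _; congr 1; ring
  have hal : ∀ z, (bX n S z : ℤ) - (bX n (KK S F) (F + N - z) : ℤ)
      - (if z = 0 then 1 else 0) + (if z - N ∈ PF n S then 1 else 0)
      = ∑ I : Finset (Fin 4), if z - ∑ a ∈ I, n a ∈ S then (-1 : ℤ) ^ (I.card + 1) else 0 := by
    intro z
    have key := alex (cx n S z) (fun I J hIJ hJ => cx_down (fun x hx a => h.add_gen hx a) hIJ hJ)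
    rw [dual n S F z] at key
    have c1 : (cx n S z ∅ ∧ ∀ a, ¬ cx n S z {a}) ↔ z = 0 := by
      constructor
      · rintro ⟨h1, h2⟩
        rw [cx_empty] at h1
        by_contra hz
        obtain ⟨a, ha⟩ := h.dec z h1 hz
        exact h2 a (cx_single.2 ha)
      · rintro rfl
        refine ⟨cx_empty.2 h.zero, fun a ha => ?_⟩
        rw [cx_single] at ha
        exact h.neg_notMem (by have := h.pos a; omega) ha
    have c2 : (¬ cx n S z univ ∧ ∀ a, cx n S z {a}ᶜ) ↔ z - N ∈ PF n S := by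
      unfold cx PF
      simp only [Set.mem_ofPred_eq]
      have : ∀ a, z - ∑ b ∈ {a}ᶜ, n b = z - N + n a := by
        intro a
        rw [sum_compl, Finset.sum_singleton]; ring
      simp only [this]
      rfl
    simp only [c1, c2] at key
    exact key
  have hsum := Finset.sum_congr (rfl : W = W) (fun z _ => hal z)
  rw [Finset.sum_add_distrib, Finset.sum_sub_distrib, Finset.sum_sub_distrib] at hsum
  have s1 : ∑ z ∈ W, (if z = 0 then (1 : ℤ) else 0) = 1 := by
    rw [Finset.sum_ite_eq' W 0]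
    simp only [hW, mem_Icc]
    rw [if_pos (by omega)]
  have s2 : ∑ z ∈ W, (if z - N ∈ PF n S then (1 : ℤ) else 0) = (PF n S).ncard := by
    rw [Finset.sum_boole]
    have : (PF n S).ncard = (W.filter (fun z => z - N ∈ PF n S)).card := by
      have himg : (fun f => f + N) '' (PF n S) = ((W.filter (fun z => z - N ∈ PF n S)) : Finset ℤ) := by
        ext z
        simp only [Set.mem_image, coe_filter, Set.mem_ofPred_eq]
        constructor
        · rintro ⟨f, hf, rfl⟩
          have h1 := h.pf_ge hf 0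
          have h2 := h.pf_le hf
          have e : f + N - N = f := by ring
          rw [e]
          have h3 : n 0 ≤ N := by
            have := h.pos 1
            have := h.pos 2
            have := h.pos 3
            rw [hN, Fin.sum_univ_four]; omega
          refine ⟨?_, hf⟩
          simp only [hW, mem_Icc]; omega
        · rintro ⟨_, h2⟩
          exact ⟨z - N, h2, by ring⟩
      rw [← Set.ncard_image_of_injective (PF n S) (f := fun f => f + N) (fun a b hab => by
        simpa using hab), himg, Set.ncard_coe_finset]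
    rw [this]
  have s3 : ∑ z ∈ W, ∑ I : Finset (Fin 4),
      (if z - ∑ a ∈ I, n a ∈ S then (-1 : ℤ) ^ (I.card + 1) else 0) = 0 := by
    rw [Finset.sum_comm]
    refine Eq.trans ?_ (sign_sum n (((W.filter (fun z => z ∈ S)).card : ℤ)))
    apply Finset.sum_congr rfl
    intro I _
    rw [← card_I h (m := ∑ a ∈ I, n a) (Finset.sum_nonneg fun a _ => (h.pos a).le)
      (Finset.sum_le_univ_sum_of_nonneg fun a => (h.pos a).le)]
    rw [← Finset.sum_filter, Finset.sum_const, nsmul_eq_mul, mul_comm]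
  rw [s1, s2, s3] at hsum
  rw [hrefl]
  have : ((∑ z ∈ W, bX n (KK S F) (F + N - z) + 1 : ℕ) : ℤ)
      = ((∑ z ∈ W, bX n S z + (PF n S).ncard : ℕ) : ℤ) := by
    push_cast
    linarith
  exact_mod_cast this

end H70NG
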