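import Pool.Agent.H70.NG.Kappa
import Pool.Agent.H70.NG.CTotal

/-!
# NG-STEP2: `∑ b_K = 4 (t - 1) + ∑ rho_f` when `A_f` has two elements

Sum `kappa` over all `z`: the terms for `i` and `j` give `t - 1` each (`z = F - g + n i`,
`g ∈ PF`, `g ≠ f`), the `e2` terms give `2 (t - 1)` (`e2C_total`); finite supports: `Sg.supp_bK`,
`Sg.supp_rho`, `e2_supp`, `Sg.pf_finite`.
-/

open Finset

namespace H70NG

variable {n : Fin 4 → ℤ} {S : Set ℤ} {F : ℤ}

theorem fin4_others : ∀ i j : Fin 4, i ≠ j → ∃ k l : Fin 4, i ≠ k ∧ i ≠ l ∧ j ≠ k ∧ j ≠ l ∧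
    k ≠ l := by decide

open Classical in
/-- the sum of an indicator function -/
theorem finsum_ite_one {s : Set ℤ} (hs : s.Finite) :
    ∑ᶠ z, (if z ∈ s then (1 : ℤ) else 0) = (s.ncard : ℤ) := by
  rw [finsum_eq_sum_of_support_subset (s := hs.toFinset)]
  · rw [Finset.sum_boole, Set.ncard_eq_toFinset_card s hs]
    congr 2
    ext z
    simp
  · intro z hz
    rw [Function.mem_support] at hz
    by_contra hc
    apply hz
    have : z ∉ s := fun h => hc (by simpa using h)
    rw [if_neg this]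

open Classical in
/-- the terms of `kappa` for one element of `A_f` -/
theorem kappa_term (h : Sg n S F) {f : ℤ} (hf : f ∈ PF n S) (c : ℤ) :
    (Function.support (fun z => (if F - (z - c) ∈ PF n S ∧ F - (z - c) ≠ f then (1 : ℤ)
      else 0))).Finite ∧
    ∑ᶠ z, (if F - (z - c) ∈ PF n S ∧ F - (z - c) ≠ f then (1 : ℤ) else 0) + 1
      = ((PF n S).ncard : ℤ) := by
  have hset : {z | F - (z - c) ∈ PF n S ∧ F - (z - c) ≠ f}
      = (fun g => F - g + c) '' (PF n S \ {f}) := by
    ext z
    constructor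
    · rintro ⟨h1, h2⟩
      refine ⟨F - (z - c), ⟨h1, h2⟩, ?_⟩
      change F - (F - (z - c)) + c = z
      ring
    · rintro ⟨g, ⟨h1, h2⟩, rfl⟩
      have e : F - (F - g + c - c) = g := by ring
      change F - (F - g + c - c) ∈ PF n S ∧ F - (F - g + c - c) ≠ f
      rw [e]
      exact ⟨h1, h2⟩
  have hfin : {z | F - (z - c) ∈ PF n S ∧ F - (z - c) ≠ f}.Finite := by
    rw [hset]
    exact (h.pf_finite.subset Set.sdiff_subset).image _
  have hinj : Function.Injective (fun g : ℤ => F - g + c) := fun a b hab => by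
    have : F - a + c = F - b + c := hab
    omega
  refine ⟨hfin.subset fun z hz => ?_, ?_⟩
  · rw [Function.mem_support] at hz
    by_contra hc
    exact hz (if_neg hc)
  · have h1 := finsum_ite_one hfin
    have h2 : ∑ᶠ z, (if F - (z - c) ∈ PF n S ∧ F - (z - c) ≠ f then (1 : ℤ) else 0)
        = (({z | F - (z - c) ∈ PF n S ∧ F - (z - c) ≠ f} : Set ℤ).ncard : ℤ) := by
      rw [← h1]
      refine finsum_congr fun z => ?_
      by_cases hz : F - (z - c) ∈ PF n S ∧ F - (z - c) ≠ f
      · have hz' : z ∈ {z | F - (z - c) ∈ PF n S ∧ F - (z - c) ≠ f} := hz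
        rw [if_pos hz, if_pos hz']
      · have hz' : z ∉ {z | F - (z - c) ∈ PF n S ∧ F - (z - c) ≠ f} := hz
        rw [if_neg hz, if_neg hz']
    rw [h2, hset, Set.ncard_image_of_injective _ hinj, Set.ncard_sdiff_singleton_of_mem hf]
    have hpos : 0 < (PF n S).ncard := (Set.ncard_pos h.pf_finite).2 ⟨f, hf⟩
    omega

theorem cast_finsum_nat {f : ℤ → ℕ} (hf : (Function.support f).Finite) :
    ((∑ᶠ z, f z : ℕ) : ℤ) = ∑ᶠ z, (f z : ℤ) :=
  (Nat.castAddMonoidHom ℤ).map_finsum hf

theorem step2 (h : Sg n S F) {f : ℤ} (hf : f ∈ PF n S) {i j : Fin 4} (hij : i ≠ j)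
    (hi : AA n S f i) (hj : AA n S f j) :
    (∑ᶠ z, bX n (KK S F) z) + 4 = 4 * (PF n S).ncard + ∑ᶠ z, rho n S F f z := by
  classical
  obtain ⟨k, l, hik, hil, hjk, hjl, hkl⟩ := fin4_others i j hij
  have hb := cast_finsum_nat h.supp_bK
  have hr := cast_finsum_nat (h.supp_rho f)
  have hrs : (Function.support (fun z => (rho n S F f z : ℤ))).Finite :=
    (h.supp_rho f).subset fun z hz => by
      rw [Function.mem_support] at hz ⊢
      intro hc
      exact hz (by rw [hc]; rfl)
  obtain ⟨hAs, hA⟩ := kappa_term h hf (n i)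
  obtain ⟨hBs, hB⟩ := kappa_term h hf (n j)
  have hEs := e2_supp (h.CC_finite f) (n k) (n l)
  have hE := e2C_total h hf hij hik hil hjk hjl hkl hi hj
  have hsum : ∑ᶠ z, (bX n (KK S F) z : ℤ) = ∑ᶠ z, (rho n S F f z : ℤ)
      + ∑ᶠ z, (if F - (z - n i) ∈ PF n S ∧ F - (z - n i) ≠ f then (1 : ℤ) else 0)
      + ∑ᶠ z, (if F - (z - n j) ∈ PF n S ∧ F - (z - n j) ≠ f then (1 : ℤ) else 0)
      + ∑ᶠ z, e2 (CC S F f) (n k) (n l) z := by
    rw [← finsum_add_distrib hrs hAs, ← finsum_add_distrib _ hBs, ← finsum_add_distrib _ hEs]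
    · refine finsum_congr fun z => ?_
      exact kappa h hf hij hik hil hjk hjl hkl hi hj z
    · exact ((hrs.union hAs).union hBs).subset fun z hz => by
        rw [Function.mem_support] at hz
        by_contra hc
        apply hz
        simp only [Set.mem_union, Function.mem_support, not_or, not_not] at hc
        rw [hc.1.1, hc.1.2, hc.2]
        rfl
    · exact (hrs.union hAs).subset fun z hz => by
        rw [Function.mem_support] at hz
        by_contra hc
        apply hz
        simp only [Set.mem_union, Function.mem_support, not_or, not_not] at hc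
        rw [hc.1, hc.2]
        rfl
  have hfinal : (((∑ᶠ z, bX n (KK S F) z) + 4 : ℕ) : ℤ)
      = ((4 * (PF n S).ncard + ∑ᶠ z, rho n S F f z : ℕ) : ℤ) := by
    push_cast
    rw [hb, hr, hsum]
    linarith
  exact_mod_cast hfinal

end H70NG
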