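import Pool.Agent.H70.NG.TwoVar

/-!
# NG-STEP4: the interval `E = [0, σ]`

`σ = n i + g = n m + f`, `f ≠ g` in `PF`, `i ≠ m`, `{p, q}` the other two indices,
`E = EE S σ = {x ∈ S : σ - x ∈ S}`.

* `n i, n m ∉ E` (`σ - n i = g ∉ S`, `σ - n m = f ∉ S`); if `x ∈ E` then `x - n i ∉ S` and
  `x - n m ∉ S` (a divisor of an element of `E` is in `E`: if `x ∈ E`, `y ∈ S`, `x - y ∈ S` then
  `y ∈ E`).
* if `x ∈ E`, `x ≠ 0` then `x - n p ∈ E` or `x - n q ∈ E` (`Sg.dec`).
* `E` is finite, symmetric under `x ↦ σ - x`, contains `0` and `σ`.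
* total: `{x ∈ E : x - n p, x - n q ∉ E} = {0}` and, by symmetry,
  `{x ∈ E : x + n p, x + n q ∉ E} = {σ}`; so `∑ e2 = 2`.
* `0 ≤ e2 E`: if `z ∈ E` and `z - n p - n q ∈ E` then `z - n p, z - n q ∈ E`.
-/

open Finset

namespace H70NG

variable {n : Fin 4 → ℤ} {S : Set ℤ} {F : ℤ}

theorem EE_symm {σ x : ℤ} : x ∈ EE S σ ↔ σ - x ∈ EE S σ := by
  unfold EE
  constructor
  · rintro ⟨h1, h2⟩; exact ⟨h2, by simpa using h1⟩
  · rintro ⟨h1, h2⟩; exact ⟨by simpa using h2, h1⟩

/-- A divisor of an element of `E` is in `E`. -/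
theorem Sg.EE_div (h : Sg n S F) {σ x y : ℤ} (hx : x ∈ EE S σ) (hy : y ∈ S) (hxy : x - y ∈ S) :
    y ∈ EE S σ := by
  refine ⟨hy, ?_⟩
  have := h.add _ hx.2 _ hxy
  have e : σ - x + (x - y) = σ - y := by ring
  rwa [e] at this

theorem Sg.EE_finite (h : Sg n S F) (σ : ℤ) : (EE S σ).Finite := by
  apply (Set.finite_Icc 0 σ).subset
  rintro x ⟨h1, h2⟩
  exact ⟨h.nonneg _ h1, by have := h.nonneg _ h2; omega⟩

/-- No element of `E` is divisible by `n i` or `n m`. -/
theorem Sg.EE_notdiv (h : Sg n S F) {f g σ : ℤ} (hf : f ∈ PF n S) {m : Fin 4}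
    (hm : n m + f = σ) {x : ℤ} (hx : x ∈ EE S σ) : x - n m ∉ S := by
  intro hc
  have := (h.EE_div hx (h.gen m) hc).2
  apply hf.1
  have e : σ - n m = f := by omega
  rwa [e] at this

theorem Sg.EE_pred (h : Sg n S F) {f g σ : ℤ} (hf : f ∈ PF n S) (hg : g ∈ PF n S)
    {i m p q : Fin 4} (him : i ≠ m) (hip : i ≠ p) (hiq : i ≠ q) (hmp : m ≠ p) (hmq : m ≠ q)
    (hpq : p ≠ q) (hi : n i + g = σ) (hm : n m + f = σ) {x : ℤ} (hx : x ∈ EE S σ)
    (h0 : x ≠ 0) : x - n p ∈ EE S σ ∨ x - n q ∈ EE S σ := by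
  obtain ⟨a, ha⟩ := h.dec x hx.1 h0
  have key : x - n a ∈ EE S σ := by
    refine h.EE_div hx ha ?_
    have e : x - (x - n a) = n a := by ring
    rw [e]
    exact h.gen a
  have hcases : a = i ∨ a = m ∨ a = p ∨ a = q := by
    clear hx h0 ha key hi hm
    revert a i m p q
    decide
  rcases hcases with rfl | rfl | rfl | rfl
  · exact absurd ha (h.EE_notdiv (g := 0) hg hi hx)
  · exact absurd ha (h.EE_notdiv (g := 0) hf hm hx)
  · exact Or.inl key
  · exact Or.inr key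

theorem Sg.e2E_total (h : Sg n S F) {f g σ : ℤ} (hf : f ∈ PF n S) (hg : g ∈ PF n S)
    {i m p q : Fin 4} (him : i ≠ m) (hip : i ≠ p) (hiq : i ≠ q) (hmp : m ≠ p) (hmq : m ≠ q)
    (hpq : p ≠ q) (hi : n i + g = σ) (hm : n m + f = σ) :
    ∑ᶠ z, e2 (EE S σ) (n p) (n q) z = 2 := by
  rw [twoVar (h.EE_finite σ)]
  have hσ : σ ∈ S := by
    have := hg.2 i
    rwa [add_comm, hi] at this
  have h0 : (0 : ℤ) ∈ EE S σ := ⟨h.zero, by simpa using hσ⟩
  have hneg : ∀ y : ℤ, y < 0 → y ∉ EE S σ := fun y hy hy' => h.neg_notMem hy hy'.1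
  have e1 : ({x | x ∈ EE S σ ∧ x - n p ∉ EE S σ ∧ x - n q ∉ EE S σ} : Set ℤ) = {0} := by
    ext x
    simp only [Set.mem_setOf_eq, Set.mem_singleton_iff]
    constructor
    · rintro ⟨hx, hxp, hxq⟩
      by_contra hne
      rcases h.EE_pred hf hg him hip hiq hmp hmq hpq hi hm hx hne with h1 | h1
      · exact hxp h1
      · exact hxq h1
    · rintro rfl
      refine ⟨h0, hneg _ ?_, hneg _ ?_⟩
      · have := h.pos p; omega
      · have := h.pos q; omega
  have e2' : ({x | x ∈ EE S σ ∧ x + n p ∉ EE S σ ∧ x + n q ∉ EE S σ} : Set ℤ) = {σ} := by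
    ext x
    simp only [Set.mem_setOf_eq, Set.mem_singleton_iff]
    constructor
    · rintro ⟨hx, hxp, hxq⟩
      by_contra hne
      have hx' := EE_symm.1 hx
      have hne' : σ - x ≠ 0 := by omega
      rcases h.EE_pred hf hg him hip hiq hmp hmq hpq hi hm hx' hne' with h1 | h1
      · apply hxp
        have := EE_symm.1 h1
        have e : σ - (σ - x - n p) = x + n p := by ring
        rwa [e] at this
      · apply hxq
        have := EE_symm.1 h1
        have e : σ - (σ - x - n q) = x + n q := by ring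
        rwa [e] at this
    · rintro rfl
      refine ⟨⟨hσ, by simpa using h.zero⟩, ?_, ?_⟩
      · intro hc
        have := h.nonneg _ hc.2
        have := h.pos p
        omega
      · intro hc
        have := h.nonneg _ hc.2
        have := h.pos q
        omega
  rw [e1, e2', Set.ncard_singleton, Set.ncard_singleton]
  norm_num

theorem Sg.e2E_nonneg (h : Sg n S F) (σ : ℤ) (p q : Fin 4) (z : ℤ) :
    0 ≤ e2 (EE S σ) (n p) (n q) z := by
  have key : z ∈ EE S σ → z - n p - n q ∈ EE S σ → z - n p ∈ EE S σ ∧ z - n q ∈ EE S σ := by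
    rintro ⟨_, h2⟩ ⟨h3, _⟩
    refine ⟨⟨?_, ?_⟩, ⟨?_, ?_⟩⟩
    · have := h.add_gen h3 q
      have e : z - n p - n q + n q = z - n p := by ring
      rwa [e] at this
    · have := h.add_gen h2 p
      have e : σ - z + n p = σ - (z - n p) := by ring
      rwa [e] at this
    · have := h.add_gen h3 p
      have e : z - n p - n q + n p = z - n q := by ring
      rwa [e] at this
    · have := h.add_gen h2 q
      have e : σ - z + n q = σ - (z - n q) := by ring
      rwa [e] at this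
  unfold e2
  by_cases h1 : z ∈ EE S σ <;> by_cases h2 : z - n p - n q ∈ EE S σ <;>
    by_cases h3 : z - n p ∈ EE S σ <;> by_cases h4 : z - n q ∈ EE S σ <;>
    simp [h1, h2, h3, h4]
  all_goals
    have := key h1 h2
    tauto

end H70NG
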