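import Pool.Agent.H70.NG.Step4

/-!
# NG-STEP5: `rho_f(z) ≤ e2 E (n p) (n q) (z - d_f)`

Setting of Step 4.  `s = z - (F - f)`; the graph is the graph of `K = KK S F` in degree `z`;
`L a` means `s - n a ∈ S`; then `a` is a vertex of the `K`-graph (`F - f ∈ K`), and if
`s - n a - n b ∈ S`, `a ≠ b`, then `a b` is an edge of the `K`-graph.

(*) If `L a` and `σ - s + n a ∉ S` then `a` is connected to `m`: `σ - s + n a =
F - (z - n m - n a)`, so `z - n m - n a ∈ K`, and `a = m` or `a m` is an edge.
(**) Let `L a`, and suppose there is some `L b` with `b` not connected to `a`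
(so `s ≠ n a`, because `n a - n b ∉ S`).  If `a ∈ {i, m}` then `a` is connected to `m`:
otherwise by (*) `s - n a ∈ E`, `s - n a ≠ 0`, so `s - n a - n c ∈ S` for some `c ∈ {p, q}`; then
`L c`, `c ≠ a`, `a c` is an edge; if `s - n c ∈ E` then `n a` divides it, against
`Sg.EE_notdiv`; so by (*) `c` is connected to `m`, and so is `a`.
Hence: every component which meets `L` and does not contain `m` meets `L` only in `p` or `q`,
and for these elements `a`, `s - n a ∈ E`.
Let now `rho ≥ 1`, i.e. at least two components meet `L`.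
* If `p` and `q` are both in `L`, not connected to `m`, and not connected to each other:
  `s - n p, s - n q ∈ E`, `s - n p - n q ∉ S`; `e2 = 2 - [s ∈ E]`.  If the component of `m` meets
  `L` then it does so in `i` or `m`, so `s ∉ E` (`Sg.EE_notdiv`), `e2 = 2 = rho`; otherwise
  `rho = 1`.
* If `p` and `q` are both in `L`, not connected to `m`, and connected to each other: the
  component of `m` meets `L`, in `i` or `m`, so `s ∉ E` and
  `e2 = 2 - [s - n p - n q ∈ E] ≥ 1 = rho`.
* If exactly one, say `p`, is in `L` and not connected to `m`: `rho = 1`, the component of `m`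
  meets `L`; `s - n p ∈ E`; `s - n p - n q ∉ S` (otherwise `q` is in `L` and connected to `p`).
  If `s ∈ E` then the element of `L` connected to `m` is not `i, m`, so it is `q`, and
  `s - n q ∈ E` (it divides... `s ∈ E`, so `σ - (s - n q) = (σ - s) + n q ∈ S`);
  `e2 = 2 - 1 = 1`.  If `s ∉ E`, `e2 ≥ 1`.
-/

open Finset

namespace H70NG

variable {n : Fin 4 → ℤ} {S : Set ℤ} {F : ℤ}

theorem ghit_le_card {D : Finset (Fin 4) → Prop} {L : Fin 4 → Prop}
    (T : Finset (Finset (Fin 4))) (hT : ∀ a, L a → gcomp D a ∈ T) : ghit D L ≤ T.card - 1 := by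
  classical
  unfold ghit
  apply Nat.sub_le_sub_right
  apply Finset.card_le_card
  intro c hc
  rw [Finset.mem_filter] at hc
  obtain ⟨hc, a, hac, hL⟩ := hc
  obtain ⟨b, hb, rfl⟩ := mem_gcomps.1 hc
  have := hT a hL
  rwa [gcomp_eq_iff.2 (mem_gcomp.1 hac)]

theorem exists_of_ghit {D : Finset (Fin 4) → Prop} {L : Fin 4 → Prop} (h : ghit D L ≠ 0) :
    ∃ a b, L a ∧ L b ∧ ¬ GConn D a b := by
  classical
  by_contra hc
  push Not at hc
  by_cases hL : ∃ a, L a
  · obtain ⟨a, ha⟩ := hL
    have := ghit_le_card (D := D) (L := L) {gcomp D a} (fun b hb => by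
      rw [Finset.mem_singleton, gcomp_eq_iff]; exact hc b a hb ha)
    rw [Finset.card_singleton] at this
    exact h (by omega)
  · push Not at hL
    have := ghit_le_card (D := D) (L := L) ∅ (fun b hb => (hL b hb).elim)
    rw [Finset.card_empty] at this
    exact h (by omega)

theorem exists_not_conn {D : Finset (Fin 4) → Prop} {L : Fin 4 → Prop} (h : ghit D L ≠ 0)
    (c : Fin 4) : ∃ b, L b ∧ ¬ GConn D c b := by
  obtain ⟨a, b, ha, hb, hab⟩ := exists_of_ghit h
  by_cases hca : GConn D c a
  · exact ⟨b, hb, fun hcb => hab ((hca.symm').trans' hcb)⟩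
  · exact ⟨a, ha, hca⟩

theorem Sg.L_edge (h : Sg n S F) {f : ℤ} (hf : f ∈ PF n S) {z : ℤ} {a b : Fin 4} (hab : a ≠ b)
    (hs : z - (F - f) - n a - n b ∈ S) : GConn (cx n (KK S F) z) a b := by
  refine Relation.ReflTransGen.single ⟨hab, ?_⟩
  rw [cx_pair hab]
  have := h.KK_add (h.dg_mem_KK hf) hs
  have e : F - f + (z - (F - f) - n a - n b) = z - n a - n b := by ring
  rwa [e] at this

theorem L_star {f σ : ℤ} {m : Fin 4} (hm : n m + f = σ) {z : ℤ} {a : Fin 4}
    (ha : σ - (z - (F - f) - n a) ∉ S) : GConn (cx n (KK S F) z) a m := by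
  by_cases ham : a = m
  · subst ham; exact Relation.ReflTransGen.refl
  · refine Relation.ReflTransGen.single ⟨ham, ?_⟩
    rw [cx_pair ham, mem_KK]
    have e : F - (z - n a - n m) = σ - (z - (F - f) - n a) := by rw [← hm]; ring
    rwa [e]

theorem L_EE {f σ : ℤ} {m : Fin 4} (hm : n m + f = σ) {z : ℤ} {a : Fin 4}
    (hL : z - (F - f) - n a ∈ S) (hc : ¬ GConn (cx n (KK S F) z) a m) :
    z - (F - f) - n a ∈ EE S σ :=
  ⟨hL, by by_contra hcon; exact hc (L_star hm hcon)⟩

theorem Sg.L_im (h : Sg n S F) {f g σ : ℤ} (hf : f ∈ PF n S) (hg : g ∈ PF n S)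
    {i m p q : Fin 4} (him : i ≠ m) (hip : i ≠ p) (hiq : i ≠ q) (hmp : m ≠ p) (hmq : m ≠ q)
    (hpq : p ≠ q) (hi : n i + g = σ) (hm : n m + f = σ) {z : ℤ} {a b : Fin 4}
    (ha : a = i ∨ a = m) (hLa : z - (F - f) - n a ∈ S) (hLb : z - (F - f) - n b ∈ S)
    (hab : ¬ GConn (cx n (KK S F) z) a b) : GConn (cx n (KK S F) z) a m := by
  by_contra hcon
  have hE := L_EE hm hLa hcon
  have hne : a ≠ b := by
    rintro rfl; exact hab Relation.ReflTransGen.refl
  have h0 : z - (F - f) - n a ≠ 0 := by
    intro h0
    apply h.sub_notMem hne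
    have e : n a - n b = z - (F - f) - n b := by omega
    rwa [e]
  have key : ∀ c, (c = p ∨ c = q) → z - (F - f) - n a - n c ∈ EE S σ → False := by
    intro c hc hcE
    have hac : a ≠ c := by
      rcases ha with rfl | rfl <;> rcases hc with rfl | rfl <;> assumption
    have hconn := h.L_edge hf hac hcE.1
    have hLc : z - (F - f) - n c ∈ S := by
      have := h.add_gen hcE.1 a
      have e : z - (F - f) - n a - n c + n a = z - (F - f) - n c := by ring
      rwa [e] at this
    have hndiv : z - (F - f) - n c ∉ EE S σ := by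
      intro hcE'
      have e : z - (F - f) - n c - n a = z - (F - f) - n a - n c := by ring
      rcases ha with rfl | rfl
      · exact h.EE_notdiv (g := f) hg hi hcE' (by rw [e]; exact hcE.1)
      · exact h.EE_notdiv (g := g) hf hm hcE' (by rw [e]; exact hcE.1)
    have : GConn (cx n (KK S F) z) c m := by
      by_contra hc'
      exact hndiv (L_EE hm hLc hc')
    exact hcon (hconn.trans' this)
  rcases h.EE_pred hf hg him hip hiq hmp hmq hpq hi hm hE h0 with h1 | h1
  · exact key p (Or.inl rfl) h1
  · exact key q (Or.inr rfl) h1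

theorem fin4_cases {i m p q : Fin 4} (him : i ≠ m) (hip : i ≠ p) (hiq : i ≠ q) (hmp : m ≠ p)
    (hmq : m ≠ q) (hpq : p ≠ q) (a : Fin 4) : a = i ∨ a = m ∨ a = p ∨ a = q := by
  revert i m p q a; decide

/-- The case in which exactly `p` is in `L` and not connected to `m`. -/
theorem Sg.rho_le_caseC (h : Sg n S F) {f g σ : ℤ} (hf : f ∈ PF n S) (hg : g ∈ PF n S)
    {i m p q : Fin 4} (him : i ≠ m) (hip : i ≠ p) (hiq : i ≠ q) (hmp : m ≠ p) (hmq : m ≠ q)
    (hpq : p ≠ q) (hi : n i + g = σ) (hm : n m + f = σ) {z : ℤ}
    (hr : rho n S F f z ≠ 0)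
    (hp : z - (F - f) - n p ∈ S) (hpm : ¬ GConn (cx n (KK S F) z) p m)
    (hq : z - (F - f) - n q ∈ S → GConn (cx n (KK S F) z) q m) :
    (rho n S F f z : ℤ) ≤ e2 (EE S σ) (n p) (n q) (z - (F - f)) := by
  classical
  have hpE := L_EE hm hp hpm
  have hpqS : z - (F - f) - n p - n q ∉ S := by
    intro hc
    have hcon := h.L_edge hf hpq hc
    have hLq : z - (F - f) - n q ∈ S := by
      have := h.add_gen hc p
      have e : z - (F - f) - n p - n q + n p = z - (F - f) - n q := by ring
      rwa [e] at this
    exact hpm (hcon.trans' (hq hLq))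
  have hpqE : z - (F - f) - n p - n q ∉ EE S σ := fun hc => hpqS hc.1
  -- an element of `L` connected to `m`
  obtain ⟨b, hLb, hpb⟩ := exists_not_conn hr p
  have hbm : GConn (cx n (KK S F) z) b m := by
    rcases fin4_cases him hip hiq hmp hmq hpq b with hb | hb | hb | hb
    · exact h.L_im hf hg him hip hiq hmp hmq hpq hi hm (Or.inl hb) hLb hp
        (fun hc => hpb hc.symm')
    · subst hb; exact Relation.ReflTransGen.refl
    · subst hb; exact (hpb Relation.ReflTransGen.refl).elim
    · subst hb; exact hq hLb
  have hcard : rho n S F f z ≤ 1 := by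
    have := ghit_le_card (D := cx n (KK S F) z) (L := fun a => z - (F - f) - n a ∈ S)
      {gcomp (cx n (KK S F) z) p, gcomp (cx n (KK S F) z) m} (by
        intro a ha
        rw [Finset.mem_insert, Finset.mem_singleton, gcomp_eq_iff, gcomp_eq_iff]
        rcases fin4_cases him hip hiq hmp hmq hpq a with hb | hb | hb | hb
        · by_cases hap : GConn (cx n (KK S F) z) a p
          · exact Or.inl hap
          · exact Or.inr (h.L_im hf hg him hip hiq hmp hmq hpq hi hm (Or.inl hb) ha hp hap)
        · subst hb; exact Or.inr Relation.ReflTransGen.refl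
        · subst hb; exact Or.inl Relation.ReflTransGen.refl
        · subst hb; exact Or.inr (hq ha))
    have h2 : ({gcomp (cx n (KK S F) z) p, gcomp (cx n (KK S F) z) m} :
      Finset (Finset (Fin 4))).card ≤ 2 := Finset.card_le_two
    unfold rho
    omega
  have he : (1 : ℤ) ≤ e2 (EE S σ) (n p) (n q) (z - (F - f)) := by
    unfold e2
    rw [if_pos hpE]
    rw [if_neg (c := z - (F - f) - n p - n q ∈ EE S σ ∧ _) (fun hc => hpqE hc.1)]
    by_cases hsE : z - (F - f) ∈ EE S σ
    · -- then `b = q`
      have hbq : b = q := by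
        rcases fin4_cases him hip hiq hmp hmq hpq b with hb | hb | hb | hb
        · subst hb; exact (h.EE_notdiv (g := f) hg hi hsE hLb).elim
        · subst hb; exact (h.EE_notdiv (g := g) hf hm hsE hLb).elim
        · subst hb; exact (hpb Relation.ReflTransGen.refl).elim
        · exact hb
      subst hbq
      have hqE : z - (F - f) - n b ∈ EE S σ := by
        refine ⟨hLb, ?_⟩
        have := h.add_gen hsE.2 b
        have e : σ - (z - (F - f)) + n b = σ - (z - (F - f) - n b) := by ring
        rwa [e] at this
      rw [if_pos hqE]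
      split_ifs <;> norm_num
    · rw [if_neg (c := z - (F - f) ∈ EE S σ ∧ _) (fun hc => hsE hc.1)]
      split_ifs <;> norm_num
  omega

theorem e2_swap (C : Set ℤ) (p q z : ℤ) : e2 C p q z = e2 C q p z := by
  unfold e2
  have e : z - q - p = z - p - q := by ring
  rw [e]
  split_ifs <;> first | norm_num; done | (exfalso; tauto)

theorem rho_le_e2 (h : Sg n S F) {f g σ : ℤ} (hf : f ∈ PF n S) (hg : g ∈ PF n S)
    {i m p q : Fin 4} (him : i ≠ m) (hip : i ≠ p) (hiq : i ≠ q) (hmp : m ≠ p) (hmq : m ≠ q)
    (hpq : p ≠ q) (hi : n i + g = σ) (hm : n m + f = σ) (z : ℤ) :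
    (rho n S F f z : ℤ) ≤ e2 (EE S σ) (n p) (n q) (z - (F - f)) := by
  classical
  by_cases hr : rho n S F f z = 0
  · rw [hr]; exact h.e2E_nonneg σ p q _
  by_cases hp : z - (F - f) - n p ∈ S ∧ ¬ GConn (cx n (KK S F) z) p m
  · by_cases hq : z - (F - f) - n q ∈ S ∧ ¬ GConn (cx n (KK S F) z) q m
    · obtain ⟨hLp, hpm⟩ := hp
      obtain ⟨hLq, hqm⟩ := hq
      have hpE := L_EE hm hLp hpm
      have hqE := L_EE hm hLq hqm
      -- elements of `L` other than `p`, `q` are connected to `m`
      have him' : ∀ a, (a = i ∨ a = m) → z - (F - f) - n a ∈ S →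
          GConn (cx n (KK S F) z) a m := by
        intro a ha hLa
        obtain ⟨b, hLb, hb⟩ := exists_not_conn hr a
        exact h.L_im hf hg him hip hiq hmp hmq hpq hi hm ha hLa hLb hb
      have hnotE : (∃ a, (a = i ∨ a = m) ∧ z - (F - f) - n a ∈ S) →
          z - (F - f) ∉ EE S σ := by
        rintro ⟨a, rfl | rfl, hLa⟩ hsE
        · exact h.EE_notdiv (g := f) hg hi hsE hLa
        · exact h.EE_notdiv (g := g) hf hm hsE hLa
      by_cases hcon : GConn (cx n (KK S F) z) p q
      · -- connected
        obtain ⟨b, hLb, hpb⟩ := exists_not_conn hr p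
        have hb : b = i ∨ b = m := by
          rcases fin4_cases him hip hiq hmp hmq hpq b with hb | hb | hb | hb
          · exact Or.inl hb
          · exact Or.inr hb
          · subst hb; exact (hpb Relation.ReflTransGen.refl).elim
          · subst hb; exact (hpb hcon).elim
        have hsE := hnotE ⟨b, hb, hLb⟩
        have hcard : rho n S F f z ≤ 1 := by
          have := ghit_le_card (D := cx n (KK S F) z) (L := fun a => z - (F - f) - n a ∈ S)
            {gcomp (cx n (KK S F) z) p, gcomp (cx n (KK S F) z) m} (by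
              intro a ha
              rw [Finset.mem_insert, Finset.mem_singleton, gcomp_eq_iff, gcomp_eq_iff]
              rcases fin4_cases him hip hiq hmp hmq hpq a with hb | hb | hb | hb
              · exact Or.inr (him' a (Or.inl hb) ha)
              · exact Or.inr (him' a (Or.inr hb) ha)
              · subst hb; exact Or.inl Relation.ReflTransGen.refl
              · subst hb; exact Or.inl hcon.symm')
          have h2 : ({gcomp (cx n (KK S F) z) p, gcomp (cx n (KK S F) z) m} :
            Finset (Finset (Fin 4))).card ≤ 2 := Finset.card_le_two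
          unfold rho
          omega
        have he : (1 : ℤ) ≤ e2 (EE S σ) (n p) (n q) (z - (F - f)) := by
          unfold e2
          rw [if_pos hpE, if_pos hqE,
            if_neg (c := z - (F - f) ∈ EE S σ ∧ _) (fun hc => hsE hc.1)]
          split_ifs <;> norm_num
        omega
      · -- not connected
        have hpqE : z - (F - f) - n p - n q ∉ EE S σ := fun hc =>
          hcon (h.L_edge hf hpq hc.1)
        by_cases hM : ∃ a, (a = i ∨ a = m) ∧ z - (F - f) - n a ∈ S
        · have hsE := hnotE hM
          have he : e2 (EE S σ) (n p) (n q) (z - (F - f)) = 2 := by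
            unfold e2
            rw [if_pos hpE, if_pos hqE,
              if_neg (c := z - (F - f) ∈ EE S σ ∧ _) (fun hc => hsE hc.1),
              if_neg (c := z - (F - f) - n p - n q ∈ EE S σ ∧ _) (fun hc => hpqE hc.1)]
            norm_num
          have := ghit_le_card (D := cx n (KK S F) z) (L := fun a => z - (F - f) - n a ∈ S)
            {gcomp (cx n (KK S F) z) p, gcomp (cx n (KK S F) z) q,
              gcomp (cx n (KK S F) z) m} (by
              intro a ha
              rw [Finset.mem_insert, Finset.mem_insert, Finset.mem_singleton, gcomp_eq_iff,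
                gcomp_eq_iff, gcomp_eq_iff]
              rcases fin4_cases him hip hiq hmp hmq hpq a with hb | hb | hb | hb
              · exact Or.inr (Or.inr (him' a (Or.inl hb) ha))
              · exact Or.inr (Or.inr (him' a (Or.inr hb) ha))
              · subst hb; exact Or.inl Relation.ReflTransGen.refl
              · subst hb; exact Or.inr (Or.inl Relation.ReflTransGen.refl))
          have h2 : ({gcomp (cx n (KK S F) z) p, gcomp (cx n (KK S F) z) q,
            gcomp (cx n (KK S F) z) m} : Finset (Finset (Fin 4))).card ≤ 3 :=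
            Finset.card_le_three
          rw [he]
          unfold rho
          omega
        · have he : (1 : ℤ) ≤ e2 (EE S σ) (n p) (n q) (z - (F - f)) := by
            unfold e2
            rw [if_pos hpE, if_pos hqE,
              if_neg (c := z - (F - f) - n p - n q ∈ EE S σ ∧ _) (fun hc => hpqE hc.1)]
            split_ifs <;> norm_num
          have := ghit_le_card (D := cx n (KK S F) z) (L := fun a => z - (F - f) - n a ∈ S)
            {gcomp (cx n (KK S F) z) p, gcomp (cx n (KK S F) z) q} (by
              intro a ha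
              rw [Finset.mem_insert, Finset.mem_singleton, gcomp_eq_iff, gcomp_eq_iff]
              rcases fin4_cases him hip hiq hmp hmq hpq a with hb | hb | hb | hb
              · exact (hM ⟨a, Or.inl hb, ha⟩).elim
              · exact (hM ⟨a, Or.inr hb, ha⟩).elim
              · subst hb; exact Or.inl Relation.ReflTransGen.refl
              · subst hb; exact Or.inr Relation.ReflTransGen.refl)
          have h2 : ({gcomp (cx n (KK S F) z) p, gcomp (cx n (KK S F) z) q} :
            Finset (Finset (Fin 4))).card ≤ 2 := Finset.card_le_two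
          have h3 : rho n S F f z ≤ 1 := by unfold rho; omega
          omega
    · -- `p` only
      have hq' : z - (F - f) - n q ∈ S → GConn (cx n (KK S F) z) q m := by
        intro hq1; by_contra hq2; exact hq ⟨hq1, hq2⟩
      exact h.rho_le_caseC hf hg him hip hiq hmp hmq hpq hi hm hr hp.1 hp.2 hq'
  · have hp' : z - (F - f) - n p ∈ S → GConn (cx n (KK S F) z) p m := by
      intro hq1; by_contra hq2; exact hp ⟨hq1, hq2⟩
    by_cases hq : z - (F - f) - n q ∈ S ∧ ¬ GConn (cx n (KK S F) z) q m
    · rw [e2_swap]
      exact h.rho_le_caseC hf hg him hiq hip hmq hmp hpq.symm hi hm hr hq.1 hq.2 hp'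
    · -- none: contradiction
      exfalso
      have hq' : z - (F - f) - n q ∈ S → GConn (cx n (KK S F) z) q m := by
        intro hq1; by_contra hq2; exact hq ⟨hq1, hq2⟩
      have hall : ∀ a, z - (F - f) - n a ∈ S → GConn (cx n (KK S F) z) a m := by
        intro a hLa
        obtain ⟨b, hLb, hb⟩ := exists_not_conn hr a
        rcases fin4_cases him hip hiq hmp hmq hpq a with ha | ha | ha | ha
        · exact h.L_im hf hg him hip hiq hmp hmq hpq hi hm (Or.inl ha) hLa hLb hb
        · subst ha; exact Relation.ReflTransGen.refl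
        · subst ha; exact hp' hLa
        · subst ha; exact hq' hLa
      obtain ⟨a, b, ha, hb, hab⟩ := exists_of_ghit hr
      exact hab ((hall a ha).trans' (hall b hb).symm')

end H70NG
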